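import Pool.Agent.Helper18_Henkin.Nodes

set_option autoImplicit false

open Complex

namespace Pool.Agent.Helper18_Henkin

variable {f g : ℝ → ℂ} {A : ℝ → ℝ} {B : ℝ → ℂ} {A₀ K c : ℝ}

theorem norm_pow_sub_le (u v : ℂ) (hu : ‖u‖ ≤ 1) (hv : ‖v‖ ≤ 1) (L : ℕ) :
    ‖u ^ L - v ^ L‖ ≤ L * ‖u - v‖ := by
  induction L with
  | zero => simp
  | succ L ih =>
    have e : u ^ (L + 1) - v ^ (L + 1) = u ^ L * (u - v) + (u ^ L - v ^ L) * v := by ring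
    rw [e]
    refine (norm_add_le _ _).trans ?_
    rw [norm_mul, norm_mul, norm_pow]
    have h1 : ‖u‖ ^ L ≤ 1 := pow_le_one₀ (norm_nonneg _) hu
    have h2 : ‖u‖ ^ L * ‖u - v‖ ≤ 1 * ‖u - v‖ := by gcongr
    have h3 : ‖u ^ L - v ^ L‖ * ‖v‖ ≤ (L * ‖u - v‖) * 1 := by gcongr
    push_cast
    linarith

theorem geom_bound (s : ℝ) (h0 : 0 ≤ s) (h1 : s ≤ 1) (L : ℕ) : (L + 1) * ((1 - s) * s ^ L) ≤ 1 := by
  have h2 := geom_sum_mul_neg s (L + 1)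
  have h3 : ((L : ℝ) + 1) * s ^ L ≤ ∑ i ∈ Finset.range (L + 1), s ^ i := by
    have : ∑ _i ∈ Finset.range (L + 1), s ^ L ≤ ∑ i ∈ Finset.range (L + 1), s ^ i := by
      refine Finset.sum_le_sum fun i hi => ?_
      have : i ≤ L := by
        have := Finset.mem_range.1 hi
        omega
      exact pow_le_pow_of_le_one h0 h1 this
    simpa using this
  have h4 : 0 ≤ 1 - s := by linarith
  have h5 : 0 ≤ s ^ (L + 1) := by positivity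
  nlinarith [mul_le_mul_of_nonneg_right h3 h4]

/-- The bracket. -/
noncomputable def GG (f g : ℝ → ℂ) (θ : ℝ) (m L : ℕ) (cc : ℂ) (z : E2) : ℂ :=
  (m : ℂ) ^ 4 * yy f g θ z * xx f g θ z ^ L - cc * xx f g θ z ^ (2 * L)

/-- The parameters of one step. -/
structure Par (A₀ : ℝ) (m : ℕ) (σ a b : ℝ) : Prop where
  m_pos : 1 ≤ m
  σ_pos : 0 < σ
  σ_sq : σ ^ 2 = A₀
  a_nonneg : 0 ≤ a
  b_eq : b = σ / 2 / (m : ℝ) ^ 4
  b_le : b ≤ 1 / 2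
  ab : a ^ 2 + b ^ 2 = 1

namespace Par

variable {m : ℕ} {σ a b : ℝ}

theorem b_pos (h : Par A₀ m σ a b) : 0 < b := by
  have := h.m_pos
  have h2 := h.σ_pos
  rw [h.b_eq]
  positivity

theorem a_le (h : Par A₀ m σ a b) : a ≤ 1 := by
  have := h.ab
  have := h.a_nonneg
  nlinarith [sq_nonneg b]

theorem m4b (h : Par A₀ m σ a b) : (m : ℝ) ^ 4 * b = σ / 2 := by
  have : (1 : ℝ) ≤ m := by exact_mod_cast h.m_pos
  rw [h.b_eq]
  field_simp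

theorem bN (h : Par A₀ m σ a b) : b ^ 2 * ((m ^ 8 : ℕ) : ℝ) = A₀ / 4 := by
  have h1 := h.m4b
  push_cast
  calc b ^ 2 * (m : ℝ) ^ 8 = ((m : ℝ) ^ 4 * b) ^ 2 := by ring
    _ = A₀ / 4 := by rw [h1, div_pow, h.σ_sq]; norm_num

theorem one_sub_a (h : Par A₀ m σ a b) : 1 - a ≤ b ^ 2 := by
  have := h.ab
  have := h.a_nonneg
  have := h.a_le
  nlinarith

theorem σ_le (h : Par A₀ m σ a b) (hA : 1 ≤ A₀) : 1 ≤ σ ∧ σ ≤ A₀ := by
  have h1 := h.σ_pos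
  have h2 := h.σ_sq
  have : 1 ≤ σ := by nlinarith
  exact ⟨this, by nlinarith⟩

end Par

/-- `a ^ L` is not small. -/
theorem aL_ge {m L : ℕ} {σ a b Aθ : ℝ} (h : Par A₀ m σ a b) (hA : 3 / 4 * A₀ ≤ Aθ) (hA₀ : 1 ≤ A₀)
    (hL : L * Aθ ≤ (m : ℝ) ^ 8) : 2 / 3 ≤ a ^ L := by
  have h1 := h.bN
  push_cast at h1
  have hb2 : b ^ 2 ≤ 1 / 4 := by
    have := h.b_le
    have := h.b_pos
    nlinarith
  have h2 : (L : ℝ) * b ^ 2 ≤ 1 / 3 := by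
    have h3 : (L : ℝ) * Aθ * b ^ 2 ≤ A₀ / 4 := by
      rw [← h1, mul_comm (b ^ 2)]
      gcongr
    have h4 : (L : ℝ) * b ^ 2 * (3 / 4 * A₀) ≤ (L : ℝ) * b ^ 2 * Aθ := by gcongr
    have h5 : (L : ℝ) * b ^ 2 * (3 / 4 * A₀) ≤ A₀ / 4 := by linarith
    by_contra hcon
    push Not at hcon
    nlinarith
  have h6 := one_add_mul_le_pow (a := -(b ^ 2)) (by nlinarith [sq_nonneg b]) L
  have h7 : (1 + -(b ^ 2)) = a ^ 2 := by linarith [h.ab]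
  rw [h7, ← pow_mul] at h6
  have h8 : a ^ (2 * L) ≤ a ^ L := pow_le_pow_of_le_one h.a_nonneg h.a_le (by omega)
  linarith

theorem GG_bound (hg : Good f g A B A₀ K c) {m L : ℕ} {σ a b : ℝ} (h : Par A₀ m σ a b) (θ : ℝ)
    (hL : L * A θ ≤ (m : ℝ) ^ 8) (hL2 : (m : ℝ) ^ 8 ≤ (L + 1) * A θ) {cc : ℂ} (hcc : ‖cc‖ = σ / 2 * (a ^ L)⁻¹)
    (z : E2) (hz : ‖z‖ ≤ 1) : ‖GG f g θ m L cc z‖ ≤ 2 * σ := by
  have hA₀ := hg.A₀_ge
  have hA1 := hg.A_le θ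
  have hA2 := hg.le_A θ
  have hσ := h.σ_pos
  have haL := aL_ge h hA2 hA₀ hL
  have hxy := xx_sq_add_yy_sq hg.unit θ z
  have hx := (norm_xx_le hg.unit θ z).trans hz
  set X := ‖xx f g θ z‖ with hX
  set Y := ‖yy f g θ z‖ with hY
  have hX0 : 0 ≤ X := norm_nonneg _
  have hY0 : 0 ≤ Y := norm_nonneg _
  have hz2 : ‖z‖ ^ 2 ≤ 1 := pow_le_one₀ (norm_nonneg _) hz
  have hY2 : Y ^ 2 ≤ 1 - X ^ 2 := by linarith
  have hgeo := geom_bound (X ^ 2) (by positivity) (pow_le_one₀ hX0 hx) L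
  have h1 : ((m : ℝ) ^ 4 * Y * X ^ L) ^ 2 ≤ (9 / 8 * σ) ^ 2 := by
    have e : ((m : ℝ) ^ 4 * Y * X ^ L) ^ 2 = (m : ℝ) ^ 8 * (Y ^ 2 * (X ^ 2) ^ L) := by ring
    rw [e]
    have p : 0 ≤ (X ^ 2) ^ L := by positivity
    calc (m : ℝ) ^ 8 * (Y ^ 2 * (X ^ 2) ^ L) ≤ (m : ℝ) ^ 8 * ((1 - X ^ 2) * (X ^ 2) ^ L) := by gcongr
      _ ≤ ((L + 1) * A θ) * ((1 - X ^ 2) * (X ^ 2) ^ L) := by
          apply mul_le_mul_of_nonneg_right hL2
          apply mul_nonneg _ p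
          nlinarith [pow_le_one₀ (n := 2) hX0 hx]
      _ = A θ * ((L + 1) * ((1 - X ^ 2) * (X ^ 2) ^ L)) := by ring
      _ ≤ A θ * 1 := by
          apply mul_le_mul_of_nonneg_left hgeo; linarith
      _ ≤ (9 / 8 * σ) ^ 2 := by
          rw [mul_pow, h.σ_sq]; linarith
  have h2 : (m : ℝ) ^ 4 * Y * X ^ L ≤ 9 / 8 * σ := by
    have h0 : 0 ≤ (m : ℝ) ^ 4 * Y * X ^ L := by positivity
    exact (pow_le_pow_iff_left₀ h0 (by positivity) two_ne_zero).1 h1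
  have h3 : ‖cc * xx f g θ z ^ (2 * L)‖ ≤ 3 / 4 * σ := by
    rw [norm_mul, norm_pow, hcc, ← hX]
    have h4 : X ^ (2 * L) ≤ 1 := pow_le_one₀ hX0 hx
    have h5 : (a ^ L)⁻¹ ≤ 3 / 2 := by
      rw [inv_le_comm₀ (by linarith) (by norm_num)]
      norm_num
      exact haL
    calc σ / 2 * (a ^ L)⁻¹ * X ^ (2 * L) ≤ σ / 2 * (3 / 2) * 1 := by gcongr
      _ = _ := by ring
  rw [GG]
  refine (norm_sub_le _ _).trans ?_
  have h6 : ‖(m : ℂ) ^ 4 * yy f g θ z * xx f g θ z ^ L‖ = (m : ℝ) ^ 4 * Y * X ^ L := by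
    rw [norm_mul, norm_mul, norm_pow, norm_pow, Complex.norm_natCast]
  rw [h6]
  linarith

theorem xx_new (a b : ℝ) (N : ℕ) (θ t : ℝ) :
    xx f g θ (pt (newf a b N f g (θ + t)) (newg a b N f g (θ + t))) =
      a * DD f g θ t - b * (uu N (θ + t) * star (EE f g θ t)) := by
  simp only [xx, pt_zero, pt_one, newf, newg, DD, EE, Complex.star_def, map_sub, map_mul]
  ring

theorem yy_new (a b : ℝ) (N : ℕ) (θ t : ℝ) :
    yy f g θ (pt (newf a b N f g (θ + t)) (newg a b N f g (θ + t))) =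
      a * EE f g θ t + b * (uu N (θ + t) * star (DD f g θ t)) := by
  simp only [yy, pt_zero, pt_one, newf, newg, DD, EE, Complex.star_def, map_add, map_mul,
    Complex.conj_conj]
  ring

end Pool.Agent.Helper18_Henkin
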