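import Pool.Agent.Helper18_Henkin.Cancel

set_option autoImplicit false

open Complex

namespace Pool.Agent.Helper18_Henkin

variable {f g : ℝ → ℂ} {A : ℝ → ℝ} {B : ℝ → ℂ} {A₀ K c : ℝ}

/-- The angle of the `j`-th node. -/
noncomputable def node (J j : ℕ) : ℝ := j * (2 * Real.pi / J)

/-- The exponent attached to an angle. -/
noncomputable def LL (A : ℝ → ℝ) (m : ℕ) (θ : ℝ) : ℕ := ⌊(m : ℝ) ^ 8 / A θ⌋₊

/-- The `j`-th term of the bump. -/
noncomputable def term (f g : ℝ → ℂ) (A : ℝ → ℝ) (m J : ℕ) (σ a : ℝ) (j : ℕ) (z : E2) : ℂ :=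
  kk (1 / (m : ℝ) ^ 6) (xx f g (node J j) z) *
    GG f g (node J j) m (LL A m (node J j)) (coef m (LL A m (node J j)) σ a (node J j)) z

/-- The bump function. -/
noncomputable def pp (f g : ℝ → ℂ) (A : ℝ → ℝ) (m J : ℕ) (σ a : ℝ) (z : E2) : ℂ :=
  ((1 / (5 * σ) : ℝ) : ℂ) * ∑ j ∈ Finset.range J, term f g A m J σ a j z

theorem LL_le (hg : Good f g A B A₀ K c) (m : ℕ) (θ : ℝ) : (LL A m θ) * A θ ≤ (m : ℝ) ^ 8 := by
  have hA : 0 < A θ := by linarith [hg.le_A θ, hg.A₀_ge]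
  have := Nat.floor_le (a := (m : ℝ) ^ 8 / A θ) (by positivity)
  rwa [le_div_iff₀ hA] at this

theorem le_LL (hg : Good f g A B A₀ K c) (m : ℕ) (θ : ℝ) : (m : ℝ) ^ 8 ≤ (LL A m θ + 1) * A θ := by
  have hA : 0 < A θ := by linarith [hg.le_A θ, hg.A₀_ge]
  have := Nat.lt_floor_add_one ((m : ℝ) ^ 8 / A θ)
  rw [div_lt_iff₀ hA] at this
  exact this.le

theorem differentiable_xx (θ : ℝ) : Differentiable ℂ (xx f g θ) := by
  unfold xx
  fun_prop

theorem differentiable_yy (θ : ℝ) : Differentiable ℂ (yy f g θ) := by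
  unfold yy
  fun_prop

theorem differentiableAt_pp (hu : ∀ θ, ‖f θ‖ ^ 2 + ‖g θ‖ ^ 2 = 1) {m : ℕ} (hm : 1 ≤ m) (J : ℕ) (σ a : ℝ)
    (z : E2) (hz : ‖z‖ ≤ 1) : DifferentiableAt ℂ (pp f g A m J σ a) z := by
  have hM : (1 : ℝ) ≤ m := by exact_mod_cast hm
  unfold pp
  refine DifferentiableAt.const_mul ?_ _
  have : ∀ j ∈ Finset.range J, DifferentiableAt ℂ (fun z => term f g A m J σ a j z) z := by
    intro j _
    unfold term
    refine DifferentiableAt.mul ?_ ?_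
    · unfold kk
      refine DifferentiableAt.pow ?_ 8
      simp only [div_eq_mul_inv]
      refine DifferentiableAt.const_mul (DifferentiableAt.fun_inv ?_ ?_) _
      · exact (differentiable_xx (f := f) (g := g) (node J j) z).const_sub _
      · have h1 := (norm_den_ge (δ := 1 / (m : ℝ) ^ 6) (by positivity)
          ((norm_xx_le hu (node J j) z).trans hz)).1
        have h2 : 0 < 1 / (m : ℝ) ^ 6 := by positivity
        intro h0
        rw [div_eq_mul_inv, h0, norm_zero] at h1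
        rw [div_eq_mul_inv] at h2
        linarith
    · unfold GG
      have h1 := differentiable_xx (f := f) (g := g) (node J j) z
      have h2 := differentiable_yy (f := f) (g := g) (node J j) z
      exact ((h2.const_mul _).mul (h1.pow _)).sub ((h1.pow _).const_mul _)
  exact DifferentiableAt.fun_sum this

section
variable {m J : ℕ} {σ a b : ℝ}

theorem norm_term_le (hg : Good f g A B A₀ K c) (h : Par A₀ m σ a b) (j : ℕ) (z : E2) (hz : ‖z‖ ≤ 1) :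
    ‖term f g A m J σ a j z‖ ≤ ‖kk (1 / (m : ℝ) ^ 6) (xx f g (node J j) z)‖ * (2 * σ) := by
  rw [term, norm_mul]
  gcongr
  exact GG_bound hg h _ (LL_le hg m _) (le_LL hg m _) (norm_coef h _) z hz

/-- Conditions on the number of nodes. -/
structure Nod (A₀ K c : ℝ) (m J : ℕ) : Prop where
  J_pos : 0 < J
  J_le : (J : ℝ) ≤ A₀ * (m : ℝ) ^ 6
  le_J : A₀ * (m : ℝ) ^ 6 ≤ 40 * J
  sep : 120 * (1 / (m : ℝ) ^ 6) ≤ A₀ * (2 * Real.pi / J)
  far : J * (24 * K * (1 / (m : ℝ) ^ 6) / (c * A₀)) ^ 8 ≤ 1 / 10 ^ 8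

theorem sum_small (hg : Good f g A B A₀ K c) (hp : IsPoly f g) (h : Par A₀ m σ a b) (hN : Nod A₀ K c m J)
    (z : E2) (hz : ‖z‖ ≤ 1) :
    ∃ j₀ ∈ Finset.range J, ∑ i ∈ (Finset.range J).erase j₀, ‖kk (1 / (m : ℝ) ^ 6) (xx f g (node J i) z)‖ ≤
      13 / 10 ^ 8 := by
  have hM : (1 : ℝ) ≤ m := by exact_mod_cast h.m_pos
  obtain ⟨j₀, hj₀, hs⟩ := sum_kk hg hp hN.J_pos (δ := 1 / (m : ℝ) ^ 6) (R := 120) (by positivity)
    (by norm_num) hN.sep z hz
  refine ⟨j₀, hj₀, hs.trans ?_⟩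
  have := hN.far
  norm_num at this ⊢
  linarith

theorem sum_all (hg : Good f g A B A₀ K c) (hp : IsPoly f g) (h : Par A₀ m σ a b) (hN : Nod A₀ K c m J)
    (z : E2) (hz : ‖z‖ ≤ 1) :
    ∑ i ∈ Finset.range J, ‖kk (1 / (m : ℝ) ^ 6) (xx f g (node J i) z)‖ ≤ 11 / 10 := by
  have hM : (1 : ℝ) ≤ m := by exact_mod_cast h.m_pos
  obtain ⟨j₀, hj₀, hs⟩ := sum_small hg hp h hN z hz
  rw [← Finset.add_sum_erase _ _ hj₀]
  have h1 := norm_kk_le_one (δ := 1 / (m : ℝ) ^ 6) (by positivity) ((norm_xx_le hg.unit (node J j₀) z).trans hz)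
  norm_num at hs ⊢
  norm_num at h1
  linarith

theorem norm_pp_le_sum (h : Par A₀ m σ a b) (z : E2) :
    ‖pp f g A m J σ a z‖ ≤ 1 / (5 * σ) * ∑ j ∈ Finset.range J, ‖term f g A m J σ a j z‖ := by
  have := h.σ_pos
  rw [pp, norm_mul, norm_ofReal_nonneg (by positivity)]
  gcongr
  exact norm_sum_le _ _

theorem pp_le_half (hg : Good f g A B A₀ K c) (hp : IsPoly f g) (h : Par A₀ m σ a b) (hN : Nod A₀ K c m J)
    (z : E2) (hz : ‖z‖ ≤ 1) : ‖pp f g A m J σ a z‖ ≤ 1 / 2 := by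
  have hσ := h.σ_pos
  refine (norm_pp_le_sum h z).trans ?_
  have h1 : ∑ j ∈ Finset.range J, ‖term f g A m J σ a j z‖ ≤ 11 / 10 * (2 * σ) := by
    refine (Finset.sum_le_sum fun j _ => norm_term_le hg h j z hz).trans ?_
    rw [← Finset.sum_mul]
    gcongr
    exact sum_all hg hp h hN z hz
  calc 1 / (5 * σ) * _ ≤ 1 / (5 * σ) * (11 / 10 * (2 * σ)) := by gcongr
    _ = 11 / 25 := by field_simp; norm_num
    _ ≤ 1 / 2 := by norm_num

theorem pp_far (hg : Good f g A B A₀ K c) (h : Par A₀ m σ a b) (hN : Nod A₀ K c m J)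
    (z : E2) (hz : ‖z‖ ≤ 1) {d : ℝ} (hd : 0 < d) (hzd : ∀ j, d ≤ ‖1 - xx f g (node J j) z‖) :
    ‖pp f g A m J σ a z‖ ≤ (A₀ / d ^ 8) / m := by
  have hσ := h.σ_pos
  have hM : (1 : ℝ) ≤ m := by exact_mod_cast h.m_pos
  have hM0 : (0 : ℝ) < m := by linarith
  have hA₀ := hg.A₀_ge
  refine (norm_pp_le_sum h z).trans ?_
  have h1 : ∑ j ∈ Finset.range J, ‖term f g A m J σ a j z‖ ≤ J * ((1 / (m : ℝ) ^ 6 / d) ^ 8 * (2 * σ)) := by
    have : ∀ j ∈ Finset.range J, ‖term f g A m J σ a j z‖ ≤ (1 / (m : ℝ) ^ 6 / d) ^ 8 * (2 * σ) := by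
      intro j _
      refine (norm_term_le hg h j z hz).trans ?_
      gcongr
      exact norm_kk_le (by positivity) ((norm_xx_le hg.unit _ z).trans hz) hd (hzd j)
    refine (Finset.sum_le_sum this).trans ?_
    rw [Finset.sum_const, nsmul_eq_mul, Finset.card_range]
  calc 1 / (5 * σ) * _ ≤ 1 / (5 * σ) * (J * ((1 / (m : ℝ) ^ 6 / d) ^ 8 * (2 * σ))) := by gcongr
    _ = (2 / 5) * J * (1 / (m : ℝ) ^ 6 / d) ^ 8 := by field_simp
    _ ≤ 1 * (A₀ * (m : ℝ) ^ 6) * (1 / (m : ℝ) ^ 6 / d) ^ 8 := by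
      have := hN.J_le
      gcongr
      norm_num
    _ = (A₀ / d ^ 8) * (1 / (m : ℝ) ^ 42) := by field_simp
    _ ≤ (A₀ / d ^ 8) * (1 / m) := by
      gcongr
      calc (m : ℝ) = (m : ℝ) ^ 1 := (pow_one _).symm
        _ ≤ (m : ℝ) ^ 42 := pow_le_pow_right₀ hM (by norm_num)
    _ = _ := by ring

/-- Every angle is close to a node up to a multiple of `2π`. -/
theorem reduce_angle (θ θ₀ : ℝ) : ∃ (k : ℤ) (t : ℝ), |t| ≤ Real.pi ∧ θ = (θ₀ + t) + k * (2 * Real.pi) := by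
  have hpi := Real.pi_pos
  refine ⟨round ((θ - θ₀) / (2 * Real.pi)), θ - θ₀ - round ((θ - θ₀) / (2 * Real.pi)) * (2 * Real.pi), ?_, by ring⟩
  have h1 := abs_sub_round ((θ - θ₀) / (2 * Real.pi))
  have h2 : θ - θ₀ - round ((θ - θ₀) / (2 * Real.pi)) * (2 * Real.pi) =
      ((θ - θ₀) / (2 * Real.pi) - round ((θ - θ₀) / (2 * Real.pi))) * (2 * Real.pi) := by
    field_simp
  rw [h2, abs_mul, abs_of_pos (by positivity : (0 : ℝ) < 2 * Real.pi)]
  nlinarith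

theorem norm_new_pt (hg : Good f g A B A₀ K c) (h : Par A₀ m σ a b) (θ : ℝ) :
    ‖pt (newf a b (m ^ 8) f g θ) (newg a b (m ^ 8) f g θ)‖ = 1 :=
  norm_pt_one (fun θ => unit_new h.ab (m ^ 8) hg.unit θ) θ

/-- lower bound for `1 - x` along the new curve -/
theorem one_sub_x_ge (hg : Good f g A B A₀ K c) (h : Par A₀ m σ a b) (θ t : ℝ) (ht : |t| ≤ Real.pi)
    (ht2 : 1 / (m : ℝ) ^ 5 ≤ |t|) (hb : 20 * K * b ≤ c) (hm : A₀ ≤ c * (m : ℝ) ^ 3) :
    c / 2 * (1 / (m : ℝ) ^ 5) ≤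
      ‖1 - xx f g θ (pt (newf a b (m ^ 8) f g (θ + t)) (newg a b (m ^ 8) f g (θ + t)))‖ := by
  have hK := hg.K_ge
  have hc := hg.c_pos
  have hM : (1 : ℝ) ≤ m := by exact_mod_cast h.m_pos
  have hM0 : (0 : ℝ) < m := by linarith
  rw [xx_new]
  have hlow := hg.low θ t ht
  have hE : ‖EE f g θ t‖ ≤ 5 * K * |t| := by
    refine (hg.normE θ t).trans ?_
    have : t ^ 2 = |t| * |t| := by rw [← sq, sq_abs]
    rw [this]
    have hpi := Real.pi_lt_d2
    have : |t| ≤ 4 := by linarith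
    have : |t| * |t| ≤ |t| * 4 := by gcongr
    nlinarith [abs_nonneg t]
  have hD1 : ‖DD f g θ t‖ ≤ 1 := by
    have hu1 := hg.unit θ
    have hu2 := hg.unit (θ + t)
    simp only [DD]
    refine (norm_add_le _ _).trans ?_
    rw [norm_mul, norm_mul, norm_star, norm_star]
    nlinarith [sq_nonneg (‖f (θ + t)‖ - ‖f θ‖), sq_nonneg (‖g (θ + t)‖ - ‖g θ‖)]
  have e : 1 - ((a : ℂ) * DD f g θ t - b * (uu (m ^ 8) (θ + t) * star (EE f g θ t))) =
      (1 - DD f g θ t) + (((1 - a : ℝ) : ℂ) * DD f g θ t + b * (uu (m ^ 8) (θ + t) * star (EE f g θ t))) := by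
    push_cast; ring
  rw [e]
  have hb0 := h.b_pos
  have n1 : ‖((1 - a : ℝ) : ℂ) * DD f g θ t‖ ≤ b ^ 2 := by
    rw [norm_mul, norm_ofReal_nonneg (by linarith [h.a_le])]
    calc (1 - a) * ‖DD f g θ t‖ ≤ b ^ 2 * 1 := by
          gcongr
          exact h.one_sub_a
      _ = _ := by ring
  have n2 : ‖(b : ℂ) * (uu (m ^ 8) (θ + t) * star (EE f g θ t))‖ ≤ c / 4 * |t| := by
    rw [norm_mul, norm_ofReal_nonneg hb0.le, norm_mul, norm_uu, one_mul, norm_star]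
    calc b * ‖EE f g θ t‖ ≤ b * (5 * K * |t|) := by gcongr
      _ = (20 * K * b) / 4 * |t| := by ring
      _ ≤ c / 4 * |t| := by gcongr
  have n3 : b ^ 2 ≤ c / 4 * |t| := by
    have h1 := h.bN
    push_cast at h1
    have h2 : b ^ 2 ≤ c / 4 * (1 / (m : ℝ) ^ 5) := by
      rw [mul_one_div, le_div_iff₀ (by positivity)]
      have h3 : b ^ 2 * (m : ℝ) ^ 5 * (m : ℝ) ^ 3 ≤ c / 4 * (m : ℝ) ^ 3 := by
        calc b ^ 2 * (m : ℝ) ^ 5 * (m : ℝ) ^ 3 = b ^ 2 * (m : ℝ) ^ 8 := by ring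
          _ = A₀ / 4 := h1
          _ ≤ c * (m : ℝ) ^ 3 / 4 := by linarith
          _ = _ := by ring
      exact le_of_mul_le_mul_right h3 (by positivity)
    refine h2.trans ?_
    gcongr
  have n4 := norm_add_le (((1 - a : ℝ) : ℂ) * DD f g θ t) (b * (uu (m ^ 8) (θ + t) * star (EE f g θ t)))
  have n5 := norm_sub_le ((1 - DD f g θ t) + (((1 - a : ℝ) : ℂ) * DD f g θ t +
    b * (uu (m ^ 8) (θ + t) * star (EE f g θ t)))) (((1 - a : ℝ) : ℂ) * DD f g θ t +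
    b * (uu (m ^ 8) (θ + t) * star (EE f g θ t)))
  rw [add_sub_cancel_right] at n5
  have n6 : c / 2 * (1 / (m : ℝ) ^ 5) ≤ c / 2 * |t| := by gcongr
  linarith

/-- The bump is small along the new curve. -/
theorem pp_curve (hg : Good f g A B A₀ K c) (hp : IsPoly f g) (h : Par A₀ m σ a b) (hN : Nod A₀ K c m J)
    (hp' : IsPoly (newf a b (m ^ 8) f g) (newg a b (m ^ 8) f g))
    (hb : 20 * K * b ≤ c) (hm : A₀ ≤ c * (m : ℝ) ^ 3) (θ : ℝ) :
    ‖pp f g A m J σ a (pt (newf a b (m ^ 8) f g θ) (newg a b (m ^ 8) f g θ))‖ ≤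
      (24 * A₀ ^ 3 * K + A₀ * (2 / c) ^ 8) / m := by
  have hσ := h.σ_pos
  have hc := hg.c_pos
  have hK := hg.K_ge
  have hM : (1 : ℝ) ≤ m := by exact_mod_cast h.m_pos
  have hM0 : (0 : ℝ) < m := by linarith
  have hA₀ := hg.A₀_ge
  obtain ⟨hσ1, hσA⟩ := h.σ_le hA₀
  set z := pt (newf a b (m ^ 8) f g θ) (newg a b (m ^ 8) f g θ) with hz
  have hz1 : ‖z‖ ≤ 1 := (norm_new_pt hg h θ).le
  refine (norm_pp_le_sum h z).trans ?_
  have hterm : ∀ j ∈ Finset.range J, ‖term f g A m J σ a j z‖ ≤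
      ‖kk (1 / (m : ℝ) ^ 6) (xx f g (node J j) z)‖ * (24 * A₀ ^ 3 * K / m) +
        (2 / (c * m)) ^ 8 * (2 * σ) := by
    intro j _
    obtain ⟨k, t, ht, hθ⟩ := reduce_angle θ (node J j)
    have hper := hp'.periodic (node J j + t) k
    rw [← hθ] at hper
    have hzt : z = pt (newf a b (m ^ 8) f g (node J j + t)) (newg a b (m ^ 8) f g (node J j + t)) := by
      rw [hz, hper.1, hper.2]
    have hx1 : ‖xx f g (node J j) z‖ ≤ 1 := (norm_xx_le hg.unit _ z).trans hz1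
    have q1 : 0 ≤ (2 / (c * m)) ^ 8 * (2 * σ) := by positivity
    have q2 : 0 ≤ ‖kk (1 / (m : ℝ) ^ 6) (xx f g (node J j) z)‖ * (24 * A₀ ^ 3 * K / m) := by positivity
    rcases le_total |t| (1 / (m : ℝ) ^ 5) with h1 | h1
    · have h2 := cancel hg h (node J j) t (LL_le hg m _) (le_LL hg m _) h1 (by rw [← hzt]; exact hx1)
      rw [← hzt] at h2
      have h3 : ‖term f g A m J σ a j z‖ ≤
          ‖kk (1 / (m : ℝ) ^ 6) (xx f g (node J j) z)‖ * (24 * A₀ ^ 3 * K / m) := by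
        rw [term, norm_mul]
        gcongr
      linarith
    · have h2 := one_sub_x_ge hg h (node J j) t ht h1 hb hm
      rw [← hzt] at h2
      have h3 := norm_kk_le (δ := 1 / (m : ℝ) ^ 6) (by positivity) hx1 (by positivity) h2
      have h4 : 1 / (m : ℝ) ^ 6 / (c / 2 * (1 / (m : ℝ) ^ 5)) = 2 / (c * m) := by
        field_simp
      rw [h4] at h3
      have h5 := norm_term_le (J := J) hg h j z hz1
      have h6 : ‖kk (1 / (m : ℝ) ^ 6) (xx f g (node J j) z)‖ * (2 * σ) ≤ (2 / (c * m)) ^ 8 * (2 * σ) := by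
        gcongr
      linarith
  have hsum := Finset.sum_le_sum hterm
  rw [Finset.sum_add_distrib, ← Finset.sum_mul, Finset.sum_const, nsmul_eq_mul, Finset.card_range] at hsum
  have hall := sum_all hg hp h hN z hz1
  have hJ := hN.J_le
  calc 1 / (5 * σ) * _ ≤ 1 / (5 * σ) * ((11 / 10) * (24 * A₀ ^ 3 * K / m) +
        (A₀ * (m : ℝ) ^ 6) * ((2 / (c * m)) ^ 8 * (2 * σ))) := by
        gcongr
        refine hsum.trans ?_
        gcongr
    _ = (1 / (5 * σ) * (11 / 10)) * (24 * A₀ ^ 3 * K / m) + (2 / 5) * (A₀ * (2 / c) ^ 8) * (1 / (m : ℝ) ^ 2) := by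
        field_simp
    _ ≤ 1 * (24 * A₀ ^ 3 * K / m) + 1 * (A₀ * (2 / c) ^ 8) * (1 / m) := by
        gcongr
        · rw [div_mul_div_comm, div_le_one (by positivity)]
          linarith
        · norm_num
        · nlinarith
    _ = _ := by ring

end

end Pool.Agent.Helper18_Henkin
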