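import Pool.Agent.Helper18_Henkin.Bracket

set_option autoImplicit false

open Complex

namespace Pool.Agent.Helper18_Henkin

variable {f g : ℝ → ℂ} {A : ℝ → ℝ} {B : ℝ → ℂ} {A₀ K c : ℝ}

theorem norm_ofReal_nonneg {r : ℝ} (hr : 0 ≤ r) : ‖(r : ℂ)‖ = r := by
  rw [Complex.norm_real, Real.norm_eq_abs, abs_of_nonneg hr]

/-- distance from the new point to the model point -/
theorem x_close (hg : Good f g A B A₀ K c) {m : ℕ} {σ a b : ℝ} (h : Par A₀ m σ a b) (θ t : ℝ)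
    (ht1 : |t| ≤ 1) (N : ℕ) :
    ‖xx f g θ (pt (newf a b N f g (θ + t)) (newg a b N f g (θ + t))) -
      a * Complex.exp (((A θ * t : ℝ) : ℂ) * I)‖ ≤ (K + 4 * A₀ ^ 2) * t ^ 2 + b * (2 * K * |t|) := by
  have hK := hg.K_ge
  have hA₀ := hg.A₀_ge
  have hA1 := hg.A_le θ
  have hA2 := hg.le_A θ
  rw [xx_new]
  have e : (a : ℂ) * DD f g θ t - b * (uu N (θ + t) * star (EE f g θ t)) -
      a * Complex.exp (((A θ * t : ℝ) : ℂ) * I) =
      a * ((DD f g θ t - 1 - I * (A θ) * t) -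
        (Complex.exp (((A θ * t : ℝ) : ℂ) * I) - 1 - ((A θ * t : ℝ) : ℂ) * I)) -
        b * (uu N (θ + t) * star (EE f g θ t)) := by
    push_cast
    ring
  rw [e]
  have n1 := hg.hD θ t
  have n2 := norm_exp_sub_one_sub_le (A θ * t)
  have n3 := hg.normE θ t
  have ht2 : t ^ 2 ≤ |t| := by
    have : t ^ 2 = |t| * |t| := by rw [← sq, sq_abs]
    rw [this]
    have := abs_nonneg t
    nlinarith
  have n4 : ‖EE f g θ t‖ ≤ 2 * K * |t| := by nlinarith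
  have hb := h.b_pos
  refine (norm_sub_le _ _).trans (add_le_add ?_ ?_)
  · rw [norm_mul, norm_ofReal_nonneg h.a_nonneg]
    have hA3 : A θ ^ 2 ≤ 25 / 16 * A₀ ^ 2 := by nlinarith
    calc a * _ ≤ 1 * _ := mul_le_mul_of_nonneg_right h.a_le (norm_nonneg _)
      _ = _ := one_mul _
      _ ≤ ‖DD f g θ t - 1 - I * (A θ) * t‖ +
        ‖Complex.exp (((A θ * t : ℝ) : ℂ) * I) - 1 - ((A θ * t : ℝ) : ℂ) * I‖ := norm_sub_le _ _
      _ ≤ K * t ^ 2 + 2 * (A θ * t) ^ 2 := add_le_add n1 n2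
      _ ≤ _ := by
        have : 2 * (A θ * t) ^ 2 = 2 * A θ ^ 2 * t ^ 2 := by ring
        rw [this]
        nlinarith [sq_nonneg t, sq_nonneg A₀]
  · rw [norm_mul, norm_ofReal_nonneg hb.le, norm_mul, norm_uu, one_mul, norm_star]
    gcongr

section
variable {m L : ℕ} {σ a b : ℝ}

theorem xL_close (hg : Good f g A B A₀ K c) (h : Par A₀ m σ a b) (θ t : ℝ)
    (hL : L * A θ ≤ (m : ℝ) ^ 8) (hL2 : (m : ℝ) ^ 8 ≤ (L + 1) * A θ) (ht : |t| ≤ 1 / (m : ℝ) ^ 5)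
    (hx1 : ‖xx f g θ (pt (newf a b (m ^ 8) f g (θ + t)) (newg a b (m ^ 8) f g (θ + t)))‖ ≤ 1) :
    ‖xx f g θ (pt (newf a b (m ^ 8) f g (θ + t)) (newg a b (m ^ 8) f g (θ + t))) ^ L -
      a ^ L * uu (m ^ 8) t‖ ≤ 10 * A₀ ^ 2 * K / m := by
  have hK := hg.K_ge
  have hA₀ := hg.A₀_ge
  have hA1 := hg.A_le θ
  have hA2 := hg.le_A θ
  have hM : (1 : ℝ) ≤ m := by exact_mod_cast h.m_pos
  have hM0 : (0 : ℝ) < m := by linarith
  obtain ⟨hσ1, hσA⟩ := h.σ_le hA₀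
  have ht1 : |t| ≤ 1 := ht.trans (by
    rw [div_le_one (by positivity)]
    exact one_le_pow₀ hM)
  have hclose := x_close hg h θ t ht1 (m ^ 8)
  set x := xx f g θ (pt (newf a b (m ^ 8) f g (θ + t)) (newg a b (m ^ 8) f g (θ + t))) with hx
  set v : ℂ := a * Complex.exp (((A θ * t : ℝ) : ℂ) * I) with hv
  have hv1 : ‖v‖ ≤ 1 := by
    rw [hv, norm_mul, Complex.norm_exp_ofReal_mul_I, mul_one, norm_ofReal_nonneg h.a_nonneg]
    exact h.a_le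
  have hpow := norm_pow_sub_le x v hx1 hv1 L
  -- bound on L
  have hL3 : (L : ℝ) ≤ 4 / 3 * (m : ℝ) ^ 8 := by
    have h1 : (L : ℝ) * (3 / 4 * A₀) ≤ L * A θ := by gcongr
    have h2 : (L : ℝ) * (3 / 4 * 1) ≤ (L : ℝ) * (3 / 4 * A₀) := by gcongr
    linarith
  have ht0 := abs_nonneg t
  have ht2 : t ^ 2 = |t| * |t| := by rw [← sq, sq_abs]
  have hm8t2 : (m : ℝ) ^ 8 * t ^ 2 ≤ 1 / m := by
    rw [ht2]
    calc (m : ℝ) ^ 8 * (|t| * |t|) ≤ (m : ℝ) ^ 8 * ((1 / (m : ℝ) ^ 5) * (1 / (m : ℝ) ^ 5)) := by gcongr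
      _ = 1 / (m : ℝ) ^ 2 := by field_simp
      _ ≤ 1 / m := by
        apply one_div_le_one_div_of_le hM0
        nlinarith
  have hm8bt : (m : ℝ) ^ 8 * (b * |t|) ≤ σ / 2 / m := by
    have : (m : ℝ) ^ 8 * (b * |t|) = ((m : ℝ) ^ 4 * b) * ((m : ℝ) ^ 4 * |t|) := by ring
    rw [this, h.m4b]
    calc σ / 2 * ((m : ℝ) ^ 4 * |t|) ≤ σ / 2 * ((m : ℝ) ^ 4 * (1 / (m : ℝ) ^ 5)) := by gcongr
      _ = σ / 2 / m := by field_simp
  have hb := h.b_pos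
  have h3 : (L : ℝ) * ‖x - v‖ ≤ 8 * A₀ ^ 2 * K / m := by
    calc (L : ℝ) * ‖x - v‖ ≤ (4 / 3 * (m : ℝ) ^ 8) * ((K + 4 * A₀ ^ 2) * t ^ 2 + b * (2 * K * |t|)) := by
          gcongr
      _ = 4 / 3 * ((K + 4 * A₀ ^ 2) * ((m : ℝ) ^ 8 * t ^ 2) + 2 * K * ((m : ℝ) ^ 8 * (b * |t|))) := by ring
      _ ≤ 4 / 3 * ((K + 4 * A₀ ^ 2) * (1 / m) + 2 * K * (σ / 2 / m)) := by gcongr
      _ = (4 / 3 * (K + 4 * A₀ ^ 2 + K * σ)) / m := by field_simp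
      _ ≤ _ := by
        apply div_le_div_of_nonneg_right _ hM0.le
        have q1 : K ≤ A₀ ^ 2 * K := by
          apply le_mul_of_one_le_left (by linarith)
          nlinarith
        have q2 : A₀ ^ 2 ≤ A₀ ^ 2 * K := le_mul_of_one_le_right (by positivity) hK
        have q3 : K * σ ≤ A₀ ^ 2 * K := by
          have : σ ≤ A₀ ^ 2 := by nlinarith
          nlinarith
        linarith
  -- the phases
  have hvL : v ^ L = a ^ L * Complex.exp (((L * (A θ * t) : ℝ) : ℂ) * I) := by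
    rw [hv, mul_pow, ← Complex.exp_nat_mul]
    congr 2
    push_cast
    ring
  have hphase : ‖Complex.exp (((L * (A θ * t) : ℝ) : ℂ) * I) - uu (m ^ 8) t‖ ≤ 2 * A₀ ^ 2 * K / m := by
    have e1 : Complex.exp (((L * (A θ * t) : ℝ) : ℂ) * I) - uu (m ^ 8) t =
        uu (m ^ 8) t * (Complex.exp ((((L * A θ - (m : ℝ) ^ 8) * t : ℝ) : ℂ) * I) - 1) := by
      rw [mul_sub, uu, ← Complex.exp_add, mul_one]
      congr 2
      push_cast
      ring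
    rw [e1, norm_mul, norm_uu, one_mul]
    refine (norm_exp_sub_one_le _).trans ?_
    rw [abs_mul]
    have h4 : |(L : ℝ) * A θ - (m : ℝ) ^ 8| ≤ 5 / 4 * A₀ := by
      rw [abs_le]; constructor <;> linarith
    calc |(L : ℝ) * A θ - (m : ℝ) ^ 8| * |t| ≤ (5 / 4 * A₀) * (1 / (m : ℝ) ^ 5) := by gcongr
      _ ≤ (5 / 4 * A₀) * (1 / m) := by
        gcongr
        calc (m : ℝ) = (m : ℝ) ^ 1 := (pow_one _).symm
          _ ≤ (m : ℝ) ^ 5 := pow_le_pow_right₀ hM (by norm_num)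
      _ = (5 / 4 * A₀) / m := by ring
      _ ≤ _ := by
        apply div_le_div_of_nonneg_right _ hM0.le
        have : A₀ ≤ A₀ ^ 2 * K := by
          have : A₀ ≤ A₀ ^ 2 := by nlinarith
          nlinarith
        linarith
  have e2 : x ^ L - a ^ L * uu (m ^ 8) t = (x ^ L - v ^ L) +
      a ^ L * (Complex.exp (((L * (A θ * t) : ℝ) : ℂ) * I) - uu (m ^ 8) t) := by
    rw [hvL]; ring
  rw [e2]
  refine (norm_add_le _ _).trans ?_
  rw [norm_mul, norm_pow, norm_ofReal_nonneg h.a_nonneg]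
  have h5 : a ^ L ≤ 1 := pow_le_one₀ h.a_nonneg h.a_le
  have h6 : a ^ L * ‖Complex.exp (((L * (A θ * t) : ℝ) : ℂ) * I) - uu (m ^ 8) t‖ ≤ 2 * A₀ ^ 2 * K / m := by
    calc _ ≤ 1 * ‖Complex.exp (((L * (A θ * t) : ℝ) : ℂ) * I) - uu (m ^ 8) t‖ := by gcongr
      _ ≤ _ := by rw [one_mul]; exact hphase
  calc _ ≤ 8 * A₀ ^ 2 * K / m + 2 * A₀ ^ 2 * K / m := add_le_add (hpow.trans h3) h6
    _ = _ := by ring

theorem y_close (hg : Good f g A B A₀ K c) (h : Par A₀ m σ a b) (θ t : ℝ)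
    (ht : |t| ≤ 1 / (m : ℝ) ^ 5) :
    ‖(m : ℂ) ^ 4 * yy f g θ (pt (newf a b (m ^ 8) f g (θ + t)) (newg a b (m ^ 8) f g (θ + t))) -
      (σ / 2 : ℝ) * uu (m ^ 8) (θ + t)‖ ≤ 4 * A₀ ^ 2 * K / m := by
  have hK := hg.K_ge
  have hA₀ := hg.A₀_ge
  have hM : (1 : ℝ) ≤ m := by exact_mod_cast h.m_pos
  have hM0 : (0 : ℝ) < m := by linarith
  obtain ⟨hσ1, hσA⟩ := h.σ_le hA₀
  have hm5 : 1 / (m : ℝ) ^ 5 ≤ 1 / m := by
    apply one_div_le_one_div_of_le hM0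
    calc (m : ℝ) = (m : ℝ) ^ 1 := (pow_one _).symm
      _ ≤ (m : ℝ) ^ 5 := pow_le_pow_right₀ hM (by norm_num)
  have htm : |t| ≤ 1 / m := ht.trans hm5
  have ht1 : |t| ≤ 1 := htm.trans (by rw [div_le_one hM0]; exact hM)
  have ht0 := abs_nonneg t
  have ht2 : t ^ 2 ≤ |t| := by
    have : t ^ 2 = |t| * |t| := by rw [← sq, sq_abs]
    rw [this]
    nlinarith
  have n3 := hg.normE θ t
  have n4 : ‖EE f g θ t‖ ≤ 2 * K * |t| := by nlinarith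
  have n5 := hg.normD θ t
  rw [yy_new]
  have h4b : ((m : ℂ) ^ 4) * b = ((σ / 2 : ℝ) : ℂ) := by exact_mod_cast congrArg (fun x : ℝ => (x : ℂ)) h.m4b
  have e : (m : ℂ) ^ 4 * (a * EE f g θ t + b * (uu (m ^ 8) (θ + t) * star (DD f g θ t))) -
      (σ / 2 : ℝ) * uu (m ^ 8) (θ + t) = (m : ℂ) ^ 4 * a * EE f g θ t -
        ((σ / 2 : ℝ) : ℂ) * (uu (m ^ 8) (θ + t) * star (1 - DD f g θ t)) := by
    simp only [star_sub, star_one]
    linear_combination (uu (m ^ 8) (θ + t) * star (DD f g θ t)) * h4b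
  rw [e]
  refine (norm_sub_le _ _).trans ?_
  rw [norm_mul, norm_mul, norm_pow, Complex.norm_natCast, norm_ofReal_nonneg h.a_nonneg, norm_mul,
    norm_ofReal_nonneg (by linarith : (0 : ℝ) ≤ σ / 2), norm_mul, norm_uu, one_mul, norm_star]
  have a1 := h.a_le
  have a0 := h.a_nonneg
  have q1 : (m : ℝ) ^ 4 * a * ‖EE f g θ t‖ ≤ 2 * K / m := by
    calc (m : ℝ) ^ 4 * a * ‖EE f g θ t‖ ≤ (m : ℝ) ^ 4 * 1 * (2 * K * |t|) := by gcongr
      _ ≤ (m : ℝ) ^ 4 * 1 * (2 * K * (1 / (m : ℝ) ^ 5)) := by gcongr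
      _ = 2 * K / m := by field_simp
  have q2 : σ / 2 * ‖1 - DD f g θ t‖ ≤ (A₀ / 2 * (5 / 4 * A₀ + K)) / m := by
    calc σ / 2 * ‖1 - DD f g θ t‖ ≤ A₀ / 2 * (5 / 4 * A₀ * |t| + K * |t|) := by
          gcongr
          exact n5.trans (by nlinarith)
      _ = (A₀ / 2 * (5 / 4 * A₀ + K)) * |t| := by ring
      _ ≤ (A₀ / 2 * (5 / 4 * A₀ + K)) * (1 / m) := by gcongr
      _ = _ := by ring
  refine (add_le_add q1 q2).trans ?_
  rw [← add_div]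
  gcongr
  have r1 : K ≤ A₀ ^ 2 * K := by
    apply le_mul_of_one_le_left (by linarith)
    nlinarith
  have r2 : A₀ ^ 2 ≤ A₀ ^ 2 * K := le_mul_of_one_le_right (by positivity) hK
  have r3 : A₀ * K ≤ A₀ ^ 2 * K := by
    have : A₀ ≤ A₀ ^ 2 := by nlinarith
    gcongr
  nlinarith

/-- The coefficient of the second term of the bracket. -/
noncomputable def coef (m L : ℕ) (σ a θ : ℝ) : ℂ := ((σ / 2 * (a ^ L)⁻¹ : ℝ) : ℂ) * uu (m ^ 8) θ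

theorem norm_coef (h : Par A₀ m σ a b) (θ : ℝ) : ‖coef m L σ a θ‖ = σ / 2 * (a ^ L)⁻¹ := by
  have := h.σ_pos
  have := h.a_nonneg
  rw [coef, norm_mul, norm_uu, mul_one, norm_ofReal_nonneg (by positivity)]

/-- The bracket almost vanishes along the new curve. -/
theorem cancel (hg : Good f g A B A₀ K c) (h : Par A₀ m σ a b) (θ t : ℝ)
    (hL : L * A θ ≤ (m : ℝ) ^ 8) (hL2 : (m : ℝ) ^ 8 ≤ (L + 1) * A θ) (ht : |t| ≤ 1 / (m : ℝ) ^ 5)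
    (hx1 : ‖xx f g θ (pt (newf a b (m ^ 8) f g (θ + t)) (newg a b (m ^ 8) f g (θ + t)))‖ ≤ 1) :
    ‖GG f g θ m L (coef m L σ a θ) (pt (newf a b (m ^ 8) f g (θ + t)) (newg a b (m ^ 8) f g (θ + t)))‖ ≤
      24 * A₀ ^ 3 * K / m := by
  have hK := hg.K_ge
  have hA₀ := hg.A₀_ge
  have hM : (1 : ℝ) ≤ m := by exact_mod_cast h.m_pos
  have hM0 : (0 : ℝ) < m := by linarith
  obtain ⟨hσ1, hσA⟩ := h.σ_le hA₀
  have hxL := xL_close hg h θ t hL hL2 ht hx1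
  have hy := y_close hg h θ t ht
  have haL := aL_ge h (hg.le_A θ) hA₀ hL
  have ha1 : a ^ L ≤ 1 := pow_le_one₀ h.a_nonneg h.a_le
  have hcoef := norm_coef (L := L) h θ
  rw [GG]
  set z := pt (newf a b (m ^ 8) f g (θ + t)) (newg a b (m ^ 8) f g (θ + t)) with hz
  set X := xx f g θ z ^ L with hX
  set Y := (m : ℂ) ^ 4 * yy f g θ z with hY
  set X₀ : ℂ := a ^ L * uu (m ^ 8) t with hX₀
  set Y₀ : ℂ := (σ / 2 : ℝ) * uu (m ^ 8) (θ + t) with hY₀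
  set cc := coef m L σ a θ with hcc
  have hkey : Y₀ * X₀ = cc * X₀ ^ 2 := by
    rw [hY₀, hX₀, hcc, coef, uu_add]
    have h1 : ((a : ℂ) ^ L) ≠ 0 := by
      have : (a ^ L : ℝ) ≠ 0 := by linarith
      exact_mod_cast this
    push_cast
    field_simp
  have e : Y * X - cc * xx f g θ z ^ (2 * L) = (Y - Y₀) * X + Y₀ * (X - X₀) - cc * ((X - X₀) * (X + X₀)) := by
    have : xx f g θ z ^ (2 * L) = X ^ 2 := by rw [hX, ← pow_mul, mul_comm]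
    rw [this]
    linear_combination hkey
  rw [e]
  have nX : ‖X‖ ≤ 1 := by rw [hX, norm_pow]; exact pow_le_one₀ (norm_nonneg _) hx1
  have nX₀ : ‖X₀‖ ≤ 1 := by
    rw [hX₀, norm_mul, norm_uu, mul_one, norm_pow, norm_ofReal_nonneg h.a_nonneg]
    exact ha1
  have nY₀ : ‖Y₀‖ = σ / 2 := by
    rw [hY₀, norm_mul, norm_uu, mul_one, norm_ofReal_nonneg (by linarith)]
  have ncc : ‖cc‖ ≤ 3 / 4 * A₀ := by
    rw [hcoef]
    have h5 : (a ^ L)⁻¹ ≤ 3 / 2 := by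
      rw [inv_le_comm₀ (by linarith) (by norm_num)]
      norm_num
      exact haL
    calc σ / 2 * (a ^ L)⁻¹ ≤ A₀ / 2 * (3 / 2) := by gcongr
      _ = _ := by ring
  set ex := 10 * A₀ ^ 2 * K / m with hex
  set ey := 4 * A₀ ^ 2 * K / m with hey
  have hex0 : 0 ≤ ex := by positivity
  have hey0 : 0 ≤ ey := by positivity
  have p1 : ‖(Y - Y₀) * X‖ ≤ ey * 1 := by rw [norm_mul]; gcongr
  have p2 : ‖Y₀ * (X - X₀)‖ ≤ (A₀ / 2) * ex := by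
    rw [norm_mul, nY₀]; gcongr
  have p3 : ‖cc * ((X - X₀) * (X + X₀))‖ ≤ (3 / 4 * A₀) * (ex * 2) := by
    rw [norm_mul, norm_mul]
    have : ‖X + X₀‖ ≤ 2 := (norm_add_le _ _).trans (by linarith)
    gcongr
  calc _ ≤ ‖(Y - Y₀) * X + Y₀ * (X - X₀)‖ + ‖cc * ((X - X₀) * (X + X₀))‖ := norm_sub_le _ _
    _ ≤ (‖(Y - Y₀) * X‖ + ‖Y₀ * (X - X₀)‖) + ‖cc * ((X - X₀) * (X + X₀))‖ := by
        gcongr; exact norm_add_le _ _
    _ ≤ (ey * 1 + (A₀ / 2) * ex) + (3 / 4 * A₀) * (ex * 2) := add_le_add (add_le_add p1 p2) p3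
    _ = (4 * (A₀ ^ 2 * K) + 20 * (A₀ ^ 3 * K)) / m := by rw [hex, hey]; ring
    _ ≤ _ := by
      gcongr
      have : A₀ ^ 2 * K ≤ A₀ ^ 3 * K := by
        gcongr ?_ * K
        nlinarith [sq_nonneg A₀]
      linarith

end

end Pool.Agent.Helper18_Henkin
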