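import Mathlib

set_option autoImplicit false

open Complex

namespace Pool.Agent.Helper18_Henkin

/-- `D θ t = ⟨Φ(θ+t), Φ(θ)⟩` for the curve `Φ = (f, g)`. -/
noncomputable def DD (f g : ℝ → ℂ) (θ t : ℝ) : ℂ :=
  f (θ + t) * star (f θ) + g (θ + t) * star (g θ)

/-- `E θ t = ⟨Φ(θ+t), Φ^⊥(θ)⟩` for the curve `Φ = (f, g)`. -/
noncomputable def EE (f g : ℝ → ℂ) (θ t : ℝ) : ℂ :=
  g (θ + t) * f θ - f (θ + t) * g θ

/-- Quantitative regularity of a curve in the unit sphere of `ℂ²`. -/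
structure Good (f g : ℝ → ℂ) (A : ℝ → ℝ) (B : ℝ → ℂ) (A₀ K c : ℝ) : Prop where
  A₀_ge : 1 ≤ A₀
  K_ge : 1 ≤ K
  c_pos : 0 < c
  unit : ∀ θ, ‖f θ‖ ^ 2 + ‖g θ‖ ^ 2 = 1
  hA : ∀ θ, |A θ - A₀| ≤ A₀ / 4
  hB : ∀ θ, ‖B θ‖ ≤ K
  hD : ∀ θ t : ℝ, ‖DD f g θ t - 1 - I * (A θ) * t‖ ≤ K * t ^ 2
  hE : ∀ θ t : ℝ, ‖EE f g θ t - I * B θ * t‖ ≤ K * t ^ 2
  low : ∀ θ t : ℝ, |t| ≤ Real.pi → c * |t| ≤ ‖1 - DD f g θ t‖

/-- `e^{i N θ}`. -/
noncomputable def uu (N : ℕ) (θ : ℝ) : ℂ := Complex.exp (((N * θ : ℝ) : ℂ) * I)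

/-- First component of the updated curve. -/
noncomputable def newf (a b : ℝ) (N : ℕ) (f g : ℝ → ℂ) (θ : ℝ) : ℂ :=
  a * f θ - b * uu N θ * star (g θ)

/-- Second component of the updated curve. -/
noncomputable def newg (a b : ℝ) (N : ℕ) (f g : ℝ → ℂ) (θ : ℝ) : ℂ :=
  a * g θ + b * uu N θ * star (f θ)

theorem norm_uu (N : ℕ) (θ : ℝ) : ‖uu N θ‖ = 1 := Complex.norm_exp_ofReal_mul_I _

theorem uu_mul_star (N : ℕ) (θ : ℝ) : uu N θ * star (uu N θ) = 1 := by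
  have := Complex.mul_conj (uu N θ)
  rw [Complex.star_def, this, Complex.normSq_eq_norm_sq, norm_uu]
  simp

theorem uu_add (N : ℕ) (θ t : ℝ) : uu N (θ + t) = uu N θ * uu N t := by
  simp only [uu]
  rw [← Complex.exp_add]
  congr 1
  push_cast
  ring

theorem DD_new (a b : ℝ) (N : ℕ) (f g : ℝ → ℂ) (θ t : ℝ) :
    DD (newf a b N f g) (newg a b N f g) θ t =
      a ^ 2 * DD f g θ t + b ^ 2 * (uu N t * star (DD f g θ t)) +
        a * b * (star (uu N θ) * EE f g θ t - uu N θ * (uu N t * star (EE f g θ t))) := by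
  have h := uu_mul_star N θ
  simp only [DD, EE, newf, newg, uu_add, star_add, star_sub, star_mul',
    Complex.star_def, Complex.conj_ofReal, Complex.conj_conj] at h ⊢
  linear_combination (b ^ 2 * uu N t * ((starRingEnd ℂ) (g (θ + t)) * g θ + (starRingEnd ℂ) (f (θ + t)) * f θ)) * h

theorem EE_new (a b : ℝ) (N : ℕ) (f g : ℝ → ℂ) (θ t : ℝ) :
    EE (newf a b N f g) (newg a b N f g) θ t =
      a ^ 2 * EE f g θ t + a * b * (uu N θ * (uu N t * star (DD f g θ t) - DD f g θ t)) +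
        b ^ 2 * (uu N θ ^ 2 * (uu N t * star (EE f g θ t))) := by
  simp only [DD, EE, newf, newg, uu_add, star_add, star_sub, star_mul',
    Complex.star_def, Complex.conj_ofReal, Complex.conj_conj]
  ring

theorem DD_zero (f g : ℝ → ℂ) (θ : ℝ) : DD f g θ 0 = ((‖f θ‖ ^ 2 + ‖g θ‖ ^ 2 : ℝ) : ℂ) := by
  simp only [DD, add_zero, Complex.star_def]
  rw [Complex.mul_conj, Complex.mul_conj, Complex.normSq_eq_norm_sq, Complex.normSq_eq_norm_sq]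
  push_cast
  ring

theorem EE_zero (f g : ℝ → ℂ) (θ : ℝ) : EE f g θ 0 = 0 := by
  simp only [EE, add_zero]; ring

theorem unit_new {a b : ℝ} (hab : a ^ 2 + b ^ 2 = 1) (N : ℕ) {f g : ℝ → ℂ}
    (h : ∀ θ, ‖f θ‖ ^ 2 + ‖g θ‖ ^ 2 = 1) (θ : ℝ) :
    ‖newf a b N f g θ‖ ^ 2 + ‖newg a b N f g θ‖ ^ 2 = 1 := by
  have h1 := DD_zero (newf a b N f g) (newg a b N f g) θ
  rw [DD_new, DD_zero, EE_zero, h θ] at h1
  simp only [ofReal_one, star_one, mul_one, star_zero, mul_zero, sub_zero, add_zero] at h1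
  have h2 : uu N 0 = 1 := by simp [uu]
  rw [h2, mul_one] at h1
  have h3 : ((a ^ 2 + b ^ 2 : ℝ) : ℂ) = ((‖newf a b N f g θ‖ ^ 2 + ‖newg a b N f g θ‖ ^ 2 : ℝ) : ℂ) := by
    rw [← h1]; push_cast; ring
  rw [hab] at h3
  exact_mod_cast h3.symm

theorem norm_exp_sub_one_le (s : ℝ) : ‖Complex.exp ((s : ℂ) * I) - 1‖ ≤ |s| := by
  have := Real.norm_exp_I_mul_ofReal_sub_one_le (x := s)
  rw [mul_comm]
  simpa using this

theorem norm_exp_sub_one_sub_le (s : ℝ) : ‖Complex.exp ((s : ℂ) * I) - 1 - (s : ℂ) * I‖ ≤ 2 * s ^ 2 := by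
  rcases le_total |s| 1 with h | h
  · have h1 : ‖(s : ℂ) * I‖ ≤ 1 := by simpa using h
    have h2 := Complex.norm_exp_sub_one_sub_id_le h1
    have h3 : ‖(s : ℂ) * I‖ ^ 2 = s ^ 2 := by simp
    rw [h3] at h2
    nlinarith [sq_nonneg s]
  · calc ‖Complex.exp ((s : ℂ) * I) - 1 - (s : ℂ) * I‖ ≤ ‖Complex.exp ((s : ℂ) * I) - 1‖ + ‖(s : ℂ) * I‖ :=
          norm_sub_le _ _
      _ ≤ |s| + |s| := by
          apply add_le_add (norm_exp_sub_one_le s)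
          simp
      _ ≤ 2 * s ^ 2 := by
          rw [← sq_abs s]
          nlinarith

theorem norm_uu_sub_one (N : ℕ) (t : ℝ) : ‖uu N t - 1‖ ≤ N * |t| := by
  have := norm_exp_sub_one_le (N * t)
  rwa [abs_mul, Nat.abs_cast] at this

theorem norm_uu_sub_one_sub (N : ℕ) (t : ℝ) : ‖uu N t - 1 - I * N * t‖ ≤ 2 * N ^ 2 * t ^ 2 := by
  have := norm_exp_sub_one_sub_le (N * t)
  rw [uu]
  have h : I * (N : ℂ) * (t : ℂ) = ((N * t : ℝ) : ℂ) * I := by push_cast; ring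
  rw [h]
  calc _ ≤ 2 * (N * t) ^ 2 := this
    _ = _ := by ring

/-- `|E| ≤ K |t| + K t²`. -/
theorem Good.normE {f g : ℝ → ℂ} {A : ℝ → ℝ} {B : ℝ → ℂ} {A₀ K c : ℝ} (h : Good f g A B A₀ K c)
    (θ t : ℝ) : ‖EE f g θ t‖ ≤ K * |t| + K * t ^ 2 := by
  have h1 := h.hE θ t
  have h2 : ‖I * B θ * t‖ ≤ K * |t| := by
    rw [norm_mul, norm_mul, Complex.norm_I, one_mul, Complex.norm_real, Real.norm_eq_abs]
    exact mul_le_mul_of_nonneg_right (h.hB θ) (abs_nonneg _)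
  calc ‖EE f g θ t‖ = ‖(EE f g θ t - I * B θ * t) + I * B θ * t‖ := by ring_nf
    _ ≤ ‖EE f g θ t - I * B θ * t‖ + ‖I * B θ * t‖ := norm_add_le _ _
    _ ≤ _ := by linarith

theorem Good.A_le {f g : ℝ → ℂ} {A : ℝ → ℝ} {B : ℝ → ℂ} {A₀ K c : ℝ} (h : Good f g A B A₀ K c)
    (θ : ℝ) : A θ ≤ 5 / 4 * A₀ := by
  have := abs_le.1 (h.hA θ); linarith [this.2]

theorem Good.le_A {f g : ℝ → ℂ} {A : ℝ → ℝ} {B : ℝ → ℂ} {A₀ K c : ℝ} (h : Good f g A B A₀ K c)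
    (θ : ℝ) : 3 / 4 * A₀ ≤ A θ := by
  have := abs_le.1 (h.hA θ); linarith [this.1]

/-- `|1 - D| ≤ 5/4 A₀ |t| + K t²`. -/
theorem Good.normD {f g : ℝ → ℂ} {A : ℝ → ℝ} {B : ℝ → ℂ} {A₀ K c : ℝ} (h : Good f g A B A₀ K c)
    (θ t : ℝ) : ‖1 - DD f g θ t‖ ≤ 5 / 4 * A₀ * |t| + K * t ^ 2 := by
  have h1 := h.hD θ t
  have hA1 := h.A_le θ
  have hA2 := h.le_A θ
  have hA₀ := h.A₀_ge
  have h2 : ‖I * (A θ) * t‖ ≤ 5 / 4 * A₀ * |t| := by
    rw [norm_mul, norm_mul, Complex.norm_I, one_mul, Complex.norm_real, Complex.norm_real,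
      Real.norm_eq_abs, Real.norm_eq_abs, abs_of_nonneg (by linarith : 0 ≤ A θ)]
    exact mul_le_mul_of_nonneg_right hA1 (abs_nonneg _)
  calc ‖1 - DD f g θ t‖ = ‖(DD f g θ t - 1 - I * (A θ) * t) + I * (A θ) * t‖ := by
        rw [norm_sub_rev]; ring_nf
    _ ≤ ‖DD f g θ t - 1 - I * (A θ) * t‖ + ‖I * (A θ) * t‖ := norm_add_le _ _
    _ ≤ _ := by linarith

theorem Good.norm_uD {f g : ℝ → ℂ} {A : ℝ → ℝ} {B : ℝ → ℂ} {A₀ K c : ℝ} (h : Good f g A B A₀ K c)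
    (N : ℕ) (θ t : ℝ) :
    ‖uu N t * star (DD f g θ t) - 1 - I * (N - A θ) * t‖ ≤ (K + 2 * N ^ 2 + 5 / 4 * A₀ * N) * t ^ 2 := by
  have h1 := h.hD θ t
  have hA1 := h.A_le θ
  have hA2 := h.le_A θ
  have hA₀ := h.A₀_ge
  have e1 : uu N t * star (DD f g θ t) - 1 - I * (N - A θ) * t =
      uu N t * star (DD f g θ t - 1 - I * (A θ) * t) + (uu N t - 1 - I * N * t) +
        (-(I * (A θ) * t)) * (uu N t - 1) := by
    simp only [star_sub, star_one, star_mul', Complex.star_def, Complex.conj_I, Complex.conj_ofReal]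
    ring
  rw [e1]
  have h2 : ‖uu N t * star (DD f g θ t - 1 - I * (A θ) * t)‖ ≤ K * t ^ 2 := by
    rw [norm_mul, norm_uu, one_mul, norm_star]; exact h1
  have h3 := norm_uu_sub_one_sub N t
  have h4 : ‖(-(I * (A θ) * t)) * (uu N t - 1)‖ ≤ (5 / 4 * A₀ * |t|) * (N * |t|) := by
    rw [norm_mul]
    apply mul_le_mul _ (norm_uu_sub_one N t) (norm_nonneg _) (by positivity)
    rw [norm_neg, norm_mul, norm_mul, Complex.norm_I, one_mul, Complex.norm_real, Complex.norm_real,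
      Real.norm_eq_abs, Real.norm_eq_abs, abs_of_nonneg (by linarith : 0 ≤ A θ)]
    exact mul_le_mul_of_nonneg_right hA1 (abs_nonneg _)
  have h5 : |t| * |t| = t ^ 2 := by rw [← sq, sq_abs]
  calc _ ≤ ‖uu N t * star (DD f g θ t - 1 - I * (A θ) * t) + (uu N t - 1 - I * N * t)‖ +
        ‖(-(I * (A θ) * t)) * (uu N t - 1)‖ := norm_add_le _ _
    _ ≤ (‖uu N t * star (DD f g θ t - 1 - I * (A θ) * t)‖ + ‖uu N t - 1 - I * N * t‖) +
        ‖(-(I * (A θ) * t)) * (uu N t - 1)‖ := by gcongr; exact norm_add_le _ _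
    _ ≤ (K * t ^ 2 + 2 * N ^ 2 * t ^ 2) + (5 / 4 * A₀ * |t|) * (N * |t|) := by gcongr
    _ = (K * t ^ 2 + 2 * N ^ 2 * t ^ 2) + (5 / 4 * A₀) * N * (|t| * |t|) := by ring
    _ = _ := by rw [h5]; ring

theorem Good.norm_uE {f g : ℝ → ℂ} {A : ℝ → ℝ} {B : ℝ → ℂ} {A₀ K c : ℝ} (h : Good f g A B A₀ K c)
    (N : ℕ) (θ t : ℝ) :
    ‖uu N t * star (EE f g θ t) + I * star (B θ) * t‖ ≤ (K + K * N) * t ^ 2 := by
  have h1 := h.hE θ t
  have hK := h.K_ge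
  have e1 : uu N t * star (EE f g θ t) + I * star (B θ) * t =
      uu N t * star (EE f g θ t - I * B θ * t) + (-(I * star (B θ) * t)) * (uu N t - 1) := by
    simp only [star_sub, star_mul', Complex.star_def, Complex.conj_I, Complex.conj_ofReal]
    ring
  rw [e1]
  have h2 : ‖uu N t * star (EE f g θ t - I * B θ * t)‖ ≤ K * t ^ 2 := by
    rw [norm_mul, norm_uu, one_mul, norm_star]; exact h1
  have h4 : ‖(-(I * star (B θ) * t)) * (uu N t - 1)‖ ≤ (K * |t|) * (N * |t|) := by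
    rw [norm_mul]
    apply mul_le_mul _ (norm_uu_sub_one N t) (norm_nonneg _) (by positivity)
    rw [norm_neg, norm_mul, norm_mul, Complex.norm_I, one_mul, norm_star, Complex.norm_real,
      Real.norm_eq_abs]
    exact mul_le_mul_of_nonneg_right (h.hB θ) (abs_nonneg _)
  have h5 : |t| * |t| = t ^ 2 := by rw [← sq, sq_abs]
  calc _ ≤ ‖uu N t * star (EE f g θ t - I * B θ * t)‖ + ‖(-(I * star (B θ) * t)) * (uu N t - 1)‖ :=
        norm_add_le _ _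
    _ ≤ K * t ^ 2 + (K * |t|) * (N * |t|) := by gcongr
    _ = K * t ^ 2 + K * N * (|t| * |t|) := by ring
    _ = _ := by rw [h5]; ring

end Pool.Agent.Helper18_Henkin
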