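import Pool.Agent.Helper18_Henkin.Glue

set_option autoImplicit false

open Complex Filter Topology MeasureTheory

namespace Pool.Agent.Helper18_Henkin

theorem tail_bound {E : Type*} [NormedAddCommGroup E] (x : ℕ → E) (τ : ℕ → ℝ)
    (hτ : ∀ k, τ (k + 1) ≤ τ k / 2) (hx : ∀ k, ‖x (k + 1) - x k‖ ≤ τ k / 2) (k n : ℕ) :
    ‖x (k + n) - x k‖ ≤ τ k * (1 - (1 / 2) ^ n) := by
  have hτn : ∀ n, τ (k + n) ≤ τ k * (1 / 2) ^ n := by
    intro n
    induction n with
    | zero => simp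
    | succ n ih =>
      rw [← add_assoc, pow_succ]
      have := hτ (k + n)
      linarith
  induction n with
  | zero => simp
  | succ n ih =>
    have h1 := hx (k + n)
    have h2 := hτn n
    have e : x (k + (n + 1)) - x k = (x (k + n + 1) - x (k + n)) + (x (k + n) - x k) := by
      rw [← add_assoc]; abel
    rw [e]
    refine (norm_add_le _ _).trans ?_
    rw [pow_succ]
    linarith

theorem exists_limit {E : Type*} [NormedAddCommGroup E] [CompleteSpace E] (x : ℕ → E) (τ : ℕ → ℝ)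
    (hτ : ∀ k, τ (k + 1) ≤ τ k / 2) (hx : ∀ k, ‖x (k + 1) - x k‖ ≤ τ k / 2) (h0 : ∀ k, 0 ≤ τ k)
    (h1 : ∀ k, τ k ≤ (1 / 2) ^ k) :
    ∃ L, Tendsto x atTop (𝓝 L) ∧ ∀ k, ‖L - x k‖ ≤ τ k := by
  have hC : CauchySeq x := by
    refine cauchySeq_of_le_geometric (1 / 2) 1 (by norm_num) fun n => ?_
    rw [dist_comm, dist_eq_norm, one_mul]
    have := h1 n
    have := hx n
    have := h0 n
    linarith
  obtain ⟨L, hL⟩ := cauchySeq_tendsto_of_complete hC
  refine ⟨L, hL, fun k => ?_⟩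
  have h2 : Tendsto (fun n => ‖x (k + n) - x k‖) atTop (𝓝 ‖L - x k‖) := by
    refine ((Tendsto.comp hL ?_).sub_const _).norm
    exact tendsto_atTop_mono (fun n => Nat.le_add_left n k) tendsto_id
  refine le_of_tendsto' h2 fun n => ?_
  refine (tail_bound x τ hτ hx k n).trans ?_
  have : (0 : ℝ) ≤ (1 / 2) ^ n := by positivity
  nlinarith [h0 k]

/-- The limit curve. -/
theorem exists_curve {s : ℕ → St} (hI : ∀ k, Inv k (s k)) (hR : ∀ k, Rel k (s k) (s (k + 1))) :
    ∃ Φ : ℝ → E2, (∀ θ, Tendsto (fun k => (s k).Φ θ) atTop (𝓝 (Φ θ))) ∧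
      (∀ k θ, ‖Φ θ - (s k).Φ θ‖ ≤ (s k).τ) ∧ Continuous Φ ∧ ∀ θ, ‖Φ θ‖ = 1 := by
  have h : ∀ θ, ∃ L, Tendsto (fun k => (s k).Φ θ) atTop (𝓝 L) ∧ ∀ k, ‖L - (s k).Φ θ‖ ≤ (s k).τ := fun θ =>
    exists_limit (fun k => (s k).Φ θ) (fun k => (s k).τ) (fun k => (hR k).τ_le) (fun k => (hR k).close θ)
      (fun k => (hI k).τ_pos.le) (fun k => (hI k).τ_le)
  choose Φ h1 h2 using h
  refine ⟨Φ, h1, fun k θ => h2 θ k, ?_, ?_⟩
  · have hu : TendstoUniformly (fun k θ => (s k).Φ θ) Φ atTop := by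
      rw [Metric.tendstoUniformly_iff]
      intro ε hε
      have h3 : Tendsto (fun k : ℕ => ((1 : ℝ) / 2) ^ k) atTop (𝓝 0) :=
        tendsto_pow_atTop_nhds_zero_of_lt_one (by norm_num) (by norm_num)
      filter_upwards [h3.eventually (gt_mem_nhds hε)] with k hk θ
      rw [dist_eq_norm]
      exact ((h2 θ k).trans (hI k).τ_le).trans_lt hk
    refine hu.continuous (Frequently.of_forall fun k => ?_)
    exact continuous_pt (hI k).poly.continuous.1 (hI k).poly.continuous.2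
  · intro θ
    have h3 := (h1 θ).norm
    have h4 : (fun k => ‖(s k).Φ θ‖) = fun _ => (1 : ℝ) := funext fun k => (hI k).normΦ θ
    rw [h4] at h3
    exact (tendsto_nhds_unique h3 tendsto_const_nhds)

theorem R_mono {s : ℕ → St} (hR : ∀ k, Rel k (s k) (s (k + 1))) : Monotone fun k => (s k).R :=
  monotone_nat_of_le_succ fun k => (hR k).R_le

theorem R_tendsto {s : ℕ → St} (hI : ∀ k, Inv k (s k)) : Tendsto (fun k => (s k).R) atTop (𝓝 1) := by
  have h3 : Tendsto (fun k : ℕ => 1 - ((1 : ℝ) / 2) ^ k) atTop (𝓝 (1 - 0)) :=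
    (tendsto_pow_atTop_nhds_zero_of_lt_one (by norm_num) (by norm_num)).const_sub 1
  rw [sub_zero] at h3
  refine tendsto_of_tendsto_of_tendsto_of_le_of_le h3 tendsto_const_nhds (fun k => ?_) fun k => (hI k).R_lt.le
  have := (hI k).R_ge
  have := (hI k).τ_le
  show 1 - ((1 : ℝ) / 2) ^ k ≤ (s k).R
  linarith

/-- The limit function. -/
theorem exists_function {s : ℕ → St} (hI : ∀ k, Inv k (s k)) (hR : ∀ k, Rel k (s k) (s (k + 1))) :
    ∃ F : E2 → ℂ, (∀ z, ‖z‖ < 1 → DifferentiableAt ℂ F z) ∧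
      ∀ k z, ‖z‖ ≤ (s k).R → ‖F z - (s k).F z‖ ≤ kap := by
  have hkap := kap_pos
  -- bounds for the increments
  have hinc : ∀ k j z, ‖z‖ ≤ (s k).R →
      ‖(s (j + k + 1)).F z - (s (j + k)).F z‖ ≤ kap * (1 / 2) ^ (j + 1) := by
    intro k j z hz
    refine ((hR (j + k)).small z (hz.trans (R_mono hR (Nat.le_add_left k j)))).trans ?_
    gcongr ?_ * ?_
    refine pow_le_pow_of_le_one (by norm_num) (by norm_num) (by omega)
  have hsum : Summable fun j : ℕ => kap * (1 / 2 : ℝ) ^ (j + 1) := by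
    have h1 : Summable fun j : ℕ => (1 / 2 : ℝ) ^ (j + 1) :=
      (summable_nat_add_iff 1).2 summable_geometric_two
    exact h1.mul_left kap
  have htsum : HasSum (fun j : ℕ => kap * (1 / 2 : ℝ) ^ (j + 1)) kap := by
    have h1 : HasSum (fun j : ℕ => (1 / 2 : ℝ) ^ j) 2 := hasSum_geometric_two
    have h2 := h1.mul_left (kap * (1 / 2))
    have e : kap * (1 / 2) * 2 = kap := by ring
    rw [e] at h2
    refine h2.congr_fun ?_ |> fun h => h
    intro j
    rw [pow_succ]
    ring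
  set F : E2 → ℂ := fun z => (s 0).F z + ∑' k, ((s (k + 1)).F z - (s k).F z) with hF
  have hrep : ∀ k z, ‖z‖ ≤ (s k).R → F z = (s k).F z + ∑' j, ((s (j + k + 1)).F z - (s (j + k)).F z) := by
    intro k z hz
    have h1 : Summable fun j => (s (j + k + 1)).F z - (s (j + k)).F z :=
      Summable.of_norm_bounded hsum fun j => hinc k j z hz
    have h2 : Summable fun j => (s (j + 1)).F z - (s j).F z :=
      (summable_nat_add_iff (f := fun j => (s (j + 1)).F z - (s j).F z) k).1 h1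
    have h3 := h2.sum_add_tsum_nat_add k
    have h4 := Finset.sum_range_sub (fun j => (s j).F z) k
    show (s 0).F z + ∑' k, ((s (k + 1)).F z - (s k).F z) = _
    rw [← h3, h4]
    ring
  refine ⟨F, fun z hz => ?_, fun k z hz => ?_⟩
  · obtain ⟨k, hk⟩ := ((R_tendsto hI).eventually (lt_mem_nhds hz)).exists
    have h1 : DifferentiableAt ℂ
        (fun z => (s k).F z + ∑' j, ((s (j + k + 1)).F z - (s (j + k)).F z)) z := by
      refine ((hI k).diff z hz.le).add ?_
      refine differentiableAt_series (fun j z => (s (j + k + 1)).F z - (s (j + k)).F z)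
        (fun j => kap * (1 / 2 : ℝ) ^ (j + 1)) hsum (fun j => by positivity) (ρ := (s k).R) ?_ ?_ z hk
      · intro j y hy
        have hy1 : ‖y‖ ≤ 1 := hy.le.trans (hI k).R_lt.le
        exact ((hI _).diff y hy1).sub ((hI _).diff y hy1)
      · intro j y hy
        exact hinc k j y hy.le
    refine h1.congr_of_eventuallyEq ?_
    have h2 : ∀ᶠ y : E2 in 𝓝 z, ‖y‖ < (s k).R := continuous_norm.continuousAt.eventually (gt_mem_nhds hk)
    filter_upwards [h2] with y hy
    exact hrep k y hy.le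
  · rw [hrep k z hz, add_sub_cancel_left]
    exact tsum_of_norm_bounded htsum fun j => hinc k j z hz

end Pool.Agent.Helper18_Henkin
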