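import Pool.Agent.Helper18_Henkin.Stage

set_option autoImplicit false

open Complex Filter Topology MeasureTheory

namespace Pool.Agent.Helper18_Henkin

theorem differentiableAt_series (D : ℕ → E2 → ℂ) (u : ℕ → ℝ) (hu : Summable u) (hu0 : ∀ k, 0 < u k) {ρ : ℝ}
    (hD : ∀ k z, ‖z‖ < ρ → DifferentiableAt ℂ (D k) z) (hb : ∀ k z, ‖z‖ < ρ → ‖D k z‖ ≤ u k)
    (x : E2) (hx : ‖x‖ < ρ) : DifferentiableAt ℂ (fun z => ∑' k, D k z) x := by
  set ρ' := (ρ - ‖x‖) / 2 with hρ'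
  have hρ'0 : 0 < ρ' := by rw [hρ']; linarith
  have hsub : ∀ z ∈ Metric.ball x ρ', ∀ y ∈ Metric.ball z ρ', ‖y‖ < ρ := by
    intro z hz y hy
    rw [Metric.mem_ball, dist_eq_norm] at hz hy
    have h1 : ‖y‖ ≤ ‖y - z‖ + ‖z - x‖ + ‖x‖ := by
      calc ‖y‖ = ‖(y - z) + (z - x) + x‖ := by congr 1; abel
        _ ≤ _ := (norm_add_le _ _).trans (by gcongr; exact norm_add_le _ _)
    rw [hρ'] at hz hy
    linarith
  have hder : ∀ k, ∀ z ∈ Metric.ball x ρ', ‖fderiv ℂ (D k) z‖ ≤ 3 / ρ' * u k := by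
    intro k z hz
    have h1 : DifferentiableOn ℂ (D k) (Metric.ball z ρ') := fun y hy =>
      (hD k y (hsub z hz y hy)).differentiableWithinAt
    have h2 : Set.MapsTo (D k) (Metric.ball z ρ') (Metric.closedBall (D k z) (3 * u k)) := by
      intro y hy
      rw [Metric.mem_closedBall, dist_eq_norm]
      have h3 := hb k y (hsub z hz y hy)
      have h4 := hb k z (hsub z hz z (Metric.mem_ball_self hρ'0))
      have := norm_sub_le (D k y) (D k z)
      have := hu0 k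
      linarith
    have h5 := Complex.norm_fderiv_le_div_of_mapsTo_ball h1 h2 hρ'0
    calc _ ≤ 3 * u k / ρ' := h5
      _ = _ := by ring
  have h6 := hasFDerivAt_tsum_of_isPreconnected (𝕜 := ℂ) (f := D) (f' := fun k z => fderiv ℂ (D k) z)
    (u := fun k => 3 / ρ' * u k) (s := Metric.ball x ρ') (x₀ := x) (x := x) (hu.mul_left _)
    Metric.isOpen_ball (convex_ball x ρ').isPreconnected
    (fun k z hz => (hD k z (hsub z hz z (Metric.mem_ball_self hρ'0))).hasFDerivAt) hder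
    (Metric.mem_ball_self hρ'0) ?_ (Metric.mem_ball_self hρ'0)
  · exact h6.differentiableAt
  · exact Summable.of_norm_bounded hu fun k => hb k x hx

/-- Uniform continuity on the closed ball. -/
theorem exists_modulus {F : E2 → ℂ} (hF : ∀ z, ‖z‖ ≤ 1 → DifferentiableAt ℂ F z) {e : ℝ} (he : 0 < e) :
    ∃ d : ℝ, 0 < d ∧ ∀ z z', ‖z‖ ≤ 1 → ‖z'‖ ≤ 1 → ‖z - z'‖ ≤ d → ‖F z - F z'‖ ≤ e := by
  have hc : ContinuousOn F (Metric.closedBall 0 1) := fun z hz =>
    (hF z (by simpa using hz)).continuousAt.continuousWithinAt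
  have hu := (isCompact_closedBall (0 : E2) 1).uniformContinuousOn_of_continuous hc
  rw [Metric.uniformContinuousOn_iff_le] at hu
  obtain ⟨d, hd, h⟩ := hu e he
  refine ⟨d, hd, fun z z' hz hz' hzz => ?_⟩
  have := h z (by simpa using hz) z' (by simpa using hz') (by rwa [dist_eq_norm])
  rwa [dist_eq_norm] at this

/-- The oscillation unit. -/
noncomputable def kap : ℝ := 1 / 10 ^ 7 / 16

theorem kap_pos : 0 < kap := by unfold kap; positivity

/-- The state of the inductive construction. -/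
structure St where
  f : ℝ → ℂ
  g : ℝ → ℂ
  F : E2 → ℂ
  R : ℝ
  τ : ℝ

/-- The curve of a state. -/
noncomputable def St.Φ (s : St) (θ : ℝ) : E2 := pt (s.f θ) (s.g θ)

/-- The invariants. -/
structure Inv (k : ℕ) (s : St) : Prop where
  good : ∃ A B A₀ K c, Good s.f s.g A B A₀ K c
  poly : IsPoly s.f s.g
  diff : ∀ z, ‖z‖ ≤ 1 → DifferentiableAt ℂ s.F z
  bd : ∀ z, ‖z‖ ≤ 1 → ‖s.F z‖ ≤ 2 - (1 / 2) ^ k
  cur : ∀ θ, ‖s.F (s.Φ θ)‖ ≤ 1 / 2 - (1 / 2) ^ (k + 1)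
  R_pos : 0 < s.R
  R_lt : s.R < 1
  τ_pos : 0 < s.τ
  R_ge : 1 - s.R ≤ s.τ
  τ_le : s.τ ≤ (1 / 2) ^ k
  modu : ∀ z z', ‖z‖ ≤ 1 → ‖z'‖ ≤ 1 → ‖z - z'‖ ≤ s.τ → ‖s.F z - s.F z'‖ ≤ kap

/-- The relation between consecutive states. -/
structure Rel (k : ℕ) (s s' : St) : Prop where
  close : ∀ θ, ‖s'.Φ θ - s.Φ θ‖ ≤ s.τ / 2
  τ_le : s'.τ ≤ s.τ / 2
  R_le : s.R ≤ s'.R
  small : ∀ z, ‖z‖ ≤ s.R → ‖s'.F z - s.F z‖ ≤ kap * (1 / 2) ^ (k + 1)
  osc : ∃ r r' : ℝ, s.R ≤ r ∧ s.R ≤ r' ∧ r ≤ s'.R ∧ r' ≤ s'.R ∧ ∃ S : Set ℝ, MeasurableSet S ∧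
    S ⊆ Set.Icc 0 (2 * Real.pi) ∧ ENNReal.ofReal (1 / 40) ≤ volume S ∧
    ∀ θ ∈ S, 13 * kap ≤ ‖s'.F ((r : ℂ) • s'.Φ θ) - s'.F ((r' : ℂ) • s'.Φ θ)‖

theorem Inv.normΦ {k : ℕ} {s : St} (h : Inv k s) (θ : ℝ) : ‖s.Φ θ‖ = 1 := by
  obtain ⟨A, B, A₀, K, c, hg⟩ := h.good
  exact norm_pt_one hg.unit θ

theorem norm_smul_le_one {r : ℝ} (h0 : 0 ≤ r) (h1 : r ≤ 1) {z : E2} (hz : ‖z‖ ≤ 1) : ‖(r : ℂ) • z‖ ≤ 1 := by
  rw [norm_smul, norm_ofReal_nonneg h0]
  exact mul_le_one₀ h1 (norm_nonneg _) hz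

theorem step {k : ℕ} {s : St} (h : Inv k s) : ∃ s', Inv (k + 1) s' ∧ Rel k s s' := by
  obtain ⟨A, B, A₀, K, c, hg⟩ := h.good
  have hkap := kap_pos
  have hpk : (0 : ℝ) < (1 / 2) ^ k := by positivity
  obtain ⟨w, hw, hwF⟩ := exists_modulus h.diff (e := 1 / 2) (by norm_num)
  obtain ⟨w₂, hw₂, hw₂F⟩ := exists_modulus h.diff (e := (1 / 2) ^ (k + 3)) (by positivity)
  set ε := min (min (kap * (1 / 2) ^ (k + 1)) ((1 / 2) ^ (k + 3))) (min (s.τ / 2) w₂) with hεdef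
  have hε : 0 < ε := by
    refine lt_min (lt_min (by positivity) (by positivity)) (lt_min ?_ hw₂)
    have := h.τ_pos
    positivity
  have hε1 : ε ≤ kap * (1 / 2) ^ (k + 1) := (min_le_left _ _).trans (min_le_left _ _)
  have hε2 : ε ≤ (1 / 2) ^ (k + 3) := (min_le_left _ _).trans (min_le_right _ _)
  have hε3 : ε ≤ s.τ / 2 := (min_le_right _ _).trans (min_le_left _ _)
  have hε4 : ε ≤ w₂ := (min_le_right _ _).trans (min_le_right _ _)
  have hεkap : ε ≤ kap := by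
    refine hε1.trans ?_
    have : ((1 : ℝ) / 2) ^ (k + 1) ≤ 1 := pow_le_one₀ (by norm_num) (by norm_num)
    nlinarith
  obtain ⟨f', g', A', B', A₀', K', c', p, hg', hp', hpd, hphalf, hpfar, hpR, hclose, hpcur, r, hr0, hr1, S,
    hSm, hSs, hSv, hSp⟩ := stage hg h.poly hε hw h.R_lt
  obtain ⟨w₃, hw₃, hw₃p⟩ := exists_modulus hpd hkap
  set F' : E2 → ℂ := fun z => s.F z + p z with hF'
  have hF'd : ∀ z, ‖z‖ ≤ 1 → DifferentiableAt ℂ F' z := fun z hz => (h.diff z hz).add (hpd z hz)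
  obtain ⟨w₄, hw₄, hw₄F⟩ := exists_modulus hF'd hkap
  have hΦ' : ∀ θ, ‖pt (f' θ) (g' θ)‖ = 1 := fun θ => norm_pt_one hg'.unit θ
  -- r > R
  have hSne : S.Nonempty := by
    by_contra hne
    rw [Set.not_nonempty_iff_eq_empty] at hne
    rw [hne] at hSv
    simp at hSv
  have hRr : s.R < r := by
    obtain ⟨θ, hθ⟩ := hSne
    by_contra hcon
    push Not at hcon
    have h1 := hpR ((r : ℂ) • pt (f' θ) (g' θ)) (by rw [norm_smul, norm_ofReal_nonneg hr0.le, hΦ', mul_one]; exact hcon)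
    have h2 := hSp θ hθ
    have h3 : kap = 1 / 10 ^ 7 / 16 := rfl
    linarith
  set r' := max r (1 - w₃) with hr'
  have hr'1 : r' < 1 := max_lt hr1 (by linarith)
  have hrr' : r ≤ r' := le_max_left _ _
  set τ' := min (min (s.τ / 2) w₄) ((1 / 2) ^ (k + 1)) with hτ'
  have hτ'0 : 0 < τ' := by
    refine lt_min (lt_min ?_ hw₄) (by positivity)
    have := h.τ_pos
    positivity
  set R' := max r' (1 - τ') with hR'
  have hR'1 : R' < 1 := max_lt hr'1 (by linarith)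
  refine ⟨⟨f', g', F', R', τ'⟩, ?_, ?_⟩
  · refine ⟨⟨A', B', A₀', K', c', hg'⟩, hp', hF'd, ?_, ?_, ?_, hR'1, hτ'0, ?_, ?_, ?_⟩
    · -- bound
      intro z hz
      show ‖s.F z + p z‖ ≤ _
      refine (norm_add_le _ _).trans ?_
      by_cases hfar : ∀ θ, w ≤ ‖z - pt (s.f θ) (s.g θ)‖
      · have h1 := hpfar z hz hfar
        have h2 := h.bd z hz
        have h3 : ((1 : ℝ) / 2) ^ (k + 1) = (1 / 2) ^ k / 2 := by rw [pow_succ]; ring
        have h4 : ((1 : ℝ) / 2) ^ (k + 3) = (1 / 2) ^ k / 8 := by rw [pow_add]; ring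
        rw [h3]
        rw [h4] at hε2
        linarith
      · push Not at hfar
        obtain ⟨θ, hθ⟩ := hfar
        have h1 := hwF z (s.Φ θ) hz (h.normΦ θ).le hθ.le
        have h2 := h.cur θ
        have h3 := norm_sub_norm_le (s.F z) (s.F (s.Φ θ))
        have h4 := hphalf z hz
        have h5 : ((1 : ℝ) / 2) ^ (k + 1) ≤ 1 / 2 := by
          rw [pow_succ]
          have : ((1 : ℝ) / 2) ^ k ≤ 1 := pow_le_one₀ (by norm_num) (by norm_num)
          linarith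
        have h6 : (0 : ℝ) < (1 / 2) ^ (k + 1) := by positivity
        linarith
    · -- on the curve
      intro θ
      show ‖s.F (pt (f' θ) (g' θ)) + p (pt (f' θ) (g' θ))‖ ≤ _
      refine (norm_add_le _ _).trans ?_
      have h1 := hpcur θ
      have h2 := hw₂F (pt (f' θ) (g' θ)) (s.Φ θ) (hΦ' θ).le (h.normΦ θ).le ((hclose θ).trans hε4)
      have h3 := norm_sub_norm_le (s.F (pt (f' θ) (g' θ))) (s.F (s.Φ θ))
      have h4 := h.cur θ
      have h5 : ((1 : ℝ) / 2) ^ (k + 1) = (1 / 2) ^ k / 2 := by rw [pow_succ]; ring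
      have h6 : ((1 : ℝ) / 2) ^ (k + 3) = (1 / 2) ^ k / 8 := by rw [pow_add]; ring
      have h7 : ((1 : ℝ) / 2) ^ (k + 1 + 1) = (1 / 2) ^ k / 4 := by rw [pow_add, pow_add]; ring
      rw [h5] at h4
      rw [h6] at h2 hε2
      rw [h7]
      linarith
    · -- R' positive
      show 0 < R'
      exact lt_of_lt_of_le (lt_of_lt_of_le hr0 hrr') (le_max_left _ _)
    · show 1 - R' ≤ τ'
      have := le_max_right r' (1 - τ')
      linarith
    · exact min_le_right _ _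
    · intro z z' hz hz' hzz
      exact hw₄F z z' hz hz' (hzz.trans ((min_le_left _ _).trans (min_le_right _ _)))
  · refine ⟨fun θ => (hclose θ).trans hε3, (min_le_left _ _).trans (min_le_left _ _), ?_, ?_, ?_⟩
    · show s.R ≤ R'
      exact (hRr.le.trans hrr').trans (le_max_left _ _)
    · intro z hz
      show ‖s.F z + p z - s.F z‖ ≤ _
      rw [add_sub_cancel_left]
      exact (hpR z hz).trans hε1
    · refine ⟨r, r', hRr.le, hRr.le.trans hrr', hrr'.trans (le_max_left _ _), le_max_left _ _, S, hSm, hSs, hSv, ?_⟩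
      intro θ hθ
      show 13 * kap ≤ ‖(s.F ((r : ℂ) • pt (f' θ) (g' θ)) + p ((r : ℂ) • pt (f' θ) (g' θ))) -
        (s.F ((r' : ℂ) • pt (f' θ) (g' θ)) + p ((r' : ℂ) • pt (f' θ) (g' θ)))‖
      set ζ := pt (f' θ) (g' θ) with hζ
      have hζ1 : ‖ζ‖ ≤ 1 := (hΦ' θ).le
      have hr'0 : 0 < r' := lt_of_lt_of_le hr0 hrr'
      have n1 : ‖s.F ((r : ℂ) • ζ) - s.F ((r' : ℂ) • ζ)‖ ≤ kap := by
        refine h.modu _ _ (norm_smul_le_one hr0.le hr1.le hζ1) (norm_smul_le_one hr'0.le hr'1.le hζ1) ?_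
        rw [← sub_smul, ← Complex.ofReal_sub, norm_smul, Complex.norm_real, Real.norm_eq_abs, hΦ', mul_one,
          abs_sub_comm, abs_of_nonneg (by linarith)]
        have := h.R_ge
        linarith
      have n2 : ‖p ((r' : ℂ) • ζ)‖ ≤ 2 * kap := by
        have h1 := hw₃p ((r' : ℂ) • ζ) ζ (norm_smul_le_one hr'0.le hr'1.le hζ1) hζ1 ?_
        · have h2 := norm_sub_norm_le (p ((r' : ℂ) • ζ)) (p ζ)
          have h3 := hpcur θ
          linarith
        · have e : (r' : ℂ) • ζ - ζ = (((r' - 1 : ℝ)) : ℂ) • ζ := by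
            push_cast; rw [sub_smul, one_smul]
          rw [e, norm_smul, Complex.norm_real, Real.norm_eq_abs, hΦ', mul_one, abs_of_nonpos (by linarith)]
          have := le_max_right r (1 - w₃)
          linarith
      have n3 := hSp θ hθ
      have hk : kap = 1 / 10 ^ 7 / 16 := rfl
      have e : (s.F ((r : ℂ) • ζ) + p ((r : ℂ) • ζ)) - (s.F ((r' : ℂ) • ζ) + p ((r' : ℂ) • ζ)) =
          p ((r : ℂ) • ζ) - (p ((r' : ℂ) • ζ) - (s.F ((r : ℂ) • ζ) - s.F ((r' : ℂ) • ζ))) := by ring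
      rw [e]
      have n4 := norm_sub_norm_le (p ((r : ℂ) • ζ)) (p ((r' : ℂ) • ζ) - (s.F ((r : ℂ) • ζ) - s.F ((r' : ℂ) • ζ)))
      have n5 := norm_sub_le (p ((r' : ℂ) • ζ)) (s.F ((r : ℂ) • ζ) - s.F ((r' : ℂ) • ζ))
      linarith

/-- The initial state: the linear disc `λ ↦ (λ, 0)` and the zero function. -/
theorem init : Inv 0 ⟨fun θ => circleMap 0 1 θ, fun _ => 0, fun _ => 0, 1 / 2, 1 / 2⟩ := by
  have hcm : ∀ θ : ℝ, circleMap 0 1 θ = Complex.exp ((θ : ℂ) * I) := by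
    intro θ; simp [circleMap]
  have hDD : ∀ θ t : ℝ, DD (fun θ => circleMap 0 1 θ) (fun _ => 0) θ t = Complex.exp ((t : ℂ) * I) := by
    intro θ t
    simp only [DD, zero_mul, add_zero, hcm, Complex.star_def, ← Complex.exp_conj, map_mul, Complex.conj_ofReal,
      Complex.conj_I]
    rw [← Complex.exp_add]
    congr 1
    push_cast
    ring
  refine ⟨⟨fun _ => 1, fun _ => 0, 1, 2, 2 / Real.pi, ?_⟩, ?_, ?_, ?_, ?_, ?_, ?_, ?_, ?_, ?_, ?_⟩
  · refine ⟨le_rfl, by norm_num, by positivity, ?_, ?_, ?_, ?_, ?_, ?_⟩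
    · intro θ; simp
    · intro θ; norm_num
    · intro θ; simp
    · intro θ t
      rw [hDD]
      have := norm_exp_sub_one_sub_le t
      have e : Complex.exp ((t : ℂ) * I) - 1 - I * ((1 : ℝ) : ℂ) * t = Complex.exp ((t : ℂ) * I) - 1 - (t : ℂ) * I := by
        push_cast; ring
      rw [e]; exact this
    · intro θ t
      simp [EE]
      positivity
    · intro θ t ht
      rw [hDD, norm_sub_rev, mul_comm ((t : ℂ)) I, Complex.norm_exp_I_mul_ofReal_sub_one]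
      rw [norm_mul, Real.norm_ofNat, Real.norm_eq_abs]
      have h1 : |t / 2| ≤ Real.pi / 2 := by rw [abs_div, abs_two]; linarith
      have h2 := Real.mul_abs_le_abs_sin h1
      rw [abs_div, abs_two] at h2
      have h3 : 2 / Real.pi * (|t| / 2) = 2 / Real.pi * |t| / 2 := by ring
      linarith
  · refine ⟨Polynomial.X, 0, by simp, by simp, fun θ => by simp, fun θ => by simp⟩
  · intro z _; exact differentiableAt_const _
  · intro z _; norm_num
  · intro θ; norm_num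
  · norm_num
  · norm_num
  · norm_num
  · norm_num
  · norm_num
  · intro z z' _ _ _
    simp [kap_pos.le]

/-- The sequence of states. -/
theorem exists_seq : ∃ s : ℕ → St, (∀ k, Inv k (s k)) ∧ ∀ k, Rel k (s k) (s (k + 1)) := by
  choose nxt hn1 hn2 using @step
  let q : ∀ k, {s : St // Inv k s} := fun k => Nat.rec (motive := fun k => {s : St // Inv k s}) ⟨_, init⟩
    (fun _ s => ⟨nxt s.2, hn1 s.2⟩) k
  exact ⟨fun k => (q k).1, fun k => (q k).2, fun k => hn2 (q k).2⟩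

end Pool.Agent.Helper18_Henkin
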