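import Pool.Agent.Helper18_Henkin.Bump

set_option autoImplicit false

open Complex

namespace Pool.Agent.Helper18_Henkin

variable {f g : ℝ → ℂ} {A : ℝ → ℝ} {B : ℝ → ℂ} {A₀ K c : ℝ} {m J : ℕ} {σ a b : ℝ}

theorem xx_smul (θ : ℝ) (r : ℂ) (z : E2) : xx f g θ (r • z) = r * xx f g θ z := by
  simp [xx]; ring

theorem yy_smul (θ : ℝ) (r : ℂ) (z : E2) : yy f g θ (r • z) = r * yy f g θ z := by
  simp [yy]; ring

theorem GG_smul (θ : ℝ) (L : ℕ) (cc r : ℂ) (z : E2) :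
    GG f g θ m L cc (r • z) = r ^ (L + 1) * GG f g θ m L cc z +
      cc * (xx f g θ z ^ L) ^ 2 * (r ^ (L + 1) - r ^ (2 * L)) := by
  rw [GG, GG, xx_smul, yy_smul]
  ring

theorem exp_bounds {x : ℝ} (h1 : 3 / 4 ≤ x) (h2 : x ≤ 4 / 3) :
    1 / 4 ≤ Real.exp (-x) ∧ Real.exp (-x) ≤ 1 / 2 := by
  constructor
  · rw [Real.exp_neg, ← one_div]
    apply one_div_le_one_div_of_le (Real.exp_pos _)
    have h3 : Real.exp x ≤ Real.exp (4 / 3) := Real.exp_le_exp.2 h2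
    have h4 : Real.exp (4 / 3) ^ 3 ≤ 4 ^ 3 := by
      rw [← Real.exp_nat_mul]
      have : ((3 : ℕ) : ℝ) * (4 / 3) = (4 : ℕ) * 1 := by norm_num
      rw [this, Real.exp_nat_mul]
      have := Real.exp_one_lt_d9
      have h0 := Real.exp_pos 1
      calc Real.exp 1 ^ 4 ≤ 2.7182818286 ^ 4 := by gcongr
        _ ≤ 4 ^ 3 := by norm_num
    have h5 : Real.exp (4 / 3) ≤ 4 := by
      have h0 := Real.exp_pos (4 / 3)
      exact (pow_le_pow_iff_left₀ h0.le (by norm_num) three_ne_zero).1 h4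
    linarith
  · rw [Real.exp_neg, ← one_div]
    apply one_div_le_one_div_of_le (by norm_num)
    have h3 : Real.exp (3 / 4) ≤ Real.exp x := Real.exp_le_exp.2 h1
    have h4 := Real.quadratic_le_exp_of_nonneg (x := 3 / 4) (by norm_num)
    norm_num at h4
    linarith

/-- the radial factor -/
theorem radial (hg : Good f g A B A₀ K c) (hm : 1 ≤ m) (hbig : A₀ / (m : ℝ) ^ 8 ≤ 1 / 20) (θ : ℝ) :
    1 / 10 ≤ Real.exp (-(A₀ / (m : ℝ) ^ 8)) ^ (LL A m θ + 1) - Real.exp (-(A₀ / (m : ℝ) ^ 8)) ^ (2 * LL A m θ) := by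
  have hM : (1 : ℝ) ≤ m := by exact_mod_cast hm
  have hM0 : (0 : ℝ) < m := by linarith
  have hA₀ := hg.A₀_ge
  have hA1 := hg.A_le θ
  have hA2 := hg.le_A θ
  have h1 := LL_le hg m θ
  have h2 := le_LL hg m θ
  set L := LL A m θ with hL
  have hM8 : (0 : ℝ) < (m : ℝ) ^ 8 := by positivity
  have hAL : (L : ℝ) * (A₀ / (m : ℝ) ^ 8) ≤ 4 / 3 := by
    rw [mul_div_assoc', div_le_iff₀ hM8]
    have : (L : ℝ) * (3 / 4 * A₀) ≤ L * A θ := by gcongr
    linarith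
  have hAL2 : 3 / 4 ≤ (L : ℝ) * (A₀ / (m : ℝ) ^ 8) := by
    have h3 : (m : ℝ) ^ 8 ≤ (L + 1) * (5 / 4 * A₀) := by
      refine h2.trans ?_
      gcongr
    have h4 : 4 / 5 ≤ (L + 1) * (A₀ / (m : ℝ) ^ 8) := by
      rw [mul_div_assoc', le_div_iff₀ hM8]
      linarith
    have h5 : ((L : ℝ) + 1) * (A₀ / (m : ℝ) ^ 8) = L * (A₀ / (m : ℝ) ^ 8) + A₀ / (m : ℝ) ^ 8 := by ring
    linarith
  obtain ⟨h6, h7⟩ := exp_bounds hAL2 hAL
  have h8 : Real.exp (-(L * (A₀ / (m : ℝ) ^ 8))) = Real.exp (-(A₀ / (m : ℝ) ^ 8)) ^ L := by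
    rw [← Real.exp_nat_mul]; congr 1; ring
  rw [h8] at h6 h7
  set ρ := Real.exp (-(A₀ / (m : ℝ) ^ 8)) ^ L with hρ
  have h9 : 1 - A₀ / (m : ℝ) ^ 8 ≤ Real.exp (-(A₀ / (m : ℝ) ^ 8)) := by
    have := Real.add_one_le_exp (-(A₀ / (m : ℝ) ^ 8))
    linarith
  have e : Real.exp (-(A₀ / (m : ℝ) ^ 8)) ^ (L + 1) - Real.exp (-(A₀ / (m : ℝ) ^ 8)) ^ (2 * L) =
      ρ * (Real.exp (-(A₀ / (m : ℝ) ^ 8)) - ρ) := by rw [hρ]; ring
  rw [e]
  calc (1 : ℝ) / 10 ≤ 1 / 4 * (9 / 20) := by norm_num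
    _ ≤ ρ * (Real.exp (-(A₀ / (m : ℝ) ^ 8)) - ρ) := by
      apply mul_le_mul h6 _ (by norm_num) (by linarith)
      linarith

/-- The bump is bounded below at radial points under the new curve. -/
theorem pp_lower (hg : Good f g A B A₀ K c) (hp : IsPoly f g) (h : Par A₀ m σ a b) (hN : Nod A₀ K c m J)
    (hbig : A₀ / (m : ℝ) ^ 8 ≤ 1 / 20) (hbig2 : 24 * A₀ ^ 3 * K / m ≤ 1 / 200)
    (j : ℕ) (hj : j ∈ Finset.range J) (t : ℝ) (ht0 : 0 ≤ t) (ht : t ≤ 1 / (m : ℝ) ^ 6 / A₀) :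
    1 / 10 ^ 7 ≤ ‖pp f g A m J σ a (((Real.exp (-(A₀ / (m : ℝ) ^ 8)) : ℝ) : ℂ) •
      pt (newf a b (m ^ 8) f g (node J j + t)) (newg a b (m ^ 8) f g (node J j + t)))‖ := by
  have hM : (1 : ℝ) ≤ m := by exact_mod_cast h.m_pos
  have hM0 : (0 : ℝ) < m := by linarith
  have hA₀ := hg.A₀_ge
  have hK := hg.K_ge
  have hσ := h.σ_pos
  obtain ⟨hσ1, hσA⟩ := h.σ_le hA₀
  have hr := radial hg h.m_pos hbig (node J j)
  set r := Real.exp (-(A₀ / (m : ℝ) ^ 8)) with hrdef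
  have hr0 : 0 < r := Real.exp_pos _
  have hr1 : r ≤ 1 := by
    rw [hrdef]
    apply Real.exp_le_one_iff.2
    have : 0 ≤ A₀ / (m : ℝ) ^ 8 := by positivity
    linarith
  set z₁ := pt (newf a b (m ^ 8) f g (node J j + t)) (newg a b (m ^ 8) f g (node J j + t)) with hz₁
  have hz₁n : ‖z₁‖ = 1 := norm_new_pt hg h _
  have hz : ‖(r : ℂ) • z₁‖ ≤ 1 := by
    rw [norm_smul, norm_ofReal_nonneg hr0.le, hz₁n, mul_one]; exact hr1
  have hx1 : ‖xx f g (node J j) z₁‖ ≤ 1 := (norm_xx_le hg.unit _ z₁).trans hz₁n.le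
  -- size of t
  have ht6 : t ≤ 1 / (m : ℝ) ^ 6 := ht.trans (div_le_self (by positivity) hA₀)
  have hm65 : 1 / (m : ℝ) ^ 6 ≤ 1 / (m : ℝ) ^ 5 := by
    apply one_div_le_one_div_of_le (by positivity)
    exact pow_le_pow_right₀ hM (by norm_num)
  have ht5 : |t| ≤ 1 / (m : ℝ) ^ 5 := by rw [abs_of_nonneg ht0]; linarith
  have hcan := cancel hg h (node J j) t (LL_le hg m _) (le_LL hg m _) ht5 hx1
  have hxL := xL_close hg h (node J j) t (LL_le hg m _) (le_LL hg m _) ht5 hx1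
  have haL := aL_ge h (hg.le_A (node J j)) hA₀ (LL_le hg m (node J j))
  rw [← hz₁] at hcan hxL
  set L := LL A m (node J j) with hL
  have haL1 : a ^ L ≤ 1 := pow_le_one₀ h.a_nonneg h.a_le
  -- lower bound for GG
  have hsmall : 10 * A₀ ^ 2 * K / m ≤ 1 / 200 := by
    refine le_trans ?_ hbig2
    apply div_le_div_of_nonneg_right _ hM0.le
    have : A₀ ^ 2 * K ≤ A₀ ^ 3 * K := by
      apply mul_le_mul_of_nonneg_right _ (by linarith)
      exact pow_le_pow_right₀ hA₀ (by norm_num)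
    have : 0 ≤ A₀ ^ 3 * K := by positivity
    linarith
  have hxLn : 66 / 100 ≤ ‖xx f g (node J j) z₁ ^ L‖ := by
    have h1 : ‖(a : ℂ) ^ L * uu (m ^ 8) t‖ = a ^ L := by
      rw [norm_mul, norm_uu, mul_one, norm_pow, norm_ofReal_nonneg h.a_nonneg]
    have h2 := norm_sub_norm_le ((a : ℂ) ^ L * uu (m ^ 8) t) (xx f g (node J j) z₁ ^ L)
    rw [h1, norm_sub_rev] at h2
    linarith
  have hGG : σ / 100 ≤ ‖GG f g (node J j) m L (coef m L σ a (node J j)) ((r : ℂ) • z₁)‖ := by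
    rw [GG_smul]
    have h1 : ‖(r : ℂ) ^ (L + 1) * GG f g (node J j) m L (coef m L σ a (node J j)) z₁‖ ≤ σ / 200 := by
      rw [norm_mul, norm_pow, norm_ofReal_nonneg hr0.le]
      have : r ^ (L + 1) ≤ 1 := pow_le_one₀ hr0.le hr1
      calc _ ≤ 1 * (24 * A₀ ^ 3 * K / m) := by gcongr
        _ ≤ 1 * (1 / 200) := by gcongr
        _ ≤ σ / 200 := by linarith
    have h2 : 2 * σ / 100 ≤ ‖coef m L σ a (node J j) * (xx f g (node J j) z₁ ^ L) ^ 2 *
        ((r : ℂ) ^ (L + 1) - (r : ℂ) ^ (2 * L))‖ := by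
      have e : (r : ℂ) ^ (L + 1) - (r : ℂ) ^ (2 * L) = ((r ^ (L + 1) - r ^ (2 * L) : ℝ) : ℂ) := by push_cast; rfl
      rw [e, norm_mul, norm_mul, norm_coef h, norm_ofReal_nonneg (by linarith), norm_pow]
      have h3 : 1 ≤ (a ^ L)⁻¹ := by
        rw [one_le_inv₀ (by linarith)]; exact haL1
      calc 2 * σ / 100 ≤ σ / 2 * 1 * (66 / 100) ^ 2 * (1 / 10) := by linarith
        _ ≤ _ := by gcongr
    have h4 := norm_sub_le (GG f g (node J j) m L (coef m L σ a (node J j)) z₁ * (r : ℂ) ^ (L + 1) +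
      coef m L σ a (node J j) * (xx f g (node J j) z₁ ^ L) ^ 2 * ((r : ℂ) ^ (L + 1) - (r : ℂ) ^ (2 * L)))
      (GG f g (node J j) m L (coef m L σ a (node J j)) z₁ * (r : ℂ) ^ (L + 1))
    rw [add_sub_cancel_left] at h4
    rw [mul_comm ((r : ℂ) ^ (L + 1)) (GG f g (node J j) m L (coef m L σ a (node J j)) z₁)] at h1 ⊢
    linarith
  -- lower bound for the kernel
  have hkk : 1 / 6561 ≤ ‖kk (1 / (m : ℝ) ^ 6) (xx f g (node J j) ((r : ℂ) • z₁))‖ := by
    apply le_norm_kk (by positivity) ((norm_xx_le hg.unit _ _).trans hz)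
    rw [xx_smul]
    have hx : ‖1 - xx f g (node J j) z₁‖ ≤ b ^ 2 + (5 / 4 * A₀ * t + K * t ^ 2) + b * (K * t + K * t ^ 2) := by
      rw [hz₁, xx_new]
      have e : 1 - ((a : ℂ) * DD f g (node J j) t - b * (uu (m ^ 8) (node J j + t) * star (EE f g (node J j) t))) =
          ((1 - a : ℝ) : ℂ) + a * (1 - DD f g (node J j) t) +
            b * (uu (m ^ 8) (node J j + t) * star (EE f g (node J j) t)) := by push_cast; ring
      rw [e]
      refine (norm_add_le _ _).trans (add_le_add ((norm_add_le _ _).trans (add_le_add ?_ ?_)) ?_)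
      · rw [norm_ofReal_nonneg (by linarith [h.a_le])]; exact h.one_sub_a
      · rw [norm_mul, norm_ofReal_nonneg h.a_nonneg]
        have := hg.normD (node J j) t
        rw [abs_of_nonneg ht0] at this
        calc a * _ ≤ 1 * _ := mul_le_mul_of_nonneg_right h.a_le (norm_nonneg _)
          _ ≤ _ := by rw [one_mul]; exact this
      · rw [norm_mul, norm_ofReal_nonneg h.b_pos.le, norm_mul, norm_uu, one_mul, norm_star]
        have := hg.normE (node J j) t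
        rw [abs_of_nonneg ht0] at this
        have := h.b_pos
        gcongr
    have e2 : (1 : ℂ) + ((1 / (m : ℝ) ^ 6 : ℝ) : ℂ) - r * xx f g (node J j) z₁ =
        ((1 / (m : ℝ) ^ 6 : ℝ) : ℂ) + ((1 - r : ℝ) : ℂ) + r * (1 - xx f g (node J j) z₁) := by
      push_cast; ring
    rw [e2]
    have h1r : 1 - r ≤ A₀ / (m : ℝ) ^ 8 := by
      have := Real.add_one_le_exp (-(A₀ / (m : ℝ) ^ 8))
      rw [← hrdef] at this
      linarith
    have hb2 : b ^ 2 = A₀ / 4 / (m : ℝ) ^ 8 := by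
      have := h.bN
      push_cast at this
      rw [eq_div_iff (by positivity)]; exact this
    have hbe := h.b_eq
    -- all terms in units of 1/m^6
    set δ := 1 / (m : ℝ) ^ 6 with hδ
    have hδ0 : 0 < δ := by positivity
    have hm1 : 1 / (m : ℝ) ≤ 1 := by rw [div_le_one hM0]; exact hM
    have u1 : A₀ / (m : ℝ) ^ 8 ≤ δ * (A₀ / m) := by
      rw [hδ, div_mul_div_comm, one_mul]
      apply div_le_div_of_nonneg_left (by linarith) (by positivity)
      rw [← pow_succ]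
      exact pow_le_pow_right₀ hM (by norm_num)
    have u2 : b ^ 2 ≤ δ * (A₀ / m) := by
      refine le_trans ?_ u1
      rw [hb2]
      apply div_le_div_of_nonneg_right _ (by positivity)
      linarith
    have u3 : 5 / 4 * A₀ * t ≤ 5 / 4 * δ := by
      rw [le_div_iff₀ (by linarith)] at ht
      nlinarith
    have hδm : δ ≤ 1 / m := by
      rw [hδ]
      apply one_div_le_one_div_of_le hM0
      calc (m : ℝ) = (m : ℝ) ^ 1 := (pow_one _).symm
        _ ≤ (m : ℝ) ^ 6 := pow_le_pow_right₀ hM (by norm_num)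
    have u4 : K * t ^ 2 ≤ δ * (K / m) := by
      have : t ^ 2 ≤ δ * (1 / m) := by
        calc t ^ 2 = t * t := sq t
          _ ≤ δ * (1 / m) := mul_le_mul ht6 (ht6.trans hδm) ht0 hδ0.le
      calc K * t ^ 2 ≤ K * (δ * (1 / m)) := by gcongr
        _ = _ := by ring
    have hbm : b ≤ A₀ / m := by
      rw [hbe, div_div]
      apply div_le_div₀ (by linarith) hσA hM0
      calc (m : ℝ) ≤ (m : ℝ) ^ 4 := by
            calc (m : ℝ) = (m : ℝ) ^ 1 := (pow_one _).symm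
              _ ≤ (m : ℝ) ^ 4 := pow_le_pow_right₀ hM (by norm_num)
        _ ≤ 2 * (m : ℝ) ^ 4 := by
            have : 0 ≤ (m : ℝ) ^ 4 := by positivity
            linarith
    have u5 : b * (K * t + K * t ^ 2) ≤ δ * (2 * A₀ * K / m) := by
      have : K * t + K * t ^ 2 ≤ 2 * K * δ := by
        have h5 : t ^ 2 ≤ t := by
          have : t ≤ 1 := ht6.trans (hδm.trans hm1)
          nlinarith
        nlinarith
      have hb0 := h.b_pos
      calc b * (K * t + K * t ^ 2) ≤ (A₀ / m) * (2 * K * δ) := by gcongr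
        _ = _ := by ring
    have u6 : A₀ / m + A₀ / m + K / m + 2 * A₀ * K / m ≤ 1 / 4 := by
      have h6 : A₀ / m + A₀ / m + K / m + 2 * A₀ * K / m = (2 * A₀ + K + 2 * A₀ * K) / m := by ring
      rw [h6]
      refine le_trans (div_le_div_of_nonneg_right (?_ : _ ≤ 24 * A₀ ^ 3 * K) hM0.le) (hbig2.trans (by norm_num))
      have g1 : A₀ ≤ A₀ ^ 3 * K := by
        have : A₀ ≤ A₀ ^ 3 := by
          calc A₀ = A₀ ^ 1 := (pow_one _).symm
            _ ≤ A₀ ^ 3 := pow_le_pow_right₀ hA₀ (by norm_num)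
        nlinarith
      have g2 : K ≤ A₀ ^ 3 * K := le_mul_of_one_le_left (by linarith) (one_le_pow₀ hA₀)
      have g3 : A₀ * K ≤ A₀ ^ 3 * K := by
        apply mul_le_mul_of_nonneg_right _ (by linarith)
        calc A₀ = A₀ ^ 1 := (pow_one _).symm
          _ ≤ A₀ ^ 3 := pow_le_pow_right₀ hA₀ (by norm_num)
      nlinarith
    have n1 : ‖((δ : ℝ) : ℂ) + ((1 - r : ℝ) : ℂ) + r * (1 - xx f g (node J j) z₁)‖ ≤
        δ + (1 - r) + ‖1 - xx f g (node J j) z₁‖ := by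
      refine (norm_add_le _ _).trans (add_le_add ((norm_add_le _ _).trans ?_) ?_)
      · rw [norm_ofReal_nonneg hδ0.le, norm_ofReal_nonneg (by linarith)]
      · rw [norm_mul, norm_ofReal_nonneg hr0.le]
        exact mul_le_of_le_one_left (norm_nonneg _) hr1
    have u7 := mul_le_mul_of_nonneg_left u6 hδ0.le
    have u8 : δ * (A₀ / m + A₀ / m + K / m + 2 * A₀ * K / m) = δ * (A₀ / m) + δ * (A₀ / m) + δ * (K / m) +
      δ * (2 * A₀ * K / m) := by ring
    rw [u8] at u7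
    refine n1.trans ?_
    linarith
  -- the best node is j
  obtain ⟨j₀, hj₀, hs⟩ := sum_small hg hp h hN ((r : ℂ) • z₁) hz
  have hjj : j = j₀ := by
    by_contra hne
    have h1 : ‖kk (1 / (m : ℝ) ^ 6) (xx f g (node J j) ((r : ℂ) • z₁))‖ ≤ 13 / 10 ^ 8 := by
      refine le_trans ?_ hs
      exact Finset.single_le_sum (f := fun i => ‖kk (1 / (m : ℝ) ^ 6) (xx f g (node J i) ((r : ℂ) • z₁))‖)
        (fun _ _ => norm_nonneg _) (Finset.mem_erase.2 ⟨hne, hj⟩)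
    norm_num at h1 hkk
    linarith
  subst hjj
  rw [pp, norm_mul, norm_ofReal_nonneg (by positivity), ← Finset.add_sum_erase _ _ hj]
  have hmain : 1 / 6561 * (σ / 100) ≤ ‖term f g A m J σ a j ((r : ℂ) • z₁)‖ := by
    rw [term, norm_mul]
    gcongr
  have hrest : ‖∑ x ∈ (Finset.range J).erase j, term f g A m J σ a x ((r : ℂ) • z₁)‖ ≤ 13 / 10 ^ 8 * (2 * σ) := by
    refine (norm_sum_le _ _).trans ?_
    refine (Finset.sum_le_sum fun i _ => norm_term_le hg h i _ hz).trans ?_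
    rw [← Finset.sum_mul]
    gcongr
  have h5 := norm_sub_le (term f g A m J σ a j ((r : ℂ) • z₁) +
    ∑ x ∈ (Finset.range J).erase j, term f g A m J σ a x ((r : ℂ) • z₁))
    (∑ x ∈ (Finset.range J).erase j, term f g A m J σ a x ((r : ℂ) • z₁))
  rw [add_sub_cancel_right] at h5
  have h6 : 1 / 6561 * (σ / 100) - 13 / 10 ^ 8 * (2 * σ) ≤ ‖term f g A m J σ a j ((r : ℂ) • z₁) +
    ∑ x ∈ (Finset.range J).erase j, term f g A m J σ a x ((r : ℂ) • z₁)‖ := by linarith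
  calc (1 : ℝ) / 10 ^ 7 ≤ 1 / (5 * σ) * (1 / 6561 * (σ / 100) - 13 / 10 ^ 8 * (2 * σ)) := by
        have : 1 / (5 * σ) * (1 / 6561 * (σ / 100) - 13 / 10 ^ 8 * (2 * σ)) =
            1 / 5 * (1 / 6561 * (1 / 100) - 13 / 10 ^ 8 * 2) := by
          field_simp
        rw [this]
        norm_num
    _ ≤ _ := by gcongr

end Pool.Agent.Helper18_Henkin
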