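import Pool.Agent.Helper18_Henkin.Final

set_option autoImplicit false

open Complex Filter Topology MeasureTheory

namespace Pool.Agent.Helper18_Henkin

/-- The oscillation of the limit function along the limit curve. -/
theorem osc_limit {s : ℕ → St} (hI : ∀ k, Inv k (s k)) (hR : ∀ k, Rel k (s k) (s (k + 1)))
    {Φ : ℝ → E2} (hΦ : ∀ k θ, ‖Φ θ - (s k).Φ θ‖ ≤ (s k).τ) (hΦ1 : ∀ θ, ‖Φ θ‖ = 1)
    {F : E2 → ℂ} (hF : ∀ k z, ‖z‖ ≤ (s k).R → ‖F z - (s k).F z‖ ≤ kap) :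
    ∃ (r r' : ℕ → ℝ) (S : ℕ → Set ℝ), (∀ k, (s k).R ≤ r k ∧ r k < 1 ∧ (s k).R ≤ r' k ∧ r' k < 1) ∧
      (∀ k, MeasurableSet (S k)) ∧ (∀ k, S k ⊆ Set.Icc 0 (2 * Real.pi)) ∧
      (∀ k, ENNReal.ofReal (1 / 40) ≤ volume (S k)) ∧
      ∀ k, ∀ θ ∈ S k, 9 * kap ≤ ‖F ((r k : ℂ) • Φ θ) - F ((r' k : ℂ) • Φ θ)‖ := by
  have hosc := fun k => (hR k).osc
  choose r r' h1 h2 h3 h4 S hS1 hS2 hS3 hS4 using hosc
  refine ⟨r, r', S, fun k => ⟨h1 k, (h3 k).trans_lt (hI _).R_lt, h2 k, (h4 k).trans_lt (hI _).R_lt⟩,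
    hS1, hS2, hS3, ?_⟩
  intro k θ hθ
  have key : ∀ ρ : ℝ, 0 ≤ ρ → ρ ≤ (s (k + 1)).R →
      ‖F ((ρ : ℂ) • Φ θ) - (s (k + 1)).F ((ρ : ℂ) • (s (k + 1)).Φ θ)‖ ≤ 2 * kap := by
    intro ρ hρ0 hρ
    have hρ1 : ρ ≤ 1 := hρ.trans (hI _).R_lt.le
    have n1 : ‖(ρ : ℂ) • Φ θ‖ ≤ (s (k + 1)).R := by
      rw [norm_smul, norm_ofReal_nonneg hρ0, hΦ1, mul_one]; exact hρ
    have n2 := hF (k + 1) _ n1
    have n3 : ‖(s (k + 1)).F ((ρ : ℂ) • Φ θ) - (s (k + 1)).F ((ρ : ℂ) • (s (k + 1)).Φ θ)‖ ≤ kap := by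
      refine (hI (k + 1)).modu _ _ (n1.trans (hI _).R_lt.le)
        (norm_smul_le_one hρ0 hρ1 ((hI (k + 1)).normΦ θ).le) ?_
      rw [← smul_sub, norm_smul, norm_ofReal_nonneg hρ0]
      have := hΦ (k + 1) θ
      have := norm_nonneg (Φ θ - (s (k + 1)).Φ θ)
      nlinarith
    have e : F ((ρ : ℂ) • Φ θ) - (s (k + 1)).F ((ρ : ℂ) • (s (k + 1)).Φ θ) =
      (F ((ρ : ℂ) • Φ θ) - (s (k + 1)).F ((ρ : ℂ) • Φ θ)) +
      ((s (k + 1)).F ((ρ : ℂ) • Φ θ) - (s (k + 1)).F ((ρ : ℂ) • (s (k + 1)).Φ θ)) := by ring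
    rw [e]
    refine (norm_add_le _ _).trans ?_
    linarith
  have k1 := key (r k) ((hI k).R_pos.le.trans (h1 k)) (h3 k)
  have k2 := key (r' k) ((hI k).R_pos.le.trans (h2 k)) (h4 k)
  have k3 := hS4 k θ hθ
  set a := F ((r k : ℂ) • Φ θ)
  set b := F ((r' k : ℂ) • Φ θ)
  set a' := (s (k + 1)).F ((r k : ℂ) • (s (k + 1)).Φ θ)
  set b' := (s (k + 1)).F ((r' k : ℂ) • (s (k + 1)).Φ θ)
  have e : a' - b' = (a - b) - ((a - a') - (b - b')) := by ring
  rw [e] at k3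
  have k4 := norm_sub_le (a - b) ((a - a') - (b - b'))
  have k5 := norm_sub_le (a - a') (b - b')
  linarith

/-- No radial limit at a point of the curve which lies in infinitely many of the sets. -/
theorem no_limit {s : ℕ → St} (hI : ∀ k, Inv k (s k)) {F : E2 → ℂ} {r r' : ℕ → ℝ}
    (hr : ∀ k, (s k).R ≤ r k ∧ r k < 1 ∧ (s k).R ≤ r' k ∧ r' k < 1) {ζ : E2}
    (hfreq : ∃ᶠ k in atTop, 9 * kap ≤ ‖F ((r k : ℂ) • ζ) - F ((r' k : ℂ) • ζ)‖) :
    ¬ ∃ L : ℂ, Tendsto (fun r : ℝ => F ((r : ℂ) • ζ)) (𝓝[<] 1) (𝓝 L) := by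
  rintro ⟨L, hL⟩
  have hkap := kap_pos
  have t1 : Tendsto r atTop (𝓝[<] 1) := by
    refine tendsto_nhdsWithin_iff.2 ⟨?_, Eventually.of_forall fun k => (hr k).2.1⟩
    exact tendsto_of_tendsto_of_tendsto_of_le_of_le (R_tendsto hI) tendsto_const_nhds
      (fun k => (hr k).1) fun k => (hr k).2.1.le
  have t2 : Tendsto r' atTop (𝓝[<] 1) := by
    refine tendsto_nhdsWithin_iff.2 ⟨?_, Eventually.of_forall fun k => (hr k).2.2.2⟩
    exact tendsto_of_tendsto_of_tendsto_of_le_of_le (R_tendsto hI) tendsto_const_nhds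
      (fun k => (hr k).2.2.1) fun k => (hr k).2.2.2.le
  have t3 := ((hL.comp t1).sub (hL.comp t2)).norm
  rw [sub_self, norm_zero] at t3
  have t4 := t3.eventually (gt_mem_nhds (show (0 : ℝ) < 9 * kap by positivity))
  obtain ⟨k, hk1, hk2⟩ := (hfreq.and_eventually t4).exists
  simp only [Function.comp] at hk2
  linarith

/-- The set of parameters lying in infinitely many of the sets has positive measure. -/
theorem volume_frequently {S : ℕ → Set ℝ} (hS : ∀ k, MeasurableSet (S k))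
    (hSs : ∀ k, S k ⊆ Set.Icc 0 (2 * Real.pi)) (hSv : ∀ k, ENNReal.ofReal (1 / 40) ≤ volume (S k)) :
    ENNReal.ofReal (1 / 40) ≤ volume {θ | ∃ᶠ k in atTop, θ ∈ S k} := by
  have e : {θ | ∃ᶠ k in atTop, θ ∈ S k} = ⋂ n : ℕ, ⋃ k, ⋃ (_ : n ≤ k), S k := by
    ext θ
    simp only [Set.mem_ofPred_eq, frequently_atTop, Set.mem_iInter, Set.mem_iUnion, exists_prop]
  rw [e]
  have h1 : Tendsto (volume ∘ fun n : ℕ => ⋃ k, ⋃ (_ : n ≤ k), S k) atTop
      (𝓝 (volume (⋂ n : ℕ, ⋃ k, ⋃ (_ : n ≤ k), S k))) := by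
    refine tendsto_measure_iInter_atTop (fun n => ?_) ?_ ?_
    · exact (MeasurableSet.iUnion fun k => MeasurableSet.iUnion fun _ => hS k).nullMeasurableSet
    · intro m n hmn
      refine Set.iUnion_mono fun k => ?_
      intro θ hθ
      simp only [Set.mem_iUnion, exists_prop] at hθ ⊢
      exact ⟨hmn.trans hθ.1, hθ.2⟩
    · refine ⟨0, ?_⟩
      refine ne_top_of_le_ne_top ?_ (measure_mono (t := Set.Icc 0 (2 * Real.pi)) ?_)
      · rw [Real.volume_Icc]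
        exact ENNReal.ofReal_ne_top
      · exact Set.iUnion_subset fun k => Set.iUnion_subset fun _ => hSs k
  refine ge_of_tendsto' h1 fun n => ?_
  refine (hSv n).trans (measure_mono ?_)
  exact Set.subset_iUnion_of_subset n (Set.subset_iUnion_of_subset le_rfl subset_rfl)

/-- The mean value property of the limit curve. -/
theorem mean_limit {s : ℕ → St} (hI : ∀ k, Inv k (s k)) {Φ : ℝ → E2}
    (hlim : ∀ θ, Tendsto (fun k => (s k).Φ θ) atTop (𝓝 (Φ θ))) (hΦ1 : ∀ θ, ‖Φ θ‖ = 1)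
    (H : E2 → ℂ) (hc : ContinuousOn H (Metric.closedBall 0 1)) (hd : DifferentiableOn ℂ H (Metric.ball 0 1)) :
    (2 * Real.pi)⁻¹ • ∫ θ in (0 : ℝ)..2 * Real.pi, H (Φ θ) = H 0 := by
  obtain ⟨C, hC⟩ := (isCompact_closedBall (0 : E2) 1).exists_bound_of_continuousOn hc
  have h1 : Tendsto (fun k => ∫ θ in (0 : ℝ)..2 * Real.pi, H ((s k).Φ θ)) atTop
      (𝓝 (∫ θ in (0 : ℝ)..2 * Real.pi, H (Φ θ))) := by
    refine intervalIntegral.tendsto_integral_filter_of_dominated_convergence (fun _ => C) ?_ ?_ ?_ ?_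
    · refine Eventually.of_forall fun k => ?_
      have : Continuous fun θ => H ((s k).Φ θ) := by
        refine hc.comp_continuous (continuous_pt (hI k).poly.continuous.1 (hI k).poly.continuous.2) fun θ => ?_
        have := (hI k).normΦ θ
        simpa [St.Φ] using this.le
      exact this.aestronglyMeasurable
    · refine Eventually.of_forall fun k => Eventually.of_forall fun θ _ => ?_
      refine hC _ ?_
      have := (hI k).normΦ θ
      simpa using this.le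
    · exact intervalIntegrable_const
    · refine Eventually.of_forall fun θ _ => ?_
      have hcw : ContinuousWithinAt H (Metric.closedBall 0 1) (Φ θ) := hc _ (by simpa using (hΦ1 θ).le)
      refine hcw.tendsto.comp (tendsto_nhdsWithin_iff.2 ⟨hlim θ, Eventually.of_forall fun k => ?_⟩)
      have := (hI k).normΦ θ
      simpa using this.le
  have h2 := h1.const_smul (2 * Real.pi)⁻¹
  have h3 : (fun k => (2 * Real.pi)⁻¹ • ∫ θ in (0 : ℝ)..2 * Real.pi, H ((s k).Φ θ)) = fun _ => H 0 := by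
    funext k
    obtain ⟨A, B, A₀, K, c, hg⟩ := (hI k).good
    exact (hI k).poly.mean_value hg.unit H hc hd
  rw [h3] at h2
  exact (tendsto_nhds_unique h2 tendsto_const_nhds)

/-- The counterexample in dimension two. -/
theorem counterexample : ∃ F : E2 → ℂ, DifferentiableOn ℂ F (Metric.ball 0 1) ∧
    (∃ C : ℝ, ∀ z ∈ Metric.ball (0 : E2) 1, ‖F z‖ ≤ C) ∧
    ∃ ρ : Measure E2, IsFiniteMeasure ρ ∧ ρ (Metric.sphere (0 : E2) 1)ᶜ = 0 ∧
      (∀ g : E2 → ℂ, ContinuousOn g (Metric.closedBall 0 1) → DifferentiableOn ℂ g (Metric.ball 0 1) →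
        ∫ z, g z ∂ρ = g 0) ∧
      ρ {ζ | ζ ∈ Metric.sphere (0 : E2) 1 ∧
        ¬ ∃ L : ℂ, Tendsto (fun r : ℝ => F ((r : ℂ) • ζ)) (𝓝[<] 1) (𝓝 L)} ≠ 0 := by
  obtain ⟨s, hI, hR⟩ := exists_seq
  obtain ⟨Φ, hΦ1, hΦ2, hΦ3, hΦ4⟩ := exists_curve hI hR
  obtain ⟨F, hF1, hF2⟩ := exists_function hI hR
  obtain ⟨r, r', S, hr, hS1, hS2, hS3, hS4⟩ := osc_limit hI hR hΦ2 hΦ4 hF2
  have hpi := Real.pi_pos
  set μ : Measure ℝ := ENNReal.ofReal (2 * Real.pi)⁻¹ • volume.restrict (Set.Ioc 0 (2 * Real.pi)) with hμ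
  have hfin : IsFiniteMeasure μ := by
    refine ⟨?_⟩
    rw [hμ, Measure.smul_apply, Measure.restrict_apply_univ, Real.volume_Ioc, smul_eq_mul]
    exact ENNReal.mul_lt_top ENNReal.ofReal_lt_top ENNReal.ofReal_lt_top
  refine ⟨F, fun z hz => ?_, ⟨3, fun z hz => ?_⟩, Measure.map Φ μ, ?_, ?_, ?_, ?_⟩
  · exact (hF1 z (by simpa using hz)).differentiableWithinAt
  · have hz' : ‖z‖ < 1 := by simpa using hz
    obtain ⟨k, hk⟩ := ((R_tendsto hI).eventually (lt_mem_nhds hz')).exists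
    have h1 := hF2 k z hk.le
    have h2 := (hI k).bd z hz'.le
    have h3 := norm_sub_norm_le (F z) ((s k).F z)
    have h4 : (0 : ℝ) < (1 / 2) ^ k := by positivity
    have h5 : kap ≤ 1 := by unfold kap; norm_num
    linarith
  · exact Measure.isFiniteMeasure_map μ Φ
  · rw [Measure.map_apply hΦ3.measurable Metric.isClosed_sphere.measurableSet.compl]
    have : Φ ⁻¹' (Metric.sphere (0 : E2) 1)ᶜ = ∅ := by
      ext θ
      simp [hΦ4 θ]
    rw [this, measure_empty]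
  · intro g hc hd
    have hmem : ∀ᵐ z ∂(Measure.map Φ μ), z ∈ Metric.closedBall (0 : E2) 1 := by
      refine (ae_map_iff (p := fun z => z ∈ Metric.closedBall (0 : E2) 1) hΦ3.aemeasurable
        Metric.isClosed_closedBall.measurableSet).2 ?_
      refine Eventually.of_forall fun θ => ?_
      simpa using (hΦ4 θ).le
    have hm : AEStronglyMeasurable g (Measure.map Φ μ) := by
      have h1 := hc.aestronglyMeasurable (μ := Measure.map Φ μ) Metric.isClosed_closedBall.measurableSet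
      rwa [Measure.restrict_eq_self_of_ae_mem hmem] at h1
    rw [integral_map hΦ3.aemeasurable hm, hμ, integral_smul_measure,
      ENNReal.toReal_ofReal (by positivity), ← intervalIntegral.integral_of_le (by positivity)]
    exact mean_limit hI hΦ1 hΦ4 g hc hd
  · intro h0
    have h1 := Measure.preimage_null_of_map_null hΦ3.aemeasurable h0
    have h2 : {θ | ∃ᶠ k in atTop, θ ∈ S k} ⊆ Φ ⁻¹' {ζ | ζ ∈ Metric.sphere (0 : E2) 1 ∧
        ¬ ∃ L : ℂ, Tendsto (fun r : ℝ => F ((r : ℂ) • ζ)) (𝓝[<] 1) (𝓝 L)} := by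
      intro θ hθ
      refine ⟨by simp [hΦ4 θ], ?_⟩
      exact no_limit hI hr (hθ.mono fun k hk => hS4 k θ hk)
    have h3 : μ {θ | ∃ᶠ k in atTop, θ ∈ S k} = 0 := measure_mono_null h2 h1
    have h4 := volume_frequently hS1 hS2 hS3
    have h5 : {θ | ∃ᶠ k in atTop, θ ∈ S k} ⊆ Set.Icc 0 (2 * Real.pi) := by
      intro θ hθ
      obtain ⟨k, hk⟩ := (hθ : ∃ᶠ k in atTop, θ ∈ S k).exists
      exact hS2 k hk
    have hmeas : MeasurableSet {θ | ∃ᶠ k in atTop, θ ∈ S k} := by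
      have : {θ | ∃ᶠ k in atTop, θ ∈ S k} = limsup S atTop := by
        rw [limsup_eq_iInf_iSup_of_nat]
        ext θ
        simp [frequently_atTop]
      rw [this]
      exact MeasurableSet.measurableSet_limsup hS1
    rw [hμ, Measure.smul_apply, smul_eq_mul, Measure.restrict_congr_set Ioc_ae_eq_Icc,
      Measure.restrict_apply hmeas, Set.inter_eq_left.2 h5] at h3
    rcases mul_eq_zero.1 h3 with h | h
    · rw [ENNReal.ofReal_eq_zero] at h
      have : (0 : ℝ) < (2 * Real.pi)⁻¹ := by positivity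
      linarith
    · rw [h] at h4
      simp at h4

end Pool.Agent.Helper18_Henkin
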