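import Pool.Agent.Helper18_Henkin.Peak

set_option autoImplicit false

open Complex

namespace Pool.Agent.Helper18_Henkin

variable {f g : ℝ → ℂ} {A : ℝ → ℝ} {B : ℝ → ℂ} {A₀ K c : ℝ}

theorem xx_pt (θ t : ℝ) : xx f g θ (pt (f (θ + t)) (g (θ + t))) = DD f g θ t := rfl

/-- Cyclic difference of two indices. -/
theorem cyc (J i j : ℕ) (hi : i < J) (hj : j < J) (hne : i ≠ j) :
    ∃ k n : ℤ, (k = 0 ∨ k = 1 ∨ k = -1) ∧ n ≠ 0 ∧ (i : ℤ) - j = n + k * J ∧ 2 * |n| ≤ J := by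
  rcases le_or_gt (2 * |(i : ℤ) - j|) J with h | h
  · exact ⟨0, (i : ℤ) - j, Or.inl rfl, by omega, by ring, h⟩
  · rcases lt_or_gt_of_ne hne with h1 | h1
    · refine ⟨-1, (i : ℤ) - j + J, Or.inr (Or.inr rfl), by omega, by ring, ?_⟩
      rw [abs_of_neg (by omega)] at h
      rw [abs_of_nonneg (by omega)]
      omega
    · refine ⟨1, (i : ℤ) - j - J, Or.inr (Or.inl rfl), by omega, by ring, ?_⟩
      rw [abs_of_pos (by omega)] at h
      rw [abs_of_neg (by omega)]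
      omega

/-- Separation of the points of the curve. -/
theorem Good.sep (h : Good f g A B A₀ K c) (θ t : ℝ) (ht : |t| ≤ Real.pi) :
    A₀ / 2 * |t| ≤ ‖1 - DD f g θ t‖ ∨ c * (A₀ / (4 * K)) ≤ ‖1 - DD f g θ t‖ := by
  have hK := h.K_ge
  have hA₀ := h.A₀_ge
  have hc := h.c_pos
  rcases le_total |t| (A₀ / (4 * K)) with h1 | h1
  · left
    have hA2 := h.le_A θ
    have h2 := h.hD θ t
    have h3 : A θ * |t| = ‖I * (A θ) * t‖ := by
      rw [norm_mul, norm_mul, Complex.norm_I, one_mul, Complex.norm_real, Complex.norm_real,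
        Real.norm_eq_abs, Real.norm_eq_abs, abs_of_nonneg (by linarith : 0 ≤ A θ)]
    have h4 : ‖I * (A θ) * t‖ ≤ ‖1 - DD f g θ t‖ + ‖DD f g θ t - 1 - I * (A θ) * t‖ := by
      have h41 : I * (A θ) * t = -(1 - DD f g θ t) - (DD f g θ t - 1 - I * (A θ) * t) := by ring
      calc ‖I * (A θ) * t‖ = ‖-(1 - DD f g θ t) - (DD f g θ t - 1 - I * (A θ) * t)‖ := congrArg _ h41
        _ ≤ _ := by
          refine (norm_sub_le _ _).trans ?_
          rw [norm_neg]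
    have h5 : K * t ^ 2 ≤ A₀ / 4 * |t| := by
      rw [le_div_iff₀ (by positivity)] at h1
      have : t ^ 2 = |t| * |t| := by rw [← sq, sq_abs]
      rw [this]
      nlinarith [abs_nonneg t]
    have h6 : 3 / 4 * A₀ * |t| ≤ A θ * |t| := by gcongr
    nlinarith
  · right
    refine le_trans ?_ (h.low θ t ht)
    gcongr

/-- The sum of the peak kernels away from the best node is small. -/
theorem sum_kk (h : Good f g A B A₀ K c) (hp : IsPoly f g) {J : ℕ} (hJ : 0 < J) {δ R : ℝ} (hδ : 0 < δ)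
    (hR : 12 ≤ R) (hs : R * δ ≤ A₀ * (2 * Real.pi / J)) (z : E2) (hz : ‖z‖ ≤ 1) :
    ∃ j₀ ∈ Finset.range J, ∑ i ∈ (Finset.range J).erase j₀, ‖kk δ (xx f g (i * (2 * Real.pi / J)) z)‖ ≤
      12 * (12 / R) ^ 8 + J * (24 * K * δ / (c * A₀)) ^ 8 := by
  have hK := h.K_ge
  have hA₀ := h.A₀_ge
  have hc := h.c_pos
  have hu := h.unit
  set s : ℝ := 2 * Real.pi / J with hsdef
  have hJ' : (0 : ℝ) < J := by exact_mod_cast hJ
  have hspos : 0 < s := by positivity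
  have hJs : J * s = 2 * Real.pi := by rw [hsdef]; field_simp
  obtain ⟨j₀, hj₀, hmin⟩ := Finset.exists_min_image (Finset.range J)
    (fun i : ℕ => ‖1 - xx f g (i * s) z‖) ⟨0, Finset.mem_range.2 hJ⟩
  refine ⟨j₀, hj₀, ?_⟩
  have hj₀' := Finset.mem_range.1 hj₀
  have hterm : ∀ i ∈ (Finset.range J).erase j₀, ‖kk δ (xx f g (i * s) z)‖ ≤
      (12 / R) ^ 8 * (1 / (((i : ℤ) - (j₀ : ℤ) : ℤ) : ℝ) ^ 2 + 1 / (((i : ℤ) - ((j₀ : ℤ) + J) : ℤ) : ℝ) ^ 2 +
        1 / (((i : ℤ) - ((j₀ : ℤ) - J) : ℤ) : ℝ) ^ 2) + (24 * K * δ / (c * A₀)) ^ 8 := by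
    intro i hi
    rw [Finset.mem_erase, Finset.mem_range] at hi
    obtain ⟨k, n, hk, hn0, hkn, hn⟩ := cyc J i j₀ hi.2 hj₀' hi.1
    have hxi : ‖xx f g (i * s) z‖ ≤ 1 := (norm_xx_le hu _ z).trans hz
    -- the angle
    have hθ : (i : ℝ) * s = (j₀ * s + n * s) + k * (2 * Real.pi) := by
      have : (i : ℝ) - j₀ = n + k * J := by exact_mod_cast hkn
      rw [← hJs]
      linear_combination s * this
    have hper := hp.periodic (j₀ * s + n * s) k
    rw [← hθ] at hper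
    have hns : |(n : ℝ) * s| ≤ Real.pi := by
      rw [abs_mul, abs_of_pos hspos]
      have : 2 * |(n : ℝ)| ≤ J := by exact_mod_cast hn
      nlinarith
    have hq := quasi_triangle hu (j₀ * s) (i * s) z hz
    rw [hper.1, hper.2, xx_pt] at hq
    have hm : ‖1 - xx f g (j₀ * s) z‖ ≤ ‖1 - xx f g (i * s) z‖ := hmin i (Finset.mem_range.2 hi.2)
    have hq6 : ‖1 - DD f g (j₀ * s) (n * s)‖ ≤ 6 * ‖1 - xx f g (i * s) z‖ := by linarith
    have hn1 : (1 : ℝ) ≤ |(n : ℝ)| := by exact_mod_cast Int.one_le_abs hn0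
    have hRpos : 0 < R := by linarith
    -- bound `1/n²` by the sum
    have hsum3 : (1 : ℝ) / (n : ℝ) ^ 2 ≤ 1 / (((i : ℤ) - (j₀ : ℤ) : ℤ) : ℝ) ^ 2 +
        1 / (((i : ℤ) - ((j₀ : ℤ) + J) : ℤ) : ℝ) ^ 2 + 1 / (((i : ℤ) - ((j₀ : ℤ) - J) : ℤ) : ℝ) ^ 2 := by
      have p1 : (0 : ℝ) ≤ 1 / (((i : ℤ) - (j₀ : ℤ) : ℤ) : ℝ) ^ 2 := by positivity
      have p2 : (0 : ℝ) ≤ 1 / (((i : ℤ) - ((j₀ : ℤ) + J) : ℤ) : ℝ) ^ 2 := by positivity
      have p3 : (0 : ℝ) ≤ 1 / (((i : ℤ) - ((j₀ : ℤ) - J) : ℤ) : ℝ) ^ 2 := by positivity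
      rcases hk with rfl | rfl | rfl
      · have : n = (i : ℤ) - j₀ := by linarith
        rw [this]; linarith
      · have : n = (i : ℤ) - (j₀ + J) := by linarith
        rw [this]; linarith
      · have : n = (i : ℤ) - (j₀ - J) := by linarith
        rw [this]; linarith
    have pfar : 0 ≤ (24 * K * δ / (c * A₀)) ^ 8 := by positivity
    have pnear : 0 ≤ (12 / R) ^ 8 := by positivity
    rcases h.sep (j₀ * s) (n * s) hns with hnear | hfar
    · -- near case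
      have h1 : |(n : ℝ)| * R * δ / 12 ≤ ‖1 - xx f g (i * s) z‖ := by
        rw [abs_mul, abs_of_pos hspos] at hnear
        have : |(n : ℝ)| * (R * δ) ≤ |(n : ℝ)| * (A₀ * s) := by gcongr
        nlinarith
      have h2 := norm_kk_le hδ hxi (by positivity) h1
      have h3 : δ / (|(n : ℝ)| * R * δ / 12) = (12 / R) * (1 / |(n : ℝ)|) := by
        field_simp
      rw [h3, mul_pow] at h2
      have h4 : (1 / |(n : ℝ)|) ^ 8 ≤ 1 / (n : ℝ) ^ 2 := by
        rw [one_div_pow, ← sq_abs (n : ℝ)]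
        apply one_div_le_one_div_of_le (by positivity)
        exact pow_le_pow_right₀ hn1 (by norm_num)
      have h5 := mul_le_mul_of_nonneg_left hsum3 pnear
      have h6 := mul_le_mul_of_nonneg_left h4 pnear
      linarith
    · -- far case
      have h1 : c * (A₀ / (4 * K)) / 6 ≤ ‖1 - xx f g (i * s) z‖ := by linarith
      have h2 := norm_kk_le hδ hxi (by positivity) h1
      have h3 : δ / (c * (A₀ / (4 * K)) / 6) = 24 * K * δ / (c * A₀) := by
        field_simp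
        ring
      rw [h3] at h2
      have p1 : (0 : ℝ) ≤ 1 / (n : ℝ) ^ 2 := by positivity
      have : 0 ≤ (12 / R) ^ 8 * (1 / (((i : ℤ) - (j₀ : ℤ) : ℤ) : ℝ) ^ 2 +
        1 / (((i : ℤ) - ((j₀ : ℤ) + J) : ℤ) : ℝ) ^ 2 + 1 / (((i : ℤ) - ((j₀ : ℤ) - J) : ℤ) : ℝ) ^ 2) := by
        positivity
      linarith
  refine (Finset.sum_le_sum hterm).trans ?_
  rw [Finset.sum_add_distrib, ← Finset.mul_sum, Finset.sum_add_distrib, Finset.sum_add_distrib,
    Finset.sum_const, nsmul_eq_mul]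
  have s1 := sum_shift_inv_sq ((Finset.range J).erase j₀) (j₀ : ℤ)
  have s2 := sum_shift_inv_sq ((Finset.range J).erase j₀) ((j₀ : ℤ) + J)
  have s3 := sum_shift_inv_sq ((Finset.range J).erase j₀) ((j₀ : ℤ) - J)
  have hcard : (((Finset.range J).erase j₀).card : ℝ) ≤ J := by
    have := Finset.card_erase_le (s := Finset.range J) (a := j₀)
    rw [Finset.card_range] at this
    exact_mod_cast this
  have hRpos : 0 < R := by linarith
  have pnear : 0 ≤ (12 / R) ^ 8 := by positivity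
  have pfar : 0 ≤ (24 * K * δ / (c * A₀)) ^ 8 := by positivity
  apply add_le_add
  · calc (12 / R) ^ 8 * _ ≤ (12 / R) ^ 8 * 12 := mul_le_mul_of_nonneg_left (by linarith) pnear
      _ = _ := by ring
  · gcongr

end Pool.Agent.Helper18_Henkin
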