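import Pool.Agent.Helper18_Henkin.Poly

set_option autoImplicit false

open Complex

namespace Pool.Agent.Helper18_Henkin

variable {f g : ℝ → ℂ} {A : ℝ → ℝ} {B : ℝ → ℂ} {A₀ K c : ℝ}

/-- `⟨z, Φ(θ)⟩`. -/
noncomputable def xx (f g : ℝ → ℂ) (θ : ℝ) (z : E2) : ℂ := z 0 * star (f θ) + z 1 * star (g θ)

/-- `⟨z, Φ^⊥(θ)⟩`. -/
noncomputable def yy (f g : ℝ → ℂ) (θ : ℝ) (z : E2) : ℂ := z 1 * f θ - z 0 * g θ

theorem xx_eq_inner (θ : ℝ) (z : E2) : xx f g θ z = inner ℂ (pt (f θ) (g θ)) z := by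
  simp [xx, PiLp.inner_apply, Fin.sum_univ_two]
  

theorem xx_sq_add_yy_sq (hu : ∀ θ, ‖f θ‖ ^ 2 + ‖g θ‖ ^ 2 = 1) (θ : ℝ) (z : E2) :
    ‖xx f g θ z‖ ^ 2 + ‖yy f g θ z‖ ^ 2 = ‖z‖ ^ 2 := by
  have h1 : ((‖xx f g θ z‖ ^ 2 + ‖yy f g θ z‖ ^ 2 : ℝ) : ℂ) = ((‖z‖ ^ 2 : ℝ) : ℂ) := by
    have h2 : ((‖f θ‖ ^ 2 + ‖g θ‖ ^ 2 : ℝ) : ℂ) = 1 := by rw [hu θ]; simp
    rw [norm_sq_eq]
    push_cast at h2 ⊢
    simp only [← Complex.mul_conj'] at h2 ⊢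
    simp only [xx, yy, Complex.star_def, map_add, map_sub, map_mul, Complex.conj_conj]
    linear_combination (z 0 * (starRingEnd ℂ) (z 0) + z 1 * (starRingEnd ℂ) (z 1)) * h2
  exact_mod_cast h1

theorem norm_xx_le (hu : ∀ θ, ‖f θ‖ ^ 2 + ‖g θ‖ ^ 2 = 1) (θ : ℝ) (z : E2) : ‖xx f g θ z‖ ≤ ‖z‖ := by
  have := xx_sq_add_yy_sq hu θ z
  have h2 : ‖xx f g θ z‖ ^ 2 ≤ ‖z‖ ^ 2 := by nlinarith [sq_nonneg ‖yy f g θ z‖]
  exact (pow_le_pow_iff_left₀ (norm_nonneg _) (norm_nonneg _) two_ne_zero).1 h2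

theorem norm_pt_one (hu : ∀ θ, ‖f θ‖ ^ 2 + ‖g θ‖ ^ 2 = 1) (θ : ℝ) : ‖pt (f θ) (g θ)‖ = 1 := by
  have h1 := norm_sq_pt (f θ) (g θ)
  rw [hu θ] at h1
  have h2 := norm_nonneg (pt (f θ) (g θ))
  nlinarith

/-- `‖z - ζ‖² ≤ 2 ‖1 - ⟨z, ζ⟩‖`. -/
theorem norm_sub_sq_le (hu : ∀ θ, ‖f θ‖ ^ 2 + ‖g θ‖ ^ 2 = 1) (θ : ℝ) (z : E2) (hz : ‖z‖ ≤ 1) :
    ‖pt (f θ) (g θ) - z‖ ^ 2 ≤ 2 * ‖1 - xx f g θ z‖ := by
  have h1 := norm_sub_sq (𝕜 := ℂ) (pt (f θ) (g θ)) z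
  rw [← xx_eq_inner, norm_pt_one hu] at h1
  have h2 : 1 - (xx f g θ z).re ≤ ‖1 - xx f g θ z‖ := by
    have := Complex.re_le_norm (1 - xx f g θ z)
    simpa using this
  have h3 : ‖z‖ ^ 2 ≤ 1 := pow_le_one₀ (norm_nonneg _) hz
  simp only [RCLike.re_eq_complex_re] at h1
  nlinarith

/-- Quasi-triangle inequality. -/
theorem quasi_triangle (hu : ∀ θ, ‖f θ‖ ^ 2 + ‖g θ‖ ^ 2 = 1) (θ θ' : ℝ) (z : E2) (hz : ‖z‖ ≤ 1) :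
    ‖1 - xx f g θ (pt (f θ') (g θ'))‖ ≤ 3 * (‖1 - xx f g θ z‖ + ‖1 - xx f g θ' z‖) := by
  set ζ := pt (f θ) (g θ) with hζ
  set ζ' := pt (f θ') (g θ') with hζ'
  have e1 : 1 - inner ℂ ζ ζ' = (1 - inner ℂ z ζ') + (1 - inner ℂ ζ z) - (1 - inner ℂ z z) +
      inner ℂ (z - ζ) (ζ' - z) := by
    rw [inner_sub_left, inner_sub_right, inner_sub_right]
    ring
  have hx : ‖1 - inner ℂ z ζ'‖ = ‖1 - xx f g θ' z‖ := by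
    rw [xx_eq_inner, ← inner_conj_symm, ← norm_star, Complex.star_def, map_sub, map_one, Complex.conj_conj]
  have n1 : ‖(inner ℂ (z - ζ) (ζ' - z) : ℂ)‖ ≤ ‖1 - xx f g θ z‖ + ‖1 - xx f g θ' z‖ := by
    refine (norm_inner_le_norm _ _).trans ?_
    have h1 := norm_sub_sq_le hu θ z hz
    have h2 := norm_sub_sq_le hu θ' z hz
    rw [norm_sub_rev] at h1
    nlinarith [sq_nonneg (‖z - ζ‖ - ‖ζ' - z‖)]
  have n2 : ‖(1 : ℂ) - inner ℂ z z‖ ≤ ‖1 - xx f g θ z‖ + ‖1 - xx f g θ' z‖ := by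
    rw [inner_self_eq_norm_sq_to_K]
    have h0 : ‖(1 : ℂ) - (RCLike.ofReal ‖z‖ : ℂ) ^ 2‖ = 1 - ‖z‖ ^ 2 := by
      have : (1 : ℂ) - (RCLike.ofReal ‖z‖ : ℂ) ^ 2 = ((1 - ‖z‖ ^ 2 : ℝ) : ℂ) := by push_cast; rfl
      rw [this, Complex.norm_real, Real.norm_eq_abs, abs_of_nonneg]
      nlinarith [pow_le_one₀ (n := 2) (norm_nonneg _) hz]
    rw [h0]
    have h3 : ∀ η : ℝ, 1 - ‖z‖ ≤ ‖1 - xx f g η z‖ := by
      intro η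
      have h4 := norm_sub_norm_le (1 : ℂ) (xx f g η z)
      rw [norm_one] at h4
      linarith [norm_xx_le hu η z]
    nlinarith [h3 θ, h3 θ', norm_nonneg z]
  rw [xx_eq_inner, ← hζ, e1]
  calc _ ≤ ‖(1 - inner ℂ z ζ') + (1 - inner ℂ ζ z) - (1 - inner ℂ z z)‖ + ‖(inner ℂ (z - ζ) (ζ' - z) : ℂ)‖ :=
        norm_add_le _ _
    _ ≤ (‖(1 - inner ℂ z ζ') + (1 - inner ℂ ζ z)‖ + ‖(1 : ℂ) - inner ℂ z z‖) + _ := by
        gcongr; exact norm_sub_le _ _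
    _ ≤ ((‖(1 : ℂ) - inner ℂ z ζ'‖ + ‖(1 : ℂ) - inner ℂ ζ z‖) + ‖(1 : ℂ) - inner ℂ z z‖) + _ := by
        gcongr; exact norm_add_le _ _
    _ ≤ _ := by
        rw [hx, ← xx_eq_inner]
        linarith

/-- The peak kernel. -/
noncomputable def kk (δ : ℝ) (x : ℂ) : ℂ := ((δ : ℂ) / (1 + δ - x)) ^ 8

theorem norm_den_ge {δ : ℝ} (hδ : 0 < δ) {x : ℂ} (hx : ‖x‖ ≤ 1) :
    δ ≤ ‖(1 : ℂ) + δ - x‖ ∧ ‖1 - x‖ ≤ ‖(1 : ℂ) + δ - x‖ := by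
  have hre : x.re ≤ 1 := (Complex.re_le_norm x).trans hx
  constructor
  · have := Complex.re_le_norm ((1 : ℂ) + δ - x)
    simp at this
    linarith
  · rw [← pow_le_pow_iff_left₀ (norm_nonneg _) (norm_nonneg _) two_ne_zero, ← Complex.normSq_eq_norm_sq,
      ← Complex.normSq_eq_norm_sq, Complex.normSq_apply, Complex.normSq_apply]
    simp
    nlinarith

theorem norm_kk_le_one {δ : ℝ} (hδ : 0 < δ) {x : ℂ} (hx : ‖x‖ ≤ 1) : ‖kk δ x‖ ≤ 1 := by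
  rw [kk, norm_pow, norm_div, Complex.norm_real, Real.norm_eq_abs, abs_of_pos hδ]
  have h1 := (norm_den_ge hδ hx).1
  exact pow_le_one₀ (by positivity) (div_le_one_of_le₀ h1 (norm_nonneg _))

theorem norm_kk_le {δ : ℝ} (hδ : 0 < δ) {x : ℂ} (hx : ‖x‖ ≤ 1) {d : ℝ} (hd : 0 < d) (hxd : d ≤ ‖1 - x‖) :
    ‖kk δ x‖ ≤ (δ / d) ^ 8 := by
  rw [kk, norm_pow, norm_div, Complex.norm_real, Real.norm_eq_abs, abs_of_pos hδ]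
  have h1 := (norm_den_ge hδ hx).2
  gcongr
  exact hxd.trans h1

theorem le_norm_kk {δ : ℝ} (hδ : 0 < δ) {x : ℂ} (hx : ‖x‖ ≤ 1) (h : ‖(1 : ℂ) + δ - x‖ ≤ 3 * δ) :
    1 / 6561 ≤ ‖kk δ x‖ := by
  rw [kk, norm_pow, norm_div, Complex.norm_real, Real.norm_eq_abs, abs_of_pos hδ]
  have h1 := (norm_den_ge hδ hx).1
  have h2 : 0 < ‖(1 : ℂ) + δ - x‖ := by linarith
  have h3 : 1 / 3 ≤ δ / ‖(1 : ℂ) + δ - x‖ := by
    rw [div_le_div_iff₀ (by norm_num) h2]; linarith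
  calc (1 : ℝ) / 6561 = (1 / 3) ^ 8 := by norm_num
    _ ≤ _ := by gcongr

theorem sum_Icc_inv_sq (M : ℕ) : ∑ n ∈ Finset.Icc (-(M : ℤ)) M, (1 : ℝ) / (n : ℝ) ^ 2 ≤ 4 - 2 / M := by
  induction M with
  | zero => simp
  | succ M ih =>
    have h1 : Finset.Icc (-((M + 1 : ℕ) : ℤ)) ((M + 1 : ℕ) : ℤ) =
        insert ((M + 1 : ℕ) : ℤ) (insert (-((M + 1 : ℕ) : ℤ)) (Finset.Icc (-(M : ℤ)) M)) := by
      ext n
      simp only [Finset.mem_Icc, Finset.mem_insert]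
      push_cast
      omega
    rw [h1, Finset.sum_insert, Finset.sum_insert]
    · rcases Nat.eq_zero_or_pos M with h0 | h0
      · subst h0
        simp
        norm_num
      · have hM : (1 : ℝ) ≤ M := by exact_mod_cast h0
        have h2 : (1 : ℝ) / (((M + 1 : ℕ) : ℤ) : ℝ) ^ 2 + 1 / (((-((M + 1 : ℕ) : ℤ)) : ℤ) : ℝ) ^ 2 ≤
            2 / M - 2 / ((M + 1 : ℕ) : ℝ) := by
          push_cast
          rw [neg_sq, ← add_div, div_sub_div _ _ (by positivity) (by positivity),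
            div_le_div_iff₀ (by positivity) (by positivity)]
          nlinarith
        linarith
    · simp
    · simp only [Finset.mem_insert, Finset.mem_Icc]
      push_cast
      omega

theorem sum_int_inv_sq (T : Finset ℤ) : ∑ n ∈ T, (1 : ℝ) / (n : ℝ) ^ 2 ≤ 4 := by
  obtain ⟨M, hM⟩ : ∃ M : ℕ, T ⊆ Finset.Icc (-(M : ℤ)) M := by
    refine ⟨T.sup Int.natAbs, fun n hn => ?_⟩
    have := Finset.le_sup (f := Int.natAbs) hn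
    rw [Finset.mem_Icc]
    omega
  calc _ ≤ ∑ n ∈ Finset.Icc (-(M : ℤ)) M, (1 : ℝ) / (n : ℝ) ^ 2 :=
        Finset.sum_le_sum_of_subset_of_nonneg hM fun _ _ _ => by positivity
    _ ≤ 4 - 2 / M := sum_Icc_inv_sq M
    _ ≤ 4 := by
      have : (0 : ℝ) ≤ 2 / M := by positivity
      linarith

theorem sum_shift_inv_sq (S : Finset ℕ) (k : ℤ) :
    ∑ i ∈ S, (1 : ℝ) / (((i : ℤ) - k : ℤ) : ℝ) ^ 2 ≤ 4 := by
  have h := sum_int_inv_sq (S.image fun i : ℕ => (i : ℤ) - k)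
  rwa [Finset.sum_image] at h
  intro i _ j _ hij
  simp only at hij
  omega

end Pool.Agent.Helper18_Henkin
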