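import Pool.Agent.Helper18_Henkin.Update

set_option autoImplicit false

open Complex Polynomial

namespace Pool.Agent.Helper18_Henkin

/-- The space `ℂ²` with its Euclidean norm. -/
abbrev E2 : Type := EuclideanSpace ℂ (Fin 2)

/-- The point with coordinates `u, v`. -/
noncomputable def pt (u v : ℂ) : E2 := WithLp.toLp 2 ![u, v]

@[simp] theorem pt_zero (u v : ℂ) : (pt u v) 0 = u := rfl
@[simp] theorem pt_one (u v : ℂ) : (pt u v) 1 = v := rfl

theorem norm_sq_eq (z : E2) : ‖z‖ ^ 2 = ‖z 0‖ ^ 2 + ‖z 1‖ ^ 2 := by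
  rw [EuclideanSpace.norm_sq_eq]
  simp [Fin.sum_univ_two]

theorem norm_sq_pt (u v : ℂ) : ‖pt u v‖ ^ 2 = ‖u‖ ^ 2 + ‖v‖ ^ 2 := by
  rw [norm_sq_eq]; simp

theorem smul_pt (c u v : ℂ) : c • pt u v = pt (c * u) (c * v) := by
  ext i
  fin_cases i <;> simp [pt]

theorem pt_sub (u v u' v' : ℂ) : pt u v - pt u' v' = pt (u - u') (v - v') := by
  ext i
  fin_cases i <;> simp [pt]

theorem pt_zero_zero : pt 0 0 = 0 := by
  ext i
  fin_cases i <;> simp [pt]

theorem continuous_pt {X : Type*} [TopologicalSpace X] {u v : X → ℂ} (hu : Continuous u) (hv : Continuous v) :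
    Continuous fun x => pt (u x) (v x) := by
  refine (PiLp.continuous_toLp 2 _).comp ?_
  refine continuous_pi fun i => ?_
  fin_cases i
  · exact hu
  · exact hv

theorem differentiable_pt {X : Type*} [NormedAddCommGroup X] [NormedSpace ℂ X] {u v : X → ℂ}
    (hu : Differentiable ℂ u) (hv : Differentiable ℂ v) : Differentiable ℂ fun x => pt (u x) (v x) := by
  rw [differentiable_euclidean]
  intro i
  fin_cases i
  · exact hu
  · exact hv

/-- The curve `(f, g)` is the boundary value of a polynomial disc centred at the origin. -/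
def IsPoly (f g : ℝ → ℂ) : Prop :=
  ∃ P Q : ℂ[X], P.eval 0 = 0 ∧ Q.eval 0 = 0 ∧ (∀ θ, f θ = P.eval (circleMap 0 1 θ)) ∧
    (∀ θ, g θ = Q.eval (circleMap 0 1 θ))

theorem uu_eq (N : ℕ) (θ : ℝ) : uu N θ = circleMap 0 1 θ ^ N := by
  simp only [uu, circleMap, zero_add, ofReal_one, one_mul]
  rw [← Complex.exp_nat_mul]
  congr 1
  push_cast
  ring

theorem eval_reflect (N : ℕ) (Q : ℂ[X]) (hN : Q.natDegree ≤ N) (z : ℂ) (hz : ‖z‖ = 1) :
    (reflect N (Q.map (starRingEnd ℂ))).eval z = z ^ N * star (Q.eval z) := by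
  have hz0 : z ≠ 0 := by
    intro h
    rw [h] at hz
    simp at hz
  have hinv : z⁻¹ = star z := by
    have h1 : z * star z = 1 := by
      rw [Complex.star_def, Complex.mul_conj, Complex.normSq_eq_norm_sq, hz]; simp
    exact inv_eq_of_mul_eq_one_right h1
  let _ : Invertible (z⁻¹) := invertibleOfNonzero (inv_ne_zero hz0)
  have h := eval₂_reflect_mul_pow (RingHom.id ℂ) (z⁻¹) N (Q.map (starRingEnd ℂ))
    ((natDegree_map_le).trans hN)
  rw [invOf_eq_inv, inv_inv] at h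
  have h2 : eval₂ (RingHom.id ℂ) (z⁻¹) (Q.map (starRingEnd ℂ)) = star (Q.eval z) := by
    rw [eval₂_id, hinv, eval_map, Complex.star_def, Polynomial.eval₂_at_apply]
  rw [h2, eval₂_id] at h
  rw [← h, inv_pow]
  have : z ^ N ≠ 0 := pow_ne_zero _ hz0
  field_simp

theorem eval_reflect_zero (N : ℕ) (Q : ℂ[X]) (hN : Q.natDegree < N) :
    (reflect N (Q.map (starRingEnd ℂ))).eval 0 = 0 := by
  rw [← coeff_zero_eq_eval_zero, coeff_reflect, revAt_le (Nat.zero_le N)]
  simp [coeff_eq_zero_of_natDegree_lt hN]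

theorem IsPoly.update {f g : ℝ → ℂ} (h : IsPoly f g) : ∃ N₀ : ℕ, ∀ N ≥ N₀, ∀ a b : ℝ,
    IsPoly (newf a b N f g) (newg a b N f g) := by
  obtain ⟨P, Q, hP, hQ, hf, hg⟩ := h
  refine ⟨P.natDegree + Q.natDegree + 1, fun N hN a b => ?_⟩
  refine ⟨C (a : ℂ) * P - C (b : ℂ) * reflect N (Q.map (starRingEnd ℂ)),
    C (a : ℂ) * Q + C (b : ℂ) * reflect N (P.map (starRingEnd ℂ)), ?_, ?_, ?_, ?_⟩
  · rw [eval_sub, eval_mul, eval_mul, hP, eval_reflect_zero N Q (by omega)]; simp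
  · rw [eval_add, eval_mul, eval_mul, hQ, eval_reflect_zero N P (by omega)]; simp
  · intro θ
    rw [eval_sub, eval_mul, eval_mul, eval_C, eval_C, eval_reflect N Q (by omega) _ (by simp), newf, hf, hg,
      uu_eq]
    ring
  · intro θ
    rw [eval_add, eval_mul, eval_mul, eval_C, eval_C, eval_reflect N P (by omega) _ (by simp), newg, hf, hg,
      uu_eq]
    ring

theorem IsPoly.continuous {f g : ℝ → ℂ} (h : IsPoly f g) : Continuous f ∧ Continuous g := by
  obtain ⟨P, Q, -, -, hf, hg⟩ := h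
  rw [funext hf, funext hg]
  exact ⟨P.continuous.comp (continuous_circleMap 0 1), Q.continuous.comp (continuous_circleMap 0 1)⟩

theorem IsPoly.periodic {f g : ℝ → ℂ} (h : IsPoly f g) (θ : ℝ) (k : ℤ) :
    f (θ + k * (2 * Real.pi)) = f θ ∧ g (θ + k * (2 * Real.pi)) = g θ := by
  obtain ⟨P, Q, -, -, hf, hg⟩ := h
  have : circleMap 0 1 (θ + k * (2 * Real.pi)) = circleMap 0 1 θ :=
    (periodic_circleMap 0 1).int_mul k θ
  rw [hf, hf, hg, hg, this]
  exact ⟨rfl, rfl⟩

/-- The mean value property along a polynomial disc. -/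
theorem IsPoly.mean_value {f g : ℝ → ℂ} (h : IsPoly f g) (hu : ∀ θ, ‖f θ‖ ^ 2 + ‖g θ‖ ^ 2 = 1)
    (H : E2 → ℂ) (hc : ContinuousOn H (Metric.closedBall 0 1)) (hd : DifferentiableOn ℂ H (Metric.ball 0 1)) :
    (2 * Real.pi)⁻¹ • ∫ θ in (0 : ℝ)..2 * Real.pi, H (pt (f θ) (g θ)) = H 0 := by
  obtain ⟨P, Q, hP, hQ, hf, hg⟩ := h
  obtain ⟨P₁, rfl⟩ : X ∣ P := by
    rw [X_dvd_iff, coeff_zero_eq_eval_zero, hP]
  obtain ⟨Q₁, rfl⟩ : X ∣ Q := by
    rw [X_dvd_iff, coeff_zero_eq_eval_zero, hQ]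
  have hsph : ∀ z : ℂ, ‖z‖ = 1 → ‖pt (P₁.eval z) (Q₁.eval z)‖ ≤ 1 := by
    intro z hz
    have hz' : z ∈ Metric.sphere (0 : ℂ) |(1 : ℝ)| := by simpa using hz
    rw [← range_circleMap] at hz'
    obtain ⟨θ, rfl⟩ := hz'
    have h1 := hu θ
    rw [hf, hg, eval_mul, eval_mul, eval_X, norm_mul, norm_mul, hz, one_mul, one_mul, ← norm_sq_pt] at h1
    have h2 := norm_nonneg (pt (P₁.eval (circleMap 0 1 θ)) (Q₁.eval (circleMap 0 1 θ)))
    nlinarith
  have hball : ∀ z : ℂ, ‖z‖ ≤ 1 → ‖pt (P₁.eval z) (Q₁.eval z)‖ ≤ 1 := by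
    intro z hz
    refine Complex.norm_le_of_forall_mem_frontier_norm_le (U := Metric.ball (0 : ℂ) 1)
      (f := fun z => pt (P₁.eval z) (Q₁.eval z)) Metric.isBounded_ball ?_ ?_ ?_
    · exact (differentiable_pt P₁.differentiable Q₁.differentiable).diffContOnCl
    · intro w hw
      rw [frontier_ball _ one_ne_zero] at hw
      exact hsph w (by simpa using hw)
    · rw [closure_ball _ one_ne_zero]
      simpa using hz
  have hle : ∀ z : ℂ, ‖z‖ ≤ 1 → ‖pt ((X * P₁).eval z) ((X * Q₁).eval z)‖ ≤ ‖z‖ := by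
    intro z hz
    rw [eval_mul, eval_mul, eval_X, ← smul_pt, norm_smul]
    exact mul_le_of_le_one_right (norm_nonneg _) (hball z hz)
  have hdiff : Differentiable ℂ (fun z => pt ((X * P₁).eval z) ((X * Q₁).eval z)) :=
    differentiable_pt (X * P₁).differentiable (X * Q₁).differentiable
  have hDC : DiffContOnCl ℂ (fun z => H (pt ((X * P₁).eval z) ((X * Q₁).eval z)))
      (Metric.ball (0 : ℂ) |(1 : ℝ)|) := by
    rw [abs_one]
    refine ⟨?_, ?_⟩
    · refine hd.comp hdiff.differentiableOn ?_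
      intro z hz
      simp only [Metric.mem_ball, dist_zero_right] at hz ⊢
      exact (hle z hz.le).trans_lt hz
    · rw [closure_ball _ one_ne_zero]
      refine hc.comp hdiff.continuous.continuousOn ?_
      intro z hz
      simp only [Metric.mem_closedBall, dist_zero_right] at hz ⊢
      exact (hle z hz).trans hz
  have h1 := hDC.circleAverage
  rw [Real.circleAverage_def] at h1
  rw [hP, hQ, pt_zero_zero] at h1
  rw [← h1]
  congr 1
  refine intervalIntegral.integral_congr fun θ _ => ?_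
  simp only [hf, hg]

end Pool.Agent.Helper18_Henkin
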