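import Pool.Agent.Helper18_Henkin.Lower

set_option autoImplicit false

open Complex Filter Topology MeasureTheory

namespace Pool.Agent.Helper18_Henkin

variable {f g : ℝ → ℂ} {A : ℝ → ℝ} {B : ℝ → ℂ} {A₀ K c : ℝ}

theorem norm_new_sq (a b : ℝ) (N : ℕ) (hu : ∀ θ, ‖f θ‖ ^ 2 + ‖g θ‖ ^ 2 = 1) (θ : ℝ) :
    ‖newf a b N f g θ‖ ^ 2 + ‖newg a b N f g θ‖ ^ 2 = a ^ 2 + b ^ 2 := by
  have h1 := DD_zero (newf a b N f g) (newg a b N f g) θ
  rw [DD_new, DD_zero, EE_zero, hu θ] at h1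
  simp only [ofReal_one, star_one, mul_one, star_zero, mul_zero, sub_zero, add_zero] at h1
  have h2 : uu N 0 = 1 := by simp [uu]
  rw [h2, mul_one] at h1
  have h3 : ((a ^ 2 + b ^ 2 : ℝ) : ℂ) = ((‖newf a b N f g θ‖ ^ 2 + ‖newg a b N f g θ‖ ^ 2 : ℝ) : ℂ) := by
    rw [← h1]; push_cast; ring
  exact_mod_cast h3.symm

theorem new_close {m : ℕ} {σ a b : ℝ} (h : Par A₀ m σ a b) (hu : ∀ θ, ‖f θ‖ ^ 2 + ‖g θ‖ ^ 2 = 1) (θ : ℝ) :
    ‖pt (newf a b (m ^ 8) f g θ) (newg a b (m ^ 8) f g θ) - pt (f θ) (g θ)‖ ≤ 2 * b := by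
  have e : pt (newf a b (m ^ 8) f g θ) (newg a b (m ^ 8) f g θ) - pt (f θ) (g θ) =
      pt (newf (a - 1) b (m ^ 8) f g θ) (newg (a - 1) b (m ^ 8) f g θ) := by
    rw [pt_sub]
    congr 1
    · simp only [newf]; push_cast; ring
    · simp only [newg]; push_cast; ring
  have h1 := norm_sq_pt (newf (a - 1) b (m ^ 8) f g θ) (newg (a - 1) b (m ^ 8) f g θ)
  rw [norm_new_sq (a - 1) b (m ^ 8) hu θ] at h1
  rw [e]
  have hb := h.b_pos
  have hb2 := h.b_le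
  have ha := h.one_sub_a
  have ha1 := h.a_le
  have h2 : (a - 1) ^ 2 + b ^ 2 ≤ (2 * b) ^ 2 := by
    have : (1 - a) ^ 2 ≤ b ^ 2 := by
      have h3 : 1 - a ≤ b := by nlinarith
      have h4 : 0 ≤ 1 - a := by linarith
      nlinarith
    nlinarith
  rw [← h1] at h2
  exact (pow_le_pow_iff_left₀ (norm_nonneg _) (by positivity) two_ne_zero).1 h2

theorem ev_div (C : ℝ) {e : ℝ} (he : 0 < e) : ∀ᶠ m : ℕ in atTop, C / (m : ℝ) ≤ e :=
  (tendsto_const_div_atTop_nhds_zero_nat C).eventually (ge_mem_nhds he)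

/-- The set of good angles. -/
def goodSet (A₀ : ℝ) (m J : ℕ) : Set ℝ :=
  ⋃ j ∈ Finset.range J, Set.Icc (node J j) (node J j + 1 / (m : ℝ) ^ 6 / A₀)

theorem goodSet_measurable (A₀ : ℝ) (m J : ℕ) : MeasurableSet (goodSet A₀ m J) :=
  Finset.measurableSet_biUnion _ fun _ _ => measurableSet_Icc

theorem Nod.gap {m J : ℕ} (hN : Nod A₀ K c m J) (hA₀ : 1 ≤ A₀) (hm : 1 ≤ m) :
    1 / (m : ℝ) ^ 6 / A₀ < 2 * Real.pi / J := by
  have hM : (1 : ℝ) ≤ m := by exact_mod_cast hm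
  have h1 := hN.sep
  have h0 : 0 < 1 / (m : ℝ) ^ 6 := by positivity
  rw [div_lt_iff₀ (by linarith)]
  linarith

theorem goodSet_subset {m J : ℕ} (hN : Nod A₀ K c m J) (hA₀ : 1 ≤ A₀) (hm : 1 ≤ m) :
    goodSet A₀ m J ⊆ Set.Icc 0 (2 * Real.pi) := by
  intro θ hθ
  simp only [goodSet, Set.mem_iUnion, Finset.mem_range, Set.mem_Icc, exists_prop] at hθ
  obtain ⟨j, hj, h1, h2⟩ := hθ
  have hgap := hN.gap hA₀ hm
  have hJ : (0 : ℝ) < J := by exact_mod_cast hN.J_pos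
  have hs : 0 < 2 * Real.pi / J := by positivity
  have hj1 : (j : ℝ) + 1 ≤ J := by exact_mod_cast hj
  constructor
  · refine le_trans ?_ h1
    simp only [node]
    positivity
  · have h3 : node J j + 2 * Real.pi / J ≤ 2 * Real.pi := by
      have e : node J j + 2 * Real.pi / J = (j + 1) * (2 * Real.pi / J) := by rw [node]; ring
      rw [e]
      calc ((j : ℝ) + 1) * (2 * Real.pi / J) ≤ J * (2 * Real.pi / J) := by gcongr
        _ = 2 * Real.pi := by field_simp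
    linarith

theorem goodSet_volume {m J : ℕ} (hN : Nod A₀ K c m J) (hA₀ : 1 ≤ A₀) (hm : 1 ≤ m) :
    ENNReal.ofReal (1 / 40) ≤ volume (goodSet A₀ m J) := by
  have hM : (1 : ℝ) ≤ m := by exact_mod_cast hm
  have hgap := hN.gap hA₀ hm
  have hJ : (0 : ℝ) < J := by exact_mod_cast hN.J_pos
  rw [goodSet, measure_biUnion_finset]
  · simp only [Real.volume_Icc, add_sub_cancel_left, Finset.sum_const, Finset.card_range, nsmul_eq_mul]
    rw [← ENNReal.ofReal_natCast, ← ENNReal.ofReal_mul (by positivity)]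
    apply ENNReal.ofReal_le_ofReal
    have h1 := hN.le_J
    rw [div_div, mul_one_div, div_le_div_iff₀ (by norm_num) (by positivity)]
    linarith
  · have key : ∀ i j : ℕ, i < j → Disjoint (Set.Icc (node J i) (node J i + 1 / (m : ℝ) ^ 6 / A₀))
        (Set.Icc (node J j) (node J j + 1 / (m : ℝ) ^ 6 / A₀)) := by
      intro i j hij
      rw [Set.disjoint_left]
      rintro θ ⟨_, h2⟩ ⟨h3, _⟩
      have hij' : (i : ℝ) + 1 ≤ j := by exact_mod_cast hij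
      have hs : 0 < 2 * Real.pi / J := by positivity
      have h5 : node J i + 2 * Real.pi / J ≤ node J j := by
        have e : node J i + 2 * Real.pi / J = (i + 1) * (2 * Real.pi / J) := by rw [node]; ring
        rw [e, node]
        gcongr
      linarith
    intro i _ j _ hne
    rcases lt_or_gt_of_ne hne with h | h
    · exact key i j h
    · exact (key j i h).symm
  · intro j _
    exact measurableSet_Icc

/-- The number of nodes. -/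
noncomputable def numNodes (A₀ : ℝ) (m : ℕ) : ℕ := ⌊2 * Real.pi * A₀ * (m : ℝ) ^ 6 / 120⌋₊

theorem nod_of_large (hg : Good f g A B A₀ K c) {m : ℕ} (hm : 2 ≤ m)
    (hfar : (A₀ * (24 * K / (c * A₀)) ^ 8) / m ≤ 1 / 10 ^ 8) : Nod A₀ K c m (numNodes A₀ m) := by
  have hM : (2 : ℝ) ≤ m := by exact_mod_cast hm
  have hM0 : (0 : ℝ) < m := by linarith
  have hA₀ := hg.A₀_ge
  have hK := hg.K_ge
  have hc := hg.c_pos
  have hpi := Real.pi_gt_three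
  have hpi2 := Real.pi_lt_d2
  have hm6 : (64 : ℝ) ≤ (m : ℝ) ^ 6 := by
    calc (64 : ℝ) = 2 ^ 6 := by norm_num
      _ ≤ (m : ℝ) ^ 6 := by gcongr
  have hAm : (64 : ℝ) ≤ A₀ * (m : ℝ) ^ 6 := by nlinarith
  have h1 : (numNodes A₀ m : ℝ) ≤ 2 * Real.pi * A₀ * (m : ℝ) ^ 6 / 120 :=
    Nat.floor_le (by positivity)
  have h2 : 2 * Real.pi * A₀ * (m : ℝ) ^ 6 / 120 < numNodes A₀ m + 1 := Nat.lt_floor_add_one _
  set J := numNodes A₀ m with hJdef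
  have hle : (J : ℝ) ≤ A₀ * (m : ℝ) ^ 6 := by
    have : 2 * Real.pi * (A₀ * (m : ℝ) ^ 6) ≤ 120 * (A₀ * (m : ℝ) ^ 6) := by gcongr; linarith
    linarith
  have hge : A₀ * (m : ℝ) ^ 6 ≤ 40 * J := by
    have : 3 * (A₀ * (m : ℝ) ^ 6) ≤ Real.pi * (A₀ * (m : ℝ) ^ 6) := by gcongr
    linarith
  have hJpos : (0 : ℝ) < J := by linarith
  refine ⟨by exact_mod_cast hJpos, hle, hge, ?_, ?_⟩
  · rw [mul_one_div, mul_div_assoc', div_le_div_iff₀ (by positivity) hJpos]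
    linarith
  · calc (J : ℝ) * (24 * K * (1 / (m : ℝ) ^ 6) / (c * A₀)) ^ 8 ≤
        (A₀ * (m : ℝ) ^ 6) * (24 * K * (1 / (m : ℝ) ^ 6) / (c * A₀)) ^ 8 := by gcongr
      _ = (A₀ * (24 * K / (c * A₀)) ^ 8) * (1 / (m : ℝ) ^ 42) := by field_simp
      _ ≤ (A₀ * (24 * K / (c * A₀)) ^ 8) * (1 / m) := by
        gcongr
        calc (m : ℝ) = (m : ℝ) ^ 1 := (pow_one _).symm
          _ ≤ (m : ℝ) ^ 42 := pow_le_pow_right₀ (by linarith) (by norm_num)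
      _ = (A₀ * (24 * K / (c * A₀)) ^ 8) / m := by ring
      _ ≤ _ := hfar

/-- The main one-step construction. -/
theorem stage (hg : Good f g A B A₀ K c) (hp : IsPoly f g) {ε w R₀ : ℝ} (hε : 0 < ε) (hw : 0 < w)
    (hR₀ : R₀ < 1) :
    ∃ (f' g' : ℝ → ℂ) (A' : ℝ → ℝ) (B' : ℝ → ℂ) (A₀' K' c' : ℝ) (p : E2 → ℂ),
      Good f' g' A' B' A₀' K' c' ∧ IsPoly f' g' ∧
      (∀ z, ‖z‖ ≤ 1 → DifferentiableAt ℂ p z) ∧
      (∀ z, ‖z‖ ≤ 1 → ‖p z‖ ≤ 1 / 2) ∧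
      (∀ z, ‖z‖ ≤ 1 → (∀ θ, w ≤ ‖z - pt (f θ) (g θ)‖) → ‖p z‖ ≤ ε) ∧
      (∀ z, ‖z‖ ≤ R₀ → ‖p z‖ ≤ ε) ∧
      (∀ θ, ‖pt (f' θ) (g' θ) - pt (f θ) (g θ)‖ ≤ ε) ∧
      (∀ θ, ‖p (pt (f' θ) (g' θ))‖ ≤ ε) ∧
      ∃ r : ℝ, 0 < r ∧ r < 1 ∧ ∃ S : Set ℝ, MeasurableSet S ∧ S ⊆ Set.Icc 0 (2 * Real.pi) ∧
        ENNReal.ofReal (1 / 40) ≤ volume S ∧
        ∀ θ ∈ S, 1 / 10 ^ 7 ≤ ‖p ((r : ℂ) • pt (f' θ) (g' θ))‖ := by
  have hK := hg.K_ge
  have hA₀ := hg.A₀_ge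
  have hc := hg.c_pos
  obtain ⟨b₀, hb₀, hb₀', hupd⟩ := hg.update
  obtain ⟨N₀, hN₀⟩ := hp.update
  set σ := Real.sqrt A₀ with hσdef
  have hσ : 0 < σ := Real.sqrt_pos.2 (by linarith)
  have hσ2 : σ ^ 2 = A₀ := Real.sq_sqrt (by linarith)
  set d := min (1 - R₀) (w ^ 2 / 2) with hd
  have hdpos : 0 < d := lt_min (by linarith) (by positivity)
  -- choose m
  have hex : ∀ᶠ m : ℕ in atTop, 2 ≤ m ∧ N₀ ≤ m ∧ (σ / 2) / (m : ℝ) ≤ b₀ ∧
      (σ / 2) / (m : ℝ) ≤ c / (20 * K) ∧ (σ / 2) / (m : ℝ) ≤ ε / 2 ∧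
      (A₀ * (24 * K / (c * A₀)) ^ 8) / (m : ℝ) ≤ 1 / 10 ^ 8 ∧ A₀ / (m : ℝ) ≤ c ∧
      A₀ / (m : ℝ) ≤ 1 / 20 ∧ (24 * A₀ ^ 3 * K) / (m : ℝ) ≤ 1 / 200 ∧
      (24 * A₀ ^ 3 * K + A₀ * (2 / c) ^ 8) / (m : ℝ) ≤ ε ∧ (A₀ / d ^ 8) / (m : ℝ) ≤ ε := by
    filter_upwards [eventually_ge_atTop 2, eventually_ge_atTop N₀, ev_div (σ / 2) hb₀,
      ev_div (σ / 2) (e := c / (20 * K)) (by positivity), ev_div (σ / 2) (e := ε / 2) (by positivity),
      ev_div (A₀ * (24 * K / (c * A₀)) ^ 8) (e := 1 / 10 ^ 8) (by norm_num), ev_div A₀ hc,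
      ev_div A₀ (e := 1 / 20) (by norm_num), ev_div (24 * A₀ ^ 3 * K) (e := 1 / 200) (by norm_num),
      ev_div (24 * A₀ ^ 3 * K + A₀ * (2 / c) ^ 8) hε, ev_div (A₀ / d ^ 8) hε] with m h1 h2 h3 h4 h5 h6 h7 h8 h9 h10 h11
    exact ⟨h1, h2, h3, h4, h5, h6, h7, h8, h9, h10, h11⟩
  obtain ⟨m, hm2, hmN, hm3, hm4, hm5, hm6, hm7, hm8, hm9, hm10, hm11⟩ := hex.exists
  have hM : (2 : ℝ) ≤ m := by exact_mod_cast hm2
  have hM0 : (0 : ℝ) < m := by linarith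
  have hM1 : (1 : ℝ) ≤ m := by linarith
  have hpow : ∀ k : ℕ, 1 ≤ k → (m : ℝ) ≤ (m : ℝ) ^ k := by
    intro k hk
    calc (m : ℝ) = (m : ℝ) ^ 1 := (pow_one _).symm
      _ ≤ (m : ℝ) ^ k := pow_le_pow_right₀ hM1 hk
  set b := σ / 2 / (m : ℝ) ^ 4 with hb
  have hb0 : 0 < b := by positivity
  have hbm : b ≤ σ / 2 / m := div_le_div_of_nonneg_left (by positivity) hM0 (hpow 4 (by norm_num))
  have hbb₀ : b ≤ b₀ := hbm.trans hm3
  have hb12 : b ≤ 1 / 2 := hbb₀.trans hb₀'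
  set a := Real.sqrt (1 - b ^ 2) with ha
  have h1b : 0 ≤ 1 - b ^ 2 := by nlinarith
  have ha0 : 0 ≤ a := Real.sqrt_nonneg _
  have hab : a ^ 2 + b ^ 2 = 1 := by rw [ha, Real.sq_sqrt h1b]; ring
  have hPar : Par A₀ m σ a b := ⟨by omega, hσ, hσ2, ha0, hb, hb12, hab⟩
  have hNod : Nod A₀ K c m (numNodes A₀ m) := nod_of_large hg hm2 hm6
  obtain ⟨A', B', K', c', hgood⟩ := hupd a b (m ^ 8) ha0 hb0 hbb₀ hab hPar.bN
  have hpoly : IsPoly (newf a b (m ^ 8) f g) (newg a b (m ^ 8) f g) := by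
    refine hN₀ (m ^ 8) ?_ a b
    calc N₀ ≤ m := hmN
      _ = m ^ 1 := (pow_one m).symm
      _ ≤ m ^ 8 := Nat.pow_le_pow_right (by omega) (by norm_num)
  have hbc : 20 * K * b ≤ c := by
    have : b ≤ c / (20 * K) := hbm.trans hm4
    rwa [le_div_iff₀ (by positivity), mul_comm] at this
  have hmc : A₀ ≤ c * (m : ℝ) ^ 3 := by
    rw [div_le_iff₀ hM0] at hm7
    refine hm7.trans ?_
    have := hpow 3 (by norm_num)
    gcongr
  have hm8' : A₀ / (m : ℝ) ^ 8 ≤ 1 / 20 :=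
    (div_le_div_of_nonneg_left (by linarith) hM0 (hpow 8 (by norm_num))).trans hm8
  have hfar : ∀ z : E2, ‖z‖ ≤ 1 → (∀ j, d ≤ ‖1 - xx f g (node (numNodes A₀ m) j) z‖) →
      ‖pp f g A m (numNodes A₀ m) σ a z‖ ≤ ε := by
    intro z hz hzd
    exact (pp_far hg hPar hNod z hz hdpos hzd).trans hm11
  refine ⟨newf a b (m ^ 8) f g, newg a b (m ^ 8) f g, A', B', 5 / 4 * A₀, K', c',
    pp f g A m (numNodes A₀ m) σ a, hgood, hpoly, ?_, ?_, ?_, ?_, ?_, ?_, ?_⟩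
  · intro z hz
    exact differentiableAt_pp hg.unit (by omega) _ _ _ z hz
  · intro z hz
    exact pp_le_half hg hp hPar hNod z hz
  · intro z hz hzw
    refine hfar z hz fun j => ?_
    have h1 := norm_sub_sq_le hg.unit (node (numNodes A₀ m) j) z hz
    have h2 := hzw (node (numNodes A₀ m) j)
    rw [norm_sub_rev] at h2
    have h3 : w ^ 2 ≤ ‖pt (f (node (numNodes A₀ m) j)) (g (node (numNodes A₀ m) j)) - z‖ ^ 2 := by gcongr
    have h4 : d ≤ w ^ 2 / 2 := min_le_right _ _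
    linarith
  · intro z hz
    refine hfar z (hz.trans hR₀.le) fun j => ?_
    have h1 := norm_sub_norm_le (1 : ℂ) (xx f g (node (numNodes A₀ m) j) z)
    rw [norm_one] at h1
    have h2 := norm_xx_le hg.unit (node (numNodes A₀ m) j) z
    have h4 : d ≤ 1 - R₀ := min_le_left _ _
    linarith
  · intro θ
    refine (new_close hPar hg.unit θ).trans ?_
    have := hbm.trans hm5
    linarith
  · intro θ
    exact (pp_curve hg hp hPar hNod hpoly hbc hmc θ).trans hm10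
  · refine ⟨Real.exp (-(A₀ / (m : ℝ) ^ 8)), Real.exp_pos _, ?_, goodSet A₀ m (numNodes A₀ m),
      goodSet_measurable _ _ _, goodSet_subset hNod hA₀ (by omega), goodSet_volume hNod hA₀ (by omega), ?_⟩
    · rw [Real.exp_lt_one_iff]
      have : 0 < A₀ / (m : ℝ) ^ 8 := by positivity
      linarith
    · intro θ hθ
      simp only [goodSet, Set.mem_iUnion, Set.mem_Icc, exists_prop] at hθ
      obtain ⟨j, hj, h1, h2⟩ := hθ
      have h3 := pp_lower hg hp hPar hNod hm8' hm9 j hj (θ - node (numNodes A₀ m) j) (by linarith) (by linarith)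
      rwa [add_sub_cancel] at h3

end Pool.Agent.Helper18_Henkin
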