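import Pool.Agent.Helper18_Henkin.Curve

set_option autoImplicit false

open Complex

namespace Pool.Agent.Helper18_Henkin

variable {f g : ℝ → ℂ} {A : ℝ → ℝ} {B : ℝ → ℂ} {A₀ K c : ℝ}

/-- The new `A`. -/
noncomputable def newA (a b : ℝ) (N : ℕ) (A : ℝ → ℝ) (B : ℝ → ℂ) (θ : ℝ) : ℝ :=
  a ^ 2 * A θ + b ^ 2 * (N - A θ) + a * b * (2 * (star (uu N θ) * B θ).re)

/-- The new `B`. -/
noncomputable def newB (a b : ℝ) (N : ℕ) (A : ℝ → ℝ) (B : ℝ → ℂ) (θ : ℝ) : ℂ :=
  a ^ 2 * B θ - b ^ 2 * (uu N θ ^ 2 * star (B θ)) + a * b * (uu N θ * (N - 2 * A θ))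

theorem expand_D (h : Good f g A B A₀ K c) {a b : ℝ} (ha0 : 0 ≤ a) (ha : a ≤ 1) (hb0 : 0 ≤ b) (hb : b ≤ 1)
    (hab : a ^ 2 + b ^ 2 = 1) (N : ℕ) (θ t : ℝ) :
    ‖DD (newf a b N f g) (newg a b N f g) θ t - 1 - I * (newA a b N A B θ) * t‖ ≤
      (4 * K + K * N + 2 * N ^ 2 + 2 * A₀ * N + 3 * A₀) * t ^ 2 := by
  have hK := h.K_ge
  have hA₀ := h.A₀_ge
  have hcab : (a : ℂ) ^ 2 + (b : ℂ) ^ 2 = 1 := by exact_mod_cast congrArg (fun x : ℝ => (x : ℂ)) hab
  have hre : ((2 * (star (uu N θ) * B θ).re : ℝ) : ℂ) = star (uu N θ) * B θ + uu N θ * star (B θ) := by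
    have := Complex.add_conj (star (uu N θ) * B θ)
    rw [← this, Complex.star_def, map_mul, Complex.conj_conj]
  have e1 : DD (newf a b N f g) (newg a b N f g) θ t - 1 - I * (newA a b N A B θ) * t =
      a ^ 2 * (DD f g θ t - 1 - I * (A θ) * t) +
      b ^ 2 * (uu N t * star (DD f g θ t) - 1 - I * (N - A θ) * t) +
      a * b * (star (uu N θ) * (EE f g θ t - I * B θ * t) -
        uu N θ * (uu N t * star (EE f g θ t) + I * star (B θ) * t)) := by
    rw [DD_new, newA]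
    push_cast at hre ⊢
    rw [hre]
    linear_combination hcab
  rw [e1]
  have h1 := h.hD θ t
  have h2 := h.norm_uD N θ t
  have h3 := h.hE θ t
  have h4 := h.norm_uE N θ t
  have n1 : ‖(a : ℂ) ^ 2 * (DD f g θ t - 1 - I * (A θ) * t)‖ ≤ K * t ^ 2 := by
    rw [norm_mul, norm_pow, Complex.norm_real, Real.norm_eq_abs, abs_of_nonneg ha0]
    calc a ^ 2 * _ ≤ 1 * _ := mul_le_mul_of_nonneg_right (pow_le_one₀ ha0 ha) (norm_nonneg _)
      _ ≤ K * t ^ 2 := by rw [one_mul]; exact h1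
  have n2 : ‖(b : ℂ) ^ 2 * (uu N t * star (DD f g θ t) - 1 - I * (N - A θ) * t)‖ ≤
      (K + 2 * N ^ 2 + 5 / 4 * A₀ * N) * t ^ 2 := by
    rw [norm_mul, norm_pow, Complex.norm_real, Real.norm_eq_abs, abs_of_nonneg hb0]
    calc b ^ 2 * _ ≤ 1 * _ := mul_le_mul_of_nonneg_right (pow_le_one₀ hb0 hb) (norm_nonneg _)
      _ ≤ _ := by rw [one_mul]; exact h2
  have n3 : ‖(a : ℂ) * b * (star (uu N θ) * (EE f g θ t - I * B θ * t) -
        uu N θ * (uu N t * star (EE f g θ t) + I * star (B θ) * t))‖ ≤ (K + (K + K * N)) * t ^ 2 := by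
    rw [norm_mul, norm_mul, Complex.norm_real, Complex.norm_real, Real.norm_eq_abs, Real.norm_eq_abs,
      abs_of_nonneg ha0, abs_of_nonneg hb0]
    have hab1 : a * b ≤ 1 := mul_le_one₀ ha hb0 hb
    calc a * b * _ ≤ 1 * _ := mul_le_mul_of_nonneg_right hab1 (norm_nonneg _)
      _ ≤ ‖star (uu N θ) * (EE f g θ t - I * B θ * t)‖ +
        ‖uu N θ * (uu N t * star (EE f g θ t) + I * star (B θ) * t)‖ := by rw [one_mul]; exact norm_sub_le _ _
      _ ≤ _ := by
        rw [norm_mul, norm_mul, norm_star, norm_uu, one_mul, one_mul, add_mul]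
        exact add_le_add h3 h4
  have hN : (0 : ℝ) ≤ N := Nat.cast_nonneg N
  calc _ ≤ ‖(a : ℂ) ^ 2 * (DD f g θ t - 1 - I * (A θ) * t) +
      b ^ 2 * (uu N t * star (DD f g θ t) - 1 - I * (N - A θ) * t)‖ + _ := norm_add_le _ _
    _ ≤ (‖(a : ℂ) ^ 2 * (DD f g θ t - 1 - I * (A θ) * t)‖ +
      ‖(b : ℂ) ^ 2 * (uu N t * star (DD f g θ t) - 1 - I * (N - A θ) * t)‖) + _ := by
        gcongr; exact norm_add_le _ _
    _ ≤ (K * t ^ 2 + (K + 2 * N ^ 2 + 5 / 4 * A₀ * N) * t ^ 2) + (K + (K + K * N)) * t ^ 2 :=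
        add_le_add (add_le_add n1 n2) n3
    _ ≤ _ := by
        have : 0 ≤ A₀ * N := by positivity
        nlinarith [sq_nonneg t]

theorem expand_E (h : Good f g A B A₀ K c) {a b : ℝ} (ha0 : 0 ≤ a) (ha : a ≤ 1) (hb0 : 0 ≤ b) (hb : b ≤ 1)
    (N : ℕ) (θ t : ℝ) :
    ‖EE (newf a b N f g) (newg a b N f g) θ t - I * (newB a b N A B θ) * t‖ ≤
      (4 * K + K * N + 2 * N ^ 2 + 2 * A₀ * N + 3 * A₀) * t ^ 2 := by
  have hK := h.K_ge
  have hA₀ := h.A₀_ge
  have e1 : EE (newf a b N f g) (newg a b N f g) θ t - I * (newB a b N A B θ) * t =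
      a ^ 2 * (EE f g θ t - I * B θ * t) +
      b ^ 2 * (uu N θ ^ 2 * (uu N t * star (EE f g θ t) + I * star (B θ) * t)) +
      a * b * (uu N θ * ((uu N t * star (DD f g θ t) - 1 - I * (N - A θ) * t) -
        (DD f g θ t - 1 - I * (A θ) * t))) := by
    rw [EE_new, newB]
    ring
  rw [e1]
  have h1 := h.hD θ t
  have h2 := h.norm_uD N θ t
  have h3 := h.hE θ t
  have h4 := h.norm_uE N θ t
  have n1 : ‖(a : ℂ) ^ 2 * (EE f g θ t - I * B θ * t)‖ ≤ K * t ^ 2 := by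
    rw [norm_mul, norm_pow, Complex.norm_real, Real.norm_eq_abs, abs_of_nonneg ha0]
    calc a ^ 2 * _ ≤ 1 * _ := mul_le_mul_of_nonneg_right (pow_le_one₀ ha0 ha) (norm_nonneg _)
      _ ≤ K * t ^ 2 := by rw [one_mul]; exact h3
  have n2 : ‖(b : ℂ) ^ 2 * (uu N θ ^ 2 * (uu N t * star (EE f g θ t) + I * star (B θ) * t))‖ ≤
      (K + K * N) * t ^ 2 := by
    rw [norm_mul, norm_pow, Complex.norm_real, Real.norm_eq_abs, abs_of_nonneg hb0, norm_mul, norm_pow,
      norm_uu, one_pow, one_mul]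
    calc b ^ 2 * _ ≤ 1 * _ := mul_le_mul_of_nonneg_right (pow_le_one₀ hb0 hb) (norm_nonneg _)
      _ ≤ _ := by rw [one_mul]; exact h4
  have n3 : ‖(a : ℂ) * b * (uu N θ * ((uu N t * star (DD f g θ t) - 1 - I * (N - A θ) * t) -
        (DD f g θ t - 1 - I * (A θ) * t)))‖ ≤ ((K + 2 * N ^ 2 + 5 / 4 * A₀ * N) + K) * t ^ 2 := by
    rw [norm_mul, norm_mul, Complex.norm_real, Complex.norm_real, Real.norm_eq_abs, Real.norm_eq_abs,
      abs_of_nonneg ha0, abs_of_nonneg hb0, norm_mul, norm_uu, one_mul]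
    have hab1 : a * b ≤ 1 := mul_le_one₀ ha hb0 hb
    calc a * b * _ ≤ 1 * _ := mul_le_mul_of_nonneg_right hab1 (norm_nonneg _)
      _ ≤ ‖uu N t * star (DD f g θ t) - 1 - I * (N - A θ) * t‖ +
        ‖DD f g θ t - 1 - I * (A θ) * t‖ := by rw [one_mul]; exact norm_sub_le _ _
      _ ≤ _ := by rw [add_mul]; exact add_le_add h2 h1
  have hN : (0 : ℝ) ≤ N := Nat.cast_nonneg N
  calc _ ≤ ‖(a : ℂ) ^ 2 * (EE f g θ t - I * B θ * t) +
      b ^ 2 * (uu N θ ^ 2 * (uu N t * star (EE f g θ t) + I * star (B θ) * t))‖ + _ := norm_add_le _ _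
    _ ≤ (‖(a : ℂ) ^ 2 * (EE f g θ t - I * B θ * t)‖ +
      ‖(b : ℂ) ^ 2 * (uu N θ ^ 2 * (uu N t * star (EE f g θ t) + I * star (B θ) * t))‖) + _ := by
        gcongr; exact norm_add_le _ _
    _ ≤ (K * t ^ 2 + (K + K * N) * t ^ 2) + ((K + 2 * N ^ 2 + 5 / 4 * A₀ * N) + K) * t ^ 2 :=
        add_le_add (add_le_add n1 n2) n3
    _ ≤ _ := by
        have : 0 ≤ A₀ * N := by positivity
        nlinarith [sq_nonneg t]

theorem norm_newB (h : Good f g A B A₀ K c) {a b : ℝ} (ha0 : 0 ≤ a) (ha : a ≤ 1) (hb0 : 0 ≤ b) (hb : b ≤ 1)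
    (N : ℕ) (θ : ℝ) : ‖newB a b N A B θ‖ ≤ 4 * K + K * N + 2 * N ^ 2 + 2 * A₀ * N + 3 * A₀ := by
  have hK := h.K_ge
  have hA₀ := h.A₀_ge
  have hA1 := h.A_le θ
  have hA2 := h.le_A θ
  have hB := h.hB θ
  have hN : (0 : ℝ) ≤ N := Nat.cast_nonneg N
  have hN2 : (N : ℝ) ≤ N ^ 2 := by
    rcases Nat.eq_zero_or_pos N with h0 | h0
    · simp [h0]
    · have : (1 : ℝ) ≤ N := by exact_mod_cast h0
      nlinarith
  have n1 : ‖(a : ℂ) ^ 2 * B θ‖ ≤ K := by
    rw [norm_mul, norm_pow, Complex.norm_real, Real.norm_eq_abs, abs_of_nonneg ha0]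
    calc a ^ 2 * _ ≤ 1 * _ := mul_le_mul_of_nonneg_right (pow_le_one₀ ha0 ha) (norm_nonneg _)
      _ ≤ K := by rw [one_mul]; exact hB
  have n2 : ‖(b : ℂ) ^ 2 * (uu N θ ^ 2 * star (B θ))‖ ≤ K := by
    rw [norm_mul, norm_pow, Complex.norm_real, Real.norm_eq_abs, abs_of_nonneg hb0, norm_mul, norm_pow,
      norm_uu, one_pow, one_mul, norm_star]
    calc b ^ 2 * _ ≤ 1 * _ := mul_le_mul_of_nonneg_right (pow_le_one₀ hb0 hb) (norm_nonneg _)
      _ ≤ K := by rw [one_mul]; exact hB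
  have n3 : ‖(a : ℂ) * b * (uu N θ * (N - 2 * A θ))‖ ≤ N + 5 / 2 * A₀ := by
    rw [norm_mul, norm_mul, Complex.norm_real, Complex.norm_real, Real.norm_eq_abs, Real.norm_eq_abs,
      abs_of_nonneg ha0, abs_of_nonneg hb0, norm_mul, norm_uu, one_mul]
    have hab1 : a * b ≤ 1 := mul_le_one₀ ha hb0 hb
    calc a * b * _ ≤ 1 * _ := mul_le_mul_of_nonneg_right hab1 (norm_nonneg _)
      _ ≤ ‖(N : ℂ)‖ + ‖(2 : ℂ) * A θ‖ := by rw [one_mul]; exact norm_sub_le _ _
      _ ≤ _ := by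
        rw [Complex.norm_natCast, norm_mul, Complex.norm_real, Real.norm_eq_abs,
          abs_of_nonneg (by linarith : 0 ≤ A θ)]
        simp only [Complex.norm_ofNat]
        linarith
  calc _ ≤ ‖(a : ℂ) ^ 2 * B θ - b ^ 2 * (uu N θ ^ 2 * star (B θ))‖ + ‖(a : ℂ) * b * (uu N θ * (N - 2 * A θ))‖ :=
        norm_add_le _ _
    _ ≤ (‖(a : ℂ) ^ 2 * B θ‖ + ‖(b : ℂ) ^ 2 * (uu N θ ^ 2 * star (B θ))‖) + _ := by
        gcongr; exact norm_sub_le _ _
    _ ≤ (K + K) + (N + 5 / 2 * A₀) := add_le_add (add_le_add n1 n2) n3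
    _ ≤ _ := by
        have : 0 ≤ A₀ * N := by positivity
        have : 0 ≤ K * N := by positivity
        nlinarith

theorem newA_near (h : Good f g A B A₀ K c) {a b : ℝ} (ha0 : 0 ≤ a) (ha : a ≤ 1) (hb0 : 0 ≤ b) (hb : b ≤ 1)
    (hab : a ^ 2 + b ^ 2 = 1) {N : ℕ} (hN : b ^ 2 * N = A₀ / 4)
    (hsmall : b * (5 / 2 * A₀ + 2 * K) ≤ 1 / 16) (θ : ℝ) :
    |newA a b N A B θ - 5 / 4 * A₀| ≤ (5 / 4 * A₀) / 4 := by
  have hK := h.K_ge
  have hA₀ := h.A₀_ge
  have hA1 := h.A_le θ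
  have hA2 := h.le_A θ
  have hAA := h.hA θ
  have e1 : newA a b N A B θ - 5 / 4 * A₀ = (A θ - A₀) - 2 * b ^ 2 * A θ +
      a * b * (2 * (star (uu N θ) * B θ).re) := by
    rw [newA]
    have : a ^ 2 = 1 - b ^ 2 := by linarith
    rw [this]
    linear_combination hN
  rw [e1]
  have n1 : |2 * b ^ 2 * A θ| ≤ b * (5 / 2 * A₀) := by
    rw [abs_of_nonneg (by have : 0 ≤ A θ := by linarith
                          positivity)]
    have : b ^ 2 ≤ b := by nlinarith
    nlinarith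
  have n2 : |a * b * (2 * (star (uu N θ) * B θ).re)| ≤ b * (2 * K) := by
    rw [abs_mul, abs_mul, abs_of_nonneg ha0, abs_of_nonneg hb0, abs_mul, abs_two]
    have h1 : |(star (uu N θ) * B θ).re| ≤ K := by
      refine (Complex.abs_re_le_norm _).trans ?_
      rw [norm_mul, norm_star, norm_uu, one_mul]
      exact h.hB θ
    have h2 : a * b ≤ b := by nlinarith
    have h3 : 0 ≤ |(star (uu N θ) * B θ).re| := abs_nonneg _
    calc a * b * (2 * |(star (uu N θ) * B θ).re|) ≤ b * (2 * |(star (uu N θ) * B θ).re|) :=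
          mul_le_mul_of_nonneg_right h2 (by positivity)
      _ ≤ b * (2 * K) := by gcongr
  calc _ ≤ |A θ - A₀ - 2 * b ^ 2 * A θ| + |a * b * (2 * (star (uu N θ) * B θ).re)| := abs_add_le _ _
    _ ≤ (|A θ - A₀| + |2 * b ^ 2 * A θ|) + _ := by gcongr; exact abs_sub _ _
    _ ≤ (A₀ / 4 + b * (5 / 2 * A₀)) + b * (2 * K) := add_le_add (add_le_add hAA n1) n2
    _ ≤ _ := by nlinarith

theorem low_new (h : Good f g A B A₀ K c) {a b : ℝ} (ha0 : 0 ≤ a) (ha : a ≤ 1) (hb0 : 0 < b) (hb : b ≤ 1)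
    (hab : a ^ 2 + b ^ 2 = 1) {N : ℕ} (hN : b ^ 2 * N = A₀ / 4)
    (h1 : b * (40 * K / c) ≤ 1) (h2 : b * (3 * A₀ + 16 * K / c + 10 * K) ≤ 1 / 64) (θ t : ℝ)
    (ht : |t| ≤ Real.pi) :
    min (c / 2) (A₀ / 4) * |t| ≤ ‖1 - DD (newf a b N f g) (newg a b N f g) θ t‖ := by
  have hK := h.K_ge
  have hA₀ := h.A₀_ge
  have hc := h.c_pos
  have hEn : ‖EE f g θ t‖ ≤ 5 * K * |t| := by
    refine (h.normE θ t).trans ?_
    have : t ^ 2 = |t| * |t| := by rw [← sq, sq_abs]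
    rw [this]
    have hpi := Real.pi_lt_d2
    have : |t| ≤ 4 := by linarith
    have : |t| * |t| ≤ |t| * 4 := by gcongr
    nlinarith [abs_nonneg t]
  have hX : ‖star (uu N θ) * EE f g θ t - uu N θ * (uu N t * star (EE f g θ t))‖ ≤ 10 * K * |t| := by
    refine (norm_sub_le _ _).trans ?_
    rw [norm_mul, norm_star, norm_uu, one_mul, norm_mul, norm_uu, one_mul, norm_mul, norm_uu, one_mul,
      norm_star]
    linarith
  have hXab : ‖(a : ℂ) * b * (star (uu N θ) * EE f g θ t - uu N θ * (uu N t * star (EE f g θ t)))‖ ≤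
      b * (10 * K * |t|) := by
    rw [norm_mul, norm_mul, Complex.norm_real, Complex.norm_real, Real.norm_eq_abs, Real.norm_eq_abs,
      abs_of_nonneg ha0, abs_of_nonneg hb0.le]
    have : a * b ≤ b := by nlinarith
    calc a * b * _ ≤ b * _ := mul_le_mul_of_nonneg_right this (norm_nonneg _)
      _ ≤ _ := by gcongr
  have hcab : (a : ℂ) ^ 2 + (b : ℂ) ^ 2 = 1 := by exact_mod_cast congrArg (fun x : ℝ => (x : ℂ)) hab
  rcases le_total (8 * b ^ 2 / c) |t| with hbig | hsmall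
  · -- large `t`
    have hD1 : ‖DD f g θ t‖ ≤ 1 := by
      -- Cauchy-Schwarz
      have hu1 := h.unit θ
      have hu2 := h.unit (θ + t)
      simp only [DD]
      refine (norm_add_le _ _).trans ?_
      rw [norm_mul, norm_mul, norm_star, norm_star]
      nlinarith [sq_nonneg (‖f (θ + t)‖ - ‖f θ‖), sq_nonneg (‖g (θ + t)‖ - ‖g θ‖)]
    have hlow := h.low θ t ht
    have e1 : 1 - DD (newf a b N f g) (newg a b N f g) θ t = (1 - DD f g θ t) -
        (b ^ 2 * (uu N t * star (DD f g θ t) - DD f g θ t) +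
        a * b * (star (uu N θ) * EE f g θ t - uu N θ * (uu N t * star (EE f g θ t)))) := by
      rw [DD_new]
      linear_combination (-(DD f g θ t)) * hcab
    have n1 : ‖(b : ℂ) ^ 2 * (uu N t * star (DD f g θ t) - DD f g θ t)‖ ≤ 2 * b ^ 2 := by
      rw [norm_mul, norm_pow, Complex.norm_real, Real.norm_eq_abs, abs_of_nonneg hb0.le]
      have : ‖uu N t * star (DD f g θ t) - DD f g θ t‖ ≤ 2 := by
        refine (norm_sub_le _ _).trans ?_
        rw [norm_mul, norm_uu, one_mul, norm_star]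
        linarith
      nlinarith [sq_nonneg b]
    have n2 : ‖1 - DD f g θ t‖ - (2 * b ^ 2 + b * (10 * K * |t|)) ≤
        ‖1 - DD (newf a b N f g) (newg a b N f g) θ t‖ := by
      rw [e1]
      have := norm_sub_norm_le (1 - DD f g θ t) (b ^ 2 * (uu N t * star (DD f g θ t) - DD f g θ t) +
        a * b * (star (uu N θ) * EE f g θ t - uu N θ * (uu N t * star (EE f g θ t))))
      have h3 := norm_add_le ((b : ℂ) ^ 2 * (uu N t * star (DD f g θ t) - DD f g θ t))
        (a * b * (star (uu N θ) * EE f g θ t - uu N θ * (uu N t * star (EE f g θ t))))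
      linarith
    have n3 : 2 * b ^ 2 ≤ c * |t| / 4 := by
      rw [div_le_iff₀ hc] at hbig
      linarith
    have n4 : b * (10 * K * |t|) ≤ c * |t| / 4 := by
      have : b * (40 * K) ≤ c := by
        have := mul_le_mul_of_nonneg_right h1 hc.le
        calc b * (40 * K) = b * (40 * K / c) * c := by field_simp
          _ ≤ 1 * c := this
          _ = c := one_mul c
      nlinarith [abs_nonneg t]
    calc min (c / 2) (A₀ / 4) * |t| ≤ (c / 2) * |t| := by gcongr; exact min_le_left _ _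
      _ ≤ _ := by linarith
  · -- small `t`
    have hIm : |(DD (newf a b N f g) (newg a b N f g) θ t).im| ≤
        ‖1 - DD (newf a b N f g) (newg a b N f g) θ t‖ := by
      have := Complex.abs_im_le_norm (1 - DD (newf a b N f g) (newg a b N f g) θ t)
      simpa using this
    have hA2 := h.le_A θ
    have m1 : |(DD f g θ t).im - A θ * t| ≤ K * t ^ 2 := by
      refine le_trans ?_ (h.hD θ t)
      have := Complex.abs_im_le_norm (DD f g θ t - 1 - I * (A θ) * t)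
      simpa using this
    have m2 : |(uu N t * star (DD f g θ t)).im| ≤ (5 / 4 * A₀ * |t| + K * t ^ 2) + N * |t| := by
      have e2 : (uu N t * star (DD f g θ t)).im =
          (uu N t * star (DD f g θ t - 1) + (uu N t - 1)).im := by
        simp only [star_sub, star_one, mul_sub, mul_one]
        simp
      rw [e2]
      refine (Complex.abs_im_le_norm _).trans ((norm_add_le _ _).trans ?_)
      rw [norm_mul, norm_uu, one_mul, norm_star, norm_sub_rev]
      exact add_le_add (h.normD θ t) (norm_uu_sub_one N t)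
    have e3 : (DD (newf a b N f g) (newg a b N f g) θ t).im = a ^ 2 * (DD f g θ t).im +
        b ^ 2 * (uu N t * star (DD f g θ t)).im +
        ((a : ℂ) * b * (star (uu N θ) * EE f g θ t - uu N θ * (uu N t * star (EE f g θ t)))).im := by
      have q1 : ∀ (s : ℝ) (z : ℂ), ((s : ℂ) ^ 2 * z).im = s ^ 2 * z.im := by
        intro s z
        rw [← Complex.ofReal_pow, Complex.im_ofReal_mul]
      rw [DD_new, Complex.add_im, Complex.add_im, q1, q1]
    have m3 : |((a : ℂ) * b * (star (uu N θ) * EE f g θ t - uu N θ * (uu N t * star (EE f g θ t)))).im| ≤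
        b * (10 * K * |t|) := (Complex.abs_im_le_norm _).trans hXab
    have hb2 : b ^ 2 ≤ b := by nlinarith
    have ht2 : t ^ 2 = |t| * |t| := by rw [← sq, sq_abs]
    have hKt : K * |t| ≤ b * (8 * K / c) := by
      calc K * |t| ≤ K * (8 * b ^ 2 / c) := by gcongr
        _ ≤ K * (8 * b / c) := by gcongr
        _ = b * (8 * K / c) := by ring
    have ht0 := abs_nonneg t
    have hNt : b ^ 2 * (N * |t|) = A₀ / 4 * |t| := by rw [← hN]; ring
    -- lower bound for the main term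
    have m4 : 3 / 4 * A₀ * |t| - K * t ^ 2 ≤ |(DD f g θ t).im| := by
      have h5 : |A θ * t| ≤ |(DD f g θ t).im| + |(DD f g θ t).im - A θ * t| := by
        have := abs_sub_abs_le_abs_sub (A θ * t) (DD f g θ t).im
        rw [abs_sub_comm] at this
        linarith
      rw [abs_mul, abs_of_nonneg (by linarith : 0 ≤ A θ)] at h5
      have h6 : 3 / 4 * A₀ * |t| ≤ A θ * |t| := by gcongr
      linarith
    have m5 : a ^ 2 * |(DD f g θ t).im| ≤ ‖1 - DD (newf a b N f g) (newg a b N f g) θ t‖ +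
        b ^ 2 * |(uu N t * star (DD f g θ t)).im| + b * (10 * K * |t|) := by
      have h7 : a ^ 2 * (DD f g θ t).im = (DD (newf a b N f g) (newg a b N f g) θ t).im -
        b ^ 2 * (uu N t * star (DD f g θ t)).im -
        ((a : ℂ) * b * (star (uu N θ) * EE f g θ t - uu N θ * (uu N t * star (EE f g θ t)))).im := by
        rw [e3]; ring
      have h8 : a ^ 2 * |(DD f g θ t).im| = |a ^ 2 * (DD f g θ t).im| := by
        rw [abs_mul, abs_of_nonneg (sq_nonneg a)]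
      have h9 : b ^ 2 * |(uu N t * star (DD f g θ t)).im| = |b ^ 2 * (uu N t * star (DD f g θ t)).im| := by
        rw [abs_mul, abs_of_nonneg (sq_nonneg b)]
      rw [h8, h9, h7]
      refine (abs_sub _ _).trans ?_
      refine (add_le_add (abs_sub _ _) le_rfl).trans ?_
      linarith
    have ha2 : a ^ 2 = 1 - b ^ 2 := by linarith
    have h10 : (1 - b ^ 2) * (3 / 4 * A₀ * |t| - K * t ^ 2) ≤ a ^ 2 * |(DD f g θ t).im| := by
      rw [ha2]
      apply mul_le_mul_of_nonneg_left m4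
      nlinarith
    have h11 : b ^ 2 * |(uu N t * star (DD f g θ t)).im| ≤
        b ^ 2 * (5 / 4 * A₀ * |t| + K * t ^ 2) + A₀ / 4 * |t| := by
      calc _ ≤ b ^ 2 * ((5 / 4 * A₀ * |t| + K * t ^ 2) + N * |t|) := by gcongr
        _ = _ := by rw [← hNt]; ring
    have h12 : min (c / 2) (A₀ / 4) * |t| ≤ A₀ / 4 * |t| := by gcongr; exact min_le_right _ _
    -- final arithmetic
    have h13 : b * (3 * A₀) * |t| + b * (16 * K / c) * |t| + b * (10 * K) * |t| ≤ 1 / 64 * |t| := by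
      have := mul_le_mul_of_nonneg_right h2 ht0
      calc _ = b * (3 * A₀ + 16 * K / c + 10 * K) * |t| := by ring
        _ ≤ _ := this
    have h14 : K * t ^ 2 ≤ b * (8 * K / c) * |t| := by
      rw [ht2, ← mul_assoc]
      gcongr
    have h15 : b ^ 2 * (A₀ * |t|) ≤ b * (A₀ * |t|) := by gcongr
    have h16 : b * (16 * K / c) * |t| = 2 * (b * (8 * K / c) * |t|) := by ring
    have h17 : 0 ≤ b ^ 2 * (K * t ^ 2) := by positivity
    have h18 : |t| ≤ A₀ * |t| := le_mul_of_one_le_left ht0 hA₀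
    have h19 : 0 ≤ A₀ * |t| := by positivity
    have h20 : 0 ≤ b ^ 2 * (A₀ * |t|) := by positivity
    have h21 : 0 ≤ b * (8 * K / c) * |t| := by positivity
    have h22 : (1 - b ^ 2) * (3 / 4 * A₀ * |t| - K * t ^ 2) =
        3 / 4 * (A₀ * |t|) - K * t ^ 2 - 3 / 4 * (b ^ 2 * (A₀ * |t|)) + b ^ 2 * (K * t ^ 2) := by ring
    have h23 : b ^ 2 * (5 / 4 * A₀ * |t| + K * t ^ 2) =
        5 / 4 * (b ^ 2 * (A₀ * |t|)) + b ^ 2 * (K * t ^ 2) := by ring
    have h24 : b * (3 * A₀) * |t| = 3 * (b * (A₀ * |t|)) := by ring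
    have h25 : b * (10 * K * |t|) = b * (10 * K) * |t| := by ring
    rw [h22] at h10
    rw [h23] at h11
    rw [h24, h16] at h13
    rw [h25] at m5
    refine h12.trans ?_
    linarith

/-- The class of good curves is stable under the update for all small `b`. -/
theorem Good.update (h : Good f g A B A₀ K c) : ∃ b₀ : ℝ, 0 < b₀ ∧ b₀ ≤ 1 / 2 ∧ ∀ (a b : ℝ) (N : ℕ),
    0 ≤ a → 0 < b → b ≤ b₀ → a ^ 2 + b ^ 2 = 1 → b ^ 2 * N = A₀ / 4 →
    ∃ A' B' K' c', Good (newf a b N f g) (newg a b N f g) A' B' (5 / 4 * A₀) K' c' := by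
  have hK := h.K_ge
  have hA₀ := h.A₀_ge
  have hc := h.c_pos
  set M := 3 * A₀ + 16 * K / c + 10 * K + 40 * K / c with hM
  have hMpos : 1 ≤ M := by
    have : 0 ≤ 16 * K / c := by positivity
    have : 0 ≤ 40 * K / c := by positivity
    rw [hM]; linarith
  refine ⟨1 / (64 * M), by positivity, ?_, ?_⟩
  · rw [div_le_div_iff₀ (by positivity) (by norm_num)]; linarith
  intro a b N ha0 hb0 hb hab hN
  have hbM : b * M ≤ 1 / 64 := by
    calc b * M ≤ 1 / (64 * M) * M := by gcongr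
      _ = 1 / 64 := by field_simp
  have hb1 : b ≤ 1 := by nlinarith
  have ha1 : a ≤ 1 := by nlinarith [sq_nonneg b]
  have p1 : 0 ≤ 16 * K / c := by positivity
  have p2 : 0 ≤ 40 * K / c := by positivity
  have q1 : b * (40 * K / c) ≤ 1 := by
    have : b * (40 * K / c) ≤ b * M := by
      apply mul_le_mul_of_nonneg_left _ hb0.le
      rw [hM]; linarith
    linarith
  have q2 : b * (3 * A₀ + 16 * K / c + 10 * K) ≤ 1 / 64 := by
    have : b * (3 * A₀ + 16 * K / c + 10 * K) ≤ b * M := by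
      apply mul_le_mul_of_nonneg_left _ hb0.le
      rw [hM]; linarith
    linarith
  have q3 : b * (5 / 2 * A₀ + 2 * K) ≤ 1 / 16 := by
    have : b * (5 / 2 * A₀ + 2 * K) ≤ b * M := by
      apply mul_le_mul_of_nonneg_left _ hb0.le
      rw [hM]; linarith
    linarith
  have hNn : (0 : ℝ) ≤ N := Nat.cast_nonneg N
  refine ⟨newA a b N A B, newB a b N A B, 4 * K + K * N + 2 * N ^ 2 + 2 * A₀ * N + 3 * A₀,
    min (c / 2) (A₀ / 4), ?_, ?_, ?_, ?_, ?_, ?_, ?_, ?_, ?_⟩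
  · linarith
  · have : 0 ≤ K * N := by positivity
    have : 0 ≤ 2 * A₀ * N := by positivity
    nlinarith [sq_nonneg (N : ℝ)]
  · exact lt_min (by positivity) (by positivity)
  · exact unit_new hab N h.unit
  · exact newA_near h ha0 ha1 hb0.le hb1 hab hN q3
  · exact norm_newB h ha0 ha1 hb0.le hb1 N
  · exact expand_D h ha0 ha1 hb0.le hb1 hab N
  · exact expand_E h ha0 ha1 hb0.le hb1 N
  · exact low_new h ha0 ha1 hb0 hb1 hab hN q1 q2

end Pool.Agent.Helper18_Henkin
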